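import Mathlib

namespace Pool.Agent.P.MP_c25521_co

open Finset

variable {V : Type} [DecidableEq V]

/-- degeneracy hypothesis in the shape used by the frozen statements -/
def Degen (G : SimpleGraph V) (m : ℕ) : Prop :=
  ∀ S : Finset V, S.Nonempty →
    ∃ v ∈ S, ∀ T : Finset V, T ⊆ S → (∀ w ∈ T, G.Adj v w) → T.card ≤ m

/-- a degenerate graph has an orientation of small out-degree -/
theorem exists_out (G : SimpleGraph V) (m : ℕ) (h : Degen G m) (S : Finset V) :
    ∃ out : V → Finset V, (∀ v, (out v).card ≤ m) ∧
      ∀ u ∈ S, ∀ v ∈ S, G.Adj u v → v ∈ out u ∨ u ∈ out v := by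
  classical
  induction S using Finset.strongInduction with
  | H S ih =>
    rcases S.eq_empty_or_nonempty with rfl | hS
    · exact ⟨fun _ => ∅, by simp, by simp⟩
    obtain ⟨v, hv, hdeg⟩ := h S hS
    obtain ⟨out, hc, ho⟩ := ih (S.erase v) (Finset.erase_ssubset hv)
    refine ⟨Function.update out v (S.filter (G.Adj v)), ?_, ?_⟩
    · intro u
      by_cases huv : u = v
      · subst huv
        simp only [Function.update_self]
        exact hdeg _ (Finset.filter_subset _ _) (fun w hw => (Finset.mem_filter.1 hw).2)
      · simp only [Function.update_of_ne huv]; exact hc u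
    · intro a ha b hb hab
      by_cases hav : a = v
      · subst hav
        left
        simp only [Function.update_self]
        exact Finset.mem_filter.2 ⟨hb, hab⟩
      by_cases hbv : b = v
      · subst hbv
        right
        simp only [Function.update_self]
        exact Finset.mem_filter.2 ⟨ha, hab.symm⟩
      simp only [Function.update_of_ne hav, Function.update_of_ne hbv]
      exact ho a (Finset.mem_erase.2 ⟨hav, ha⟩) b (Finset.mem_erase.2 ⟨hbv, hb⟩) hab

/-- probability that a vertex lies in the random set -/
noncomputable def pr {ι : Type} [Fintype ι] (w : ι → ℝ) (A : ι → Finset V) (u : V) : ℝ :=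
  ∑ i, if u ∈ A i then w i else 0

theorem union_bound {ι : Type} [Fintype ι] (w : ι → ℝ) (A : ι → Finset V) (hw : ∀ i, 0 ≤ w i)
    (B : Finset V) :
    ∑ i, w i - ∑ b ∈ B, pr w A b ≤ ∑ i, if Disjoint (A i) B then w i else 0 := by
  unfold pr
  rw [Finset.sum_comm, ← Finset.sum_sub_distrib]
  refine Finset.sum_le_sum fun i _ => ?_
  have h0 : ∀ b ∈ B, (0 : ℝ) ≤ if b ∈ A i then w i else 0 := by
    intro b _; split_ifs; exacts [hw i, le_rfl]
  split_ifs with hd
  · have := Finset.sum_nonneg h0
    linarith
  · obtain ⟨b, hb1, hb2⟩ := Finset.not_disjoint_iff.1 hd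
    have := Finset.single_le_sum h0 hb2
    simp only [hb1, if_true] at this
    linarith

/-- the random process with evictions -/
theorem process (D : SimpleGraph V) (m k : ℕ) (hD : Degen D m) (out : V → Finset V)
    (hk : ∀ v, (out v).card ≤ k) (f ρ y : ℝ) (hf : 0 < f) (hρ : 0 < ρ) (hρ1 : ρ ≤ 1)
    (hy0 : 0 ≤ y) (hy : 1 + k * ρ * y = y) (hc : f * (1 + (m + k) * ρ * y) ≤ ρ)
    (S : Finset V) :
    ∃ (ι : Type) (_ : Fintype ι) (w : ι → ℝ) (A : ι → Finset V),
      (∀ i, 0 ≤ w i) ∧ ∑ i, w i = 1 ∧ (∀ i, A i ⊆ S) ∧
      (∀ i, ∀ a ∈ A i, ∀ b ∈ A i, a ≠ b → ¬ D.Adj a b ∧ b ∉ out a) ∧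
      ∀ u ∈ S, f * (1 + (k - ((out u ∩ S).card : ℝ)) * ρ * y) ≤ pr w A u ∧ pr w A u ≤ f * y := by
  classical
  induction S using Finset.strongInduction with
  | H S ih =>
    rcases S.eq_empty_or_nonempty with rfl | hS
    · exact ⟨Unit, inferInstance, fun _ => 1, fun _ => ∅, by simp, by simp, by simp, by simp,
        by simp⟩
    obtain ⟨v, hv, hdeg⟩ := hD S hS
    obtain ⟨ι, _, w, A, hw, hsum, hAS, hind, hpr⟩ := ih (S.erase v) (Finset.erase_ssubset hv)
    set S' := S.erase v with hS'
    set N := S'.filter (D.Adj v) with hN
    set O := out v ∩ S' with hO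
    have hNc : N.card ≤ m :=
      hdeg _ ((Finset.filter_subset _ _).trans (Finset.erase_subset _ _))
        (fun w hw => (Finset.mem_filter.1 hw).2)
    have hOc : O.card ≤ k := (Finset.card_le_card Finset.inter_subset_left).trans (hk v)
    set B := N ∪ O with hB
    have hBS : B ⊆ S' := Finset.union_subset (Finset.filter_subset _ _) Finset.inter_subset_right
    have hBc : (B.card : ℝ) ≤ m + O.card := by
      have h2 : B.card ≤ m + O.card :=
        (Finset.card_union_le N O).trans (Nat.add_le_add_right hNc _)
      exact_mod_cast h2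
    set U : ℝ := ∑ i, if Disjoint (A i) B then w i else 0 with hU
    have hfy : 0 ≤ f * y := mul_nonneg hf.le hy0
    have hU1 : 1 - (m + O.card) * (f * y) ≤ U := by
      have h1 := union_bound w A hw B
      have h2 : ∑ b ∈ B, pr w A b ≤ B.card * (f * y) := by
        have := Finset.sum_le_card_nsmul B (pr w A) (f * y) (fun b hb => (hpr b (hBS hb)).2)
        simpa [nsmul_eq_mul] using this
      have h3 : (B.card : ℝ) * (f * y) ≤ (m + O.card) * (f * y) :=
        mul_le_mul_of_nonneg_right hBc hfy
      linarith
    set x : ℝ := f * (1 + (k - (O.card : ℝ)) * ρ * y) with hx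
    have hOk : (O.card : ℝ) ≤ k := by exact_mod_cast hOc
    have hρy : 0 ≤ ρ * y := mul_nonneg hρ.le hy0
    have hx0 : 0 < x := by
      have : 0 ≤ (k - (O.card : ℝ)) * ρ * y := by
        rw [mul_assoc]; exact mul_nonneg (by linarith) hρy
      positivity
    have hxy : x ≤ f * y := by
      have : (k - (O.card : ℝ)) * ρ * y ≤ k * ρ * y := by
        have : (0 : ℝ) ≤ O.card := by positivity
        rw [mul_assoc, mul_assoc]; exact mul_le_mul_of_nonneg_right (by linarith) hρy
      exact mul_le_mul_of_nonneg_left (by linarith) hf.le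
    have hxU : x ≤ ρ * U := by
      have h1 : x ≤ ρ * (1 - (m + O.card) * (f * y)) := by
        rw [hx]; nlinarith [hc]
      exact h1.trans (mul_le_mul_of_nonneg_left hU1 hρ.le)
    have hU0 : 0 < U := by
      by_contra hneg
      have : ρ * U ≤ 0 := mul_nonpos_of_nonneg_of_nonpos hρ.le (not_lt.1 hneg)
      linarith
    set γ : ℝ := x / U with hγ
    have hγ0 : 0 ≤ γ := by positivity
    have hγρ : γ ≤ ρ := by rw [hγ, div_le_iff₀ hU0]; exact hxU
    have hγU : γ * U = x := by rw [hγ]; field_simp
    set C := S'.filter (fun u => v ∈ out u) with hC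
    let g : ι → ℝ := fun i => if Disjoint (A i) B then γ * w i else 0
    have hg0 : ∀ i, 0 ≤ g i := by
      intro i; simp only [g]; split_ifs; exacts [mul_nonneg hγ0 (hw i), le_rfl]
    have hgw : ∀ i, g i ≤ ρ * w i := by
      intro i; simp only [g]; split_ifs
      · exact mul_le_mul_of_nonneg_right hγρ (hw i)
      · exact mul_nonneg hρ.le (hw i)
    have hgw' : ∀ i, g i ≤ w i := by
      intro i
      have := hgw i
      have h2 : ρ * w i ≤ 1 * w i := mul_le_mul_of_nonneg_right hρ1 (hw i)
      linarith
    have hgs : ∑ i, g i = x := by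
      rw [← hγU, hU, Finset.mul_sum]
      refine Finset.sum_congr rfl fun i _ => ?_
      simp only [g]; split_ifs <;> simp
    have hvA : ∀ i, v ∉ A i := fun i h => by simpa [hS'] using hAS i h
    let A2 : ι → Finset V := fun i => if Disjoint (A i) B then insert v (A i \ C) else ∅
    refine ⟨ι ⊕ ι, inferInstance, Sum.elim (fun i => w i - g i) g, Sum.elim A A2, ?_, ?_, ?_, ?_, ?_⟩
    · rintro (i | i)
      · simp only [Sum.elim_inl]; linarith [hgw' i]
      · exact hg0 i
    · rw [Fintype.sum_sum_type]
      simp only [Sum.elim_inl, Sum.elim_inr, Finset.sum_sub_distrib, hsum]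
      ring
    · rintro (i | i)
      · exact (hAS i).trans (Finset.erase_subset _ _)
      · simp only [Sum.elim_inr, A2]
        split_ifs
        · exact Finset.insert_subset hv
            (Finset.sdiff_subset.trans ((hAS i).trans (Finset.erase_subset _ _)))
        · simp
    · rintro (i | i)
      · exact hind i
      · simp only [Sum.elim_inr, A2]
        split_ifs with hd
        · have key : ∀ b ∈ A i \ C, (¬ D.Adj v b ∧ b ∉ out v) ∧ v ∉ out b := by
            intro b hb
            obtain ⟨hb1, hb2⟩ := Finset.mem_sdiff.1 hb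
            have hbS := hAS i hb1
            have hbB : b ∉ B := Finset.disjoint_left.1 hd hb1
            refine ⟨⟨fun h => hbB ?_, fun h => hbB ?_⟩, fun h => hb2 ?_⟩
            · exact Finset.mem_union_left _ (Finset.mem_filter.2 ⟨hbS, h⟩)
            · exact Finset.mem_union_right _ (Finset.mem_inter.2 ⟨h, hbS⟩)
            · exact Finset.mem_filter.2 ⟨hbS, h⟩
          intro a ha b hb hab
          rcases Finset.mem_insert.1 ha with rfl | ha
          · rcases Finset.mem_insert.1 hb with rfl | hb
            · exact absurd rfl hab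
            · exact (key b hb).1
          · rcases Finset.mem_insert.1 hb with rfl | hb
            · exact ⟨fun h => (key a ha).1.1 h.symm, (key a ha).2⟩
            · exact hind i a (Finset.mem_sdiff.1 ha).1 b (Finset.mem_sdiff.1 hb).1 hab
        · simp
    · intro u hu
      have hpr2 : pr (Sum.elim (fun i => w i - g i) g) (Sum.elim A A2) u =
          ∑ i, ((if u ∈ A i then w i - g i else 0) + if u ∈ A2 i then g i else 0) := by
        unfold pr
        rw [Fintype.sum_sum_type, Finset.sum_add_distrib]
        simp only [Sum.elim_inl, Sum.elim_inr]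
      rw [hpr2]
      by_cases huv : u = v
      · subst huv
        have : ∑ i, ((if u ∈ A i then w i - g i else 0) + if u ∈ A2 i then g i else 0) = x := by
          rw [← hgs]
          refine Finset.sum_congr rfl fun i _ => ?_
          simp only [hvA i, if_false, zero_add, A2, g]
          by_cases h1 : Disjoint (A i) B
          · simp [h1]
          · simp [h1]
        rw [this]
        refine ⟨?_, hxy⟩
        have h1 : (O.card : ℝ) ≤ (out u ∩ S).card := by
          exact_mod_cast Finset.card_le_card
            (Finset.inter_subset_inter_left (Finset.erase_subset _ _))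
        rw [hx]
        refine mul_le_mul_of_nonneg_left ?_ hf.le
        rw [mul_assoc, mul_assoc]
        have := mul_le_mul_of_nonneg_right (show (k : ℝ) - (out u ∩ S).card ≤ k - O.card by linarith) hρy
        linarith
      · have huS : u ∈ S' := Finset.mem_erase.2 ⟨huv, hu⟩
        obtain ⟨hl, hr⟩ := hpr u huS
        have hle : ∑ i, ((if u ∈ A i then w i - g i else 0) + if u ∈ A2 i then g i else 0) ≤
            pr w A u := by
          refine Finset.sum_le_sum fun i _ => ?_
          have hA2 : u ∈ A2 i → u ∈ A i := by
            simp only [A2]; split_ifs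
            · intro h
              rcases Finset.mem_insert.1 h with h | h
              · exact absurd h huv
              · exact (Finset.mem_sdiff.1 h).1
            · simp
          by_cases h1 : u ∈ A i
          · by_cases h2 : u ∈ A2 i
            · simp [h1, h2]
            · simp [h1, h2, hg0 i]
          · have h2 : u ∉ A2 i := fun h => h1 (hA2 h)
            simp [h1, h2]
        refine ⟨?_, hle.trans hr⟩
        by_cases huC : v ∈ out u
        · have h1 : ((out u ∩ S).card : ℝ) = (out u ∩ S').card + 1 := by
            have : out u ∩ S = insert v (out u ∩ S') := by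
              ext z
              simp only [hS', Finset.mem_inter, Finset.mem_insert, Finset.mem_erase]
              constructor
              · rintro ⟨h1, h2⟩
                by_cases hz : z = v
                · exact Or.inl hz
                · exact Or.inr ⟨h1, hz, h2⟩
              · rintro (rfl | ⟨h1, _, h2⟩)
                · exact ⟨huC, hv⟩
                · exact ⟨h1, h2⟩
            rw [this, Finset.card_insert_of_notMem (by simp [hS'])]
            push_cast; ring
          have h2 : (1 - ρ) * pr w A u ≤
              ∑ i, ((if u ∈ A i then w i - g i else 0) + if u ∈ A2 i then g i else 0) := by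
            unfold pr
            rw [Finset.mul_sum]
            refine Finset.sum_le_sum fun i _ => ?_
            have h3 : (0 : ℝ) ≤ if u ∈ A2 i then g i else 0 := by
              split_ifs; exacts [hg0 i, le_rfl]
            have h5 := hgw i
            by_cases h6 : u ∈ A i
            · simp only [h6, if_true]
              linarith
            · simp only [h6, if_false]
              linarith
          have h4 : ρ * pr w A u ≤ ρ * (f * y) := mul_le_mul_of_nonneg_left hr hρ.le
          rw [h1]
          nlinarith
        · have h1 : out u ∩ S = out u ∩ S' := by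
            ext z
            simp only [hS', Finset.mem_inter, Finset.mem_erase]
            constructor
            · rintro ⟨h1, h2⟩
              exact ⟨h1, fun hz => huC (hz ▸ h1), h2⟩
            · rintro ⟨h1, _, h2⟩
              exact ⟨h1, h2⟩
          rw [h1]
          refine hl.trans (le_of_eq ?_)
          unfold pr
          refine Finset.sum_congr rfl fun i _ => ?_
          have huC' : u ∉ C := fun h => huC (Finset.mem_filter.1 h).2
          by_cases h1 : u ∈ A i
          · simp only [h1, if_true, A2, g]
            split_ifs with h2 h3 h3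
            · ring
            · exact absurd (Finset.mem_insert_of_mem (Finset.mem_sdiff.2 ⟨h1, huC'⟩)) h3
            · ring
            · ring
          · have h2 : u ∉ A2 i := by
              simp only [A2]; split_ifs
              · intro h
                rcases Finset.mem_insert.1 h with h | h
                · exact huv h
                · exact h1 (Finset.mem_sdiff.1 h).1
              · simp
            simp [h1, h2]

/-- fractional colouring from the process -/
theorem frac_of_out [Fintype V] (D : SimpleGraph V) (m k : ℕ) (hD : Degen D m)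
    (out : V → Finset V) (hk : ∀ v, (out v).card ≤ k) (hk1 : 1 ≤ k) :
    ∃ w : Finset V → ℝ, (∀ I, 0 ≤ w I) ∧
      (∀ I, w I ≠ 0 → ∀ a ∈ I, ∀ b ∈ I, a ≠ b → ¬ D.Adj a b ∧ b ∉ out a) ∧
      (∀ v, 1 ≤ ∑ I, if v ∈ I then w I else 0) ∧
      ∑ I, w I ≤ (Real.sqrt (m + k) + Real.sqrt k) ^ 2 := by
  classical
  have hk0 : (1 : ℝ) ≤ k := by exact_mod_cast hk1
  have hm0 : (0 : ℝ) ≤ m := by positivity
  set a := Real.sqrt (m + k) with ha
  set b := Real.sqrt k with hb
  have ha2 : a ^ 2 = m + k := Real.sq_sqrt (by linarith)
  have hb2 : b ^ 2 = k := Real.sq_sqrt (by linarith)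
  have hb1 : 1 ≤ b := by rw [hb]; exact Real.one_le_sqrt.2 hk0
  have ha1 : 1 ≤ a := by rw [ha]; exact Real.one_le_sqrt.2 (by linarith)
  have ha0 : 0 < a := by linarith
  have hb0 : 0 < b := by linarith
  have hab : 0 < a + b := by linarith
  obtain ⟨ι, _, w, A, hw, hsum, -, hind, hpr⟩ :=
    process D m k hD out hk (1 / (a + b) ^ 2) (1 / (b * (a + b))) ((a + b) / a)
      (by positivity) (by positivity)
      (by rw [div_le_one (by positivity)]; nlinarith)
      (by positivity)
      (by rw [← hb2]; field_simp)
      (by rw [← ha2]; apply le_of_eq; field_simp; ring) Finset.univ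
  refine ⟨fun I => (a + b) ^ 2 * ∑ i ∈ Finset.univ.filter (fun i => A i = I), w i, ?_, ?_, ?_, ?_⟩
  · intro I
    exact mul_nonneg (by positivity) (Finset.sum_nonneg fun i _ => hw i)
  · intro I hI
    have h1 : ∑ i ∈ Finset.univ.filter (fun i => A i = I), w i ≠ 0 := right_ne_zero_of_mul hI
    obtain ⟨i, hi, -⟩ := Finset.exists_ne_zero_of_sum_ne_zero h1
    rw [← (Finset.mem_filter.1 hi).2]
    exact hind i
  · intro v
    have h1 : ∑ I : Finset V, (if v ∈ I then
        (a + b) ^ 2 * ∑ i ∈ Finset.univ.filter (fun i => A i = I), w i else 0) =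
        (a + b) ^ 2 * pr w A v := by
      unfold pr
      rw [← Finset.sum_fiberwise Finset.univ A (fun i => if v ∈ A i then w i else 0),
        Finset.mul_sum]
      refine Finset.sum_congr rfl fun I _ => ?_
      split_ifs with h
      · congr 1
        refine Finset.sum_congr rfl fun i hi => ?_
        rw [(Finset.mem_filter.1 hi).2, if_pos h]
      · rw [Finset.sum_eq_zero, mul_zero]
        intro i hi
        rw [(Finset.mem_filter.1 hi).2, if_neg h]
    rw [h1]
    have h2 := (hpr v (Finset.mem_univ v)).1
    have h3 : ((out v ∩ Finset.univ).card : ℝ) ≤ k := by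
      exact_mod_cast (Finset.card_le_card Finset.inter_subset_left).trans (hk v)
    have h4 : 0 ≤ ((k : ℝ) - (out v ∩ Finset.univ).card) * (1 / (b * (a + b))) * ((a + b) / a) := by
      have : 0 ≤ (k : ℝ) - (out v ∩ Finset.univ).card := by linarith
      positivity
    have h5 : 1 / (a + b) ^ 2 ≤ pr w A v := by
      refine le_trans ?_ h2
      have : 0 < 1 / (a + b) ^ 2 := by positivity
      nlinarith
    have h6 : (a + b) ^ 2 * (1 / (a + b) ^ 2) = 1 := by field_simp
    have h7 := mul_le_mul_of_nonneg_left h5 (show 0 ≤ (a + b) ^ 2 by positivity)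
    linarith
  · rw [← Finset.mul_sum, Finset.sum_fiberwise Finset.univ A w, hsum, mul_one]

end Pool.Agent.P.MP_c25521_co
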