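import Mathlib
import Pool.Agent.P.MP_c25521_co.Frac

namespace Pool.Agent.P.MP_c25521_co

open Finset

variable {V : Type} [DecidableEq V]

/-- a degeneracy order of a vertex set -/
theorem exists_order_aux (G : SimpleGraph V) (m : ℕ) (h : Degen G m) (S : Finset V) :
    ∃ (pos : V → ℕ) (back : V → Finset V), (∀ v ∈ S, pos v < S.card) ∧
      (∀ u ∈ S, ∀ v ∈ S, pos u = pos v → u = v) ∧ (∀ v, (back v).card ≤ m) ∧
      (∀ v ∈ S, ∀ u ∈ back v, u ∈ S ∧ pos u < pos v) ∧
      ∀ u ∈ S, ∀ v ∈ S, G.Adj u v → v ∈ back u ∨ u ∈ back v := by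
  classical
  induction S using Finset.strongInduction with
  | H S ih =>
    rcases S.eq_empty_or_nonempty with rfl | hS
    · exact ⟨fun _ => 0, fun _ => ∅, by simp, by simp, by simp, by simp, by simp⟩
    obtain ⟨v, hv, hdeg⟩ := h S hS
    obtain ⟨pos, back, h1, h2, h3, h4, h5⟩ := ih (S.erase v) (Finset.erase_ssubset hv)
    have hc : (S.erase v).card + 1 = S.card := Finset.card_erase_add_one hv
    have hlt : ∀ u ∈ S, u ≠ v → pos u < (S.erase v).card := fun u hu huv =>
      h1 u (Finset.mem_erase.2 ⟨huv, hu⟩)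
    refine ⟨Function.update pos v (S.erase v).card,
      Function.update back v (S.filter (G.Adj v)), ?_, ?_, ?_, ?_, ?_⟩
    · intro u hu
      by_cases huv : u = v
      · subst huv; simp only [Function.update_self]; omega
      · simp only [Function.update_of_ne huv]; have := hlt u hu huv; omega
    · intro a ha b hb hab
      by_cases hav : a = v <;> by_cases hbv : b = v
      · rw [hav, hbv]
      · subst hav
        simp only [Function.update_self, Function.update_of_ne hbv] at hab
        have := hlt b hb hbv; omega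
      · subst hbv
        simp only [Function.update_self, Function.update_of_ne hav] at hab
        have := hlt a ha hav; omega
      · simp only [Function.update_of_ne hav, Function.update_of_ne hbv] at hab
        exact h2 a (Finset.mem_erase.2 ⟨hav, ha⟩) b (Finset.mem_erase.2 ⟨hbv, hb⟩) hab
    · intro u
      by_cases huv : u = v
      · subst huv
        simp only [Function.update_self]
        exact hdeg _ (Finset.filter_subset _ _) (fun w hw => (Finset.mem_filter.1 hw).2)
      · simp only [Function.update_of_ne huv]; exact h3 u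
    · intro a ha b hb
      by_cases hav : a = v
      · subst hav
        simp only [Function.update_self] at hb ⊢
        obtain ⟨hb1, hb2⟩ := Finset.mem_filter.1 hb
        have hba : b ≠ a := hb2.ne'
        rw [Function.update_of_ne hba]
        exact ⟨hb1, hlt b hb1 hba⟩
      · simp only [Function.update_of_ne hav] at hb ⊢
        obtain ⟨hb1, hb2⟩ := h4 a (Finset.mem_erase.2 ⟨hav, ha⟩) b hb
        obtain ⟨hb3, hb4⟩ := Finset.mem_erase.1 hb1
        rw [Function.update_of_ne hb3]
        exact ⟨hb4, hb2⟩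
    · intro a ha b hb hab
      by_cases hav : a = v
      · subst hav
        left
        simp only [Function.update_self]
        exact Finset.mem_filter.2 ⟨hb, hab⟩
      by_cases hbv : b = v
      · subst hbv
        right
        simp only [Function.update_self]
        exact Finset.mem_filter.2 ⟨ha, hab.symm⟩
      simp only [Function.update_of_ne hav, Function.update_of_ne hbv]
      exact h5 a (Finset.mem_erase.2 ⟨hav, ha⟩) b (Finset.mem_erase.2 ⟨hbv, hb⟩) hab

omit [DecidableEq V] in
/-- choices made one vertex after the other -/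
theorem greedy_choice {C : Type} [Fintype V] [Nonempty C] (pos : V → ℕ) (back : V → Finset V)
    (hb : ∀ v, ∀ u ∈ back v, pos u < pos v) (Q : V → (V → C) → C → Prop)
    (hQ : ∀ v f g c, (∀ u ∈ back v, f u = g u) → Q v f c → Q v g c)
    (hex : ∀ v f, ∃ c, Q v f c) : ∃ f : V → C, ∀ v, Q v f (f v) := by
  classical
  choose F hF using hex
  have key : ∀ N : ℕ, ∃ f : V → C, ∀ v, pos v < N → Q v f (f v) := by
    intro N
    induction N with
    | zero => exact ⟨fun _ => Classical.arbitrary C, fun v hv => absurd hv (by omega)⟩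
    | succ N ih =>
      obtain ⟨f, hf⟩ := ih
      refine ⟨fun v => if pos v = N then F v f else f v, fun v hv => ?_⟩
      refine hQ v f _ _ (fun u hu => ?_) ?_
      · have := hb v u hu
        have hne : pos u ≠ N := by omega
        simp only [if_neg hne]
      · by_cases hN : pos v = N
        · simp only [if_pos hN]; exact hF v f
        · simp only [if_neg hN]; exact hf v (by omega)
  obtain ⟨f, hf⟩ := key (Finset.univ.sup pos + 1)
  exact ⟨f, fun v => hf v (Nat.lt_succ_of_le (Finset.le_sup (f := pos) (Finset.mem_univ v)))⟩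

omit [DecidableEq V] in
theorem nonneg_of_super [Fintype V] (a : V → V → ℝ) (ha : ∀ u v, 0 ≤ a u v)
    (hcol : ∀ v, ∑ u, a u v ≤ 3 / 4) (x : V → ℝ) (hx : ∀ u, ∑ v, a u v * x v ≤ x u) :
    ∀ u, 0 ≤ x u := by
  set y : V → ℝ := fun u => max (-x u) 0 with hy
  have hy0 : ∀ u, 0 ≤ y u := fun u => le_max_right _ _
  have hy1 : ∀ u, -x u ≤ y u := fun u => le_max_left _ _
  have h1 : ∀ u, y u ≤ ∑ v, a u v * y v := by
    intro u
    refine max_le ?_ (Finset.sum_nonneg fun v _ => mul_nonneg (ha u v) (hy0 v))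
    have h2 : ∑ v, a u v * (-x v) ≤ ∑ v, a u v * y v :=
      Finset.sum_le_sum fun v _ => mul_le_mul_of_nonneg_left (hy1 v) (ha u v)
    have h3 : ∑ v, a u v * (-x v) = -∑ v, a u v * x v := by
      rw [← Finset.sum_neg_distrib]; exact Finset.sum_congr rfl fun v _ => by ring
    linarith [hx u]
  have h2 : ∑ u, y u ≤ 3 / 4 * ∑ u, y u := by
    calc ∑ u, y u ≤ ∑ u, ∑ v, a u v * y v := Finset.sum_le_sum fun u _ => h1 u
      _ = ∑ v, (∑ u, a u v) * y v := by
        rw [Finset.sum_comm]; exact Finset.sum_congr rfl fun v _ => by rw [Finset.sum_mul]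
      _ ≤ ∑ v, 3 / 4 * y v :=
        Finset.sum_le_sum fun v _ => mul_le_mul_of_nonneg_right (hcol v) (hy0 v)
      _ = 3 / 4 * ∑ u, y u := by rw [Finset.mul_sum]
  intro u
  have h3 : y u ≤ ∑ u, y u := Finset.single_le_sum (fun v _ => hy0 v) (Finset.mem_univ u)
  have h4 : 0 ≤ ∑ u, y u := Finset.sum_nonneg fun v _ => hy0 v
  linarith [hy1 u]

omit [DecidableEq V] in
/-- superharmonic weights -/
theorem exists_weight [Fintype V] (a : V → V → ℝ) (ha : ∀ u v, 0 ≤ a u v)
    (hcol : ∀ v, ∑ u, a u v ≤ 3 / 4) :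
    ∃ w : V → ℝ, (∀ u, 1 ≤ w u) ∧ ∀ u, ∑ v, a u v * w v ≤ w u := by
  let L : (V → ℝ) →ₗ[ℝ] (V → ℝ) :=
    { toFun := fun x u => x u - ∑ v, a u v * x v
      map_add' := fun x y => by
        funext u
        simp only [Pi.add_apply, mul_add, Finset.sum_add_distrib]; ring
      map_smul' := fun c x => by
        funext u
        simp only [Pi.smul_apply, smul_eq_mul, RingHom.id_apply, mul_sub, Finset.mul_sum]
        congr 1
        exact Finset.sum_congr rfl fun v _ => by ring }
  have hL : ∀ x u, L x u = x u - ∑ v, a u v * x v := fun x u => rfl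
  have hinj : Function.Injective L := by
    rw [injective_iff_map_eq_zero]
    intro x hx
    have h0 : ∀ u, x u - ∑ v, a u v * x v = 0 := fun u => by rw [← hL, hx]; rfl
    have h1 := nonneg_of_super a ha hcol x (fun u => by linarith [h0 u])
    have h2 := nonneg_of_super a ha hcol (fun u => -x u) (fun u => by
      have h3 : ∑ v, a u v * (-x v) = -∑ v, a u v * x v := by
        rw [← Finset.sum_neg_distrib]; exact Finset.sum_congr rfl fun v _ => by ring
      simp only [h3]; linarith [h0 u])
    funext u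
    have := h2 u
    simp only [Pi.zero_apply]
    linarith [h1 u]
  obtain ⟨w, hw⟩ := (LinearMap.injective_iff_surjective.1 hinj) (fun _ => 1)
  have h0 : ∀ u, w u - ∑ v, a u v * w v = 1 := fun u => by rw [← hL, hw]
  have h1 := nonneg_of_super a ha hcol w (fun u => by linarith [h0 u])
  refine ⟨w, fun u => ?_, fun u => by linarith [h0 u]⟩
  have : 0 ≤ ∑ v, a u v * w v := Finset.sum_nonneg fun v _ => mul_nonneg (ha u v) (h1 v)
  linarith [h0 u]

/-- levels: few forward neighbours are two levels higher, few in-neighbours are not far lower -/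
theorem exists_level [Fintype V] (back out : V → Finset V) (m k lam r : ℕ) (hm : 0 < m)
    (hk : 0 < k) (hlam : 2 ≤ lam) (hback : ∀ v, (back v).card ≤ m)
    (hout : ∀ v, (out v).card ≤ k) :
    ∃ h : V → ℕ,
      (∀ u, (Finset.univ.filter fun v => u ∈ back v ∧ h u + 2 ≤ h v).card * lam ≤ 2 * m) ∧
      ∀ p, (Finset.univ.filter fun c => p ∈ out c ∧ h p + 1 ≤ h c + r).card ≤ 4 * k * lam ^ r := by
  have hm' : (0 : ℝ) < m := by exact_mod_cast hm
  have hk' : (0 : ℝ) < k := by exact_mod_cast hk
  have hl' : (1 : ℝ) < lam := by exact_mod_cast hlam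
  have hl0 : (0 : ℝ) < lam := by linarith
  set a : V → V → ℝ := fun u v =>
    (if u ∈ back v then 1 / (2 * (m : ℝ)) else 0) + (if u ∈ out v then 1 / (4 * (k : ℝ)) else 0)
    with ha
  have p1 : ∀ u v, (0 : ℝ) ≤ if u ∈ back v then 1 / (2 * (m : ℝ)) else 0 := by
    intro u v; split_ifs <;> positivity
  have p2 : ∀ u v, (0 : ℝ) ≤ if u ∈ out v then 1 / (4 * (k : ℝ)) else 0 := by
    intro u v; split_ifs <;> positivity
  have ha0 : ∀ u v, 0 ≤ a u v := fun u v => add_nonneg (p1 u v) (p2 u v)
  obtain ⟨w, hw1, hw2⟩ := exists_weight a ha0 (by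
    intro v
    simp only [ha, Finset.sum_add_distrib, Finset.sum_ite_mem, Finset.univ_inter,
      Finset.sum_const, nsmul_eq_mul]
    have e1 : ((back v).card : ℝ) ≤ m := by exact_mod_cast hback v
    have e2 : ((out v).card : ℝ) ≤ k := by exact_mod_cast hout v
    have e3 : ((back v).card : ℝ) * (1 / (2 * m)) ≤ 1 / 2 := by
      rw [mul_one_div, div_le_div_iff₀ (by positivity) (by positivity)]; linarith
    have e4 : ((out v).card : ℝ) * (1 / (4 * k)) ≤ 1 / 4 := by
      rw [mul_one_div, div_le_div_iff₀ (by positivity) (by positivity)]; linarith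
    linarith)
  choose h hh1 hh2 using fun v => exists_nat_pow_near (hw1 v) hl'
  have hw0 : ∀ v, 0 < w v := fun v => by linarith [hw1 v]
  have sub : ∀ (u : V) (F : Finset V) (c t : ℝ), (∀ v ∈ F, c ≤ a u v) → 0 ≤ c → 0 ≤ t →
      (∀ v ∈ F, t ≤ w v) → (F.card : ℝ) * (c * t) ≤ w u := by
    intro u F c t h1 hc ht h2
    calc (F.card : ℝ) * (c * t) = ∑ _v ∈ F, c * t := by simp
      _ ≤ ∑ v ∈ F, a u v * w v :=
        Finset.sum_le_sum fun v hv => mul_le_mul (h1 v hv) (h2 v hv) ht (ha0 u v)
      _ ≤ ∑ v, a u v * w v :=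
        Finset.sum_le_sum_of_subset_of_nonneg (Finset.subset_univ _)
          fun v _ _ => mul_nonneg (ha0 u v) (hw0 v).le
      _ ≤ w u := hw2 u
  refine ⟨h, fun u => ?_, fun p => ?_⟩
  · set F := Finset.univ.filter fun v => u ∈ back v ∧ h u + 2 ≤ h v with hF
    have h1 := sub u F (1 / (2 * m)) (lam * w u) (fun v hv => by
        have hv' := (Finset.mem_filter.1 hv).2.1
        have := p2 u v
        simp only [ha, if_pos hv']; linarith) (by positivity) (mul_pos hl0 (hw0 u)).le
      (fun v hv => by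
        have hv' := (Finset.mem_filter.1 hv).2.2
        calc lam * w u ≤ lam * (lam : ℝ) ^ (h u + 1) :=
              mul_le_mul_of_nonneg_left (hh2 u).le hl0.le
          _ = (lam : ℝ) ^ (h u + 2) := by ring
          _ ≤ (lam : ℝ) ^ (h v) := pow_le_pow_right₀ hl'.le hv'
          _ ≤ w v := hh1 v)
    have h2 : (F.card : ℝ) * lam ≤ 2 * m := by
      have e : (F.card : ℝ) * (1 / (2 * m) * (lam * w u)) = (F.card * lam / (2 * m)) * w u := by
        ring
      rw [e] at h1
      have h3 : (F.card : ℝ) * lam / (2 * m) ≤ 1 := by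
        by_contra hc
        rw [not_le] at hc
        nlinarith [hw0 u]
      rwa [div_le_one (by positivity)] at h3
    exact_mod_cast h2
  · set F := Finset.univ.filter fun c => p ∈ out c ∧ h p + 1 ≤ h c + r with hF
    have hr : (0 : ℝ) < (lam : ℝ) ^ r := by positivity
    have h1 := sub p F (1 / (4 * k)) (w p / (lam : ℝ) ^ r) (fun v hv => by
        have hv' := (Finset.mem_filter.1 hv).2.1
        have := p1 p v
        simp only [ha, if_pos hv']; linarith) (by positivity) (div_pos (hw0 p) hr).le
      (fun v hv => by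
        have hv' := (Finset.mem_filter.1 hv).2.2
        rw [div_le_iff₀ hr]
        calc w p ≤ (lam : ℝ) ^ (h p + 1) := (hh2 p).le
          _ ≤ (lam : ℝ) ^ (h v + r) := pow_le_pow_right₀ hl'.le hv'
          _ = (lam : ℝ) ^ (h v) * (lam : ℝ) ^ r := by ring
          _ ≤ w v * (lam : ℝ) ^ r := mul_le_mul_of_nonneg_right (hh1 v) hr.le)
    have h2 : (F.card : ℝ) ≤ 4 * k * (lam : ℝ) ^ r := by
      have e : (F.card : ℝ) * (1 / (4 * k) * (w p / (lam : ℝ) ^ r))
          = (F.card / (4 * k * (lam : ℝ) ^ r)) * w p := by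
        field_simp
      rw [e] at h1
      have h3 : (F.card : ℝ) / (4 * k * (lam : ℝ) ^ r) ≤ 1 := by
        by_contra hc
        rw [not_le] at hc
        nlinarith [hw0 p]
      rwa [div_le_one (by positivity)] at h3
    exact_mod_cast h2

omit [DecidableEq V] in
/-- parts: every vertex skips one prescribed part and has few back-neighbours in its own part -/
theorem exists_parts [Fintype V] (pos : V → ℕ) (back : V → Finset V)
    (hb : ∀ v, ∀ u ∈ back v, pos u < pos v) (m R : ℕ) (hR : 2 ≤ R)
    (hback : ∀ v, (back v).card ≤ m) (skip : V → Fin R) :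
    ∃ κ : V → Fin R, ∀ v, κ v ≠ skip v ∧
      ((back v).filter fun u => κ u = κ v).card * (R - 1) ≤ m := by
  have : Nonempty (Fin R) := ⟨⟨0, by omega⟩⟩
  refine greedy_choice pos back hb
    (fun v f c => c ≠ skip v ∧ ((back v).filter fun u => f u = c).card * (R - 1) ≤ m) ?_ ?_
  · rintro v f g c hfg ⟨h1, h2⟩
    refine ⟨h1, ?_⟩
    rwa [Finset.filter_congr (p := fun u => g u = c) (q := fun u => f u = c)
      (fun u hu => by rw [hfg u hu])]
  · intro v f
    have hcard : (Finset.univ.erase (skip v)).card = R - 1 := by simp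
    have hne : (Finset.univ.erase (skip v)).Nonempty := by
      rw [← Finset.card_pos, hcard]; omega
    have h1 : (back v).card = ∑ c : Fin R, ((back v).filter fun u => f u = c).card :=
      Finset.card_eq_sum_card_fiberwise (fun _ _ => Finset.mem_coe.2 (Finset.mem_univ _))
    have h2 : ∑ c ∈ Finset.univ.erase (skip v), ((back v).filter fun u => f u = c).card ≤ m :=
      (Finset.sum_le_sum_of_subset (Finset.erase_subset _ _)).trans (h1 ▸ hback v)
    obtain ⟨c, hc1, hc2⟩ := Finset.exists_le_of_sum_le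
      (f := fun c => ((back v).filter fun u => f u = c).card * (R - 1)) (g := fun _ => m) hne (by
        rw [← Finset.sum_mul, Finset.sum_const, hcard, smul_eq_mul, mul_comm]
        exact Nat.mul_le_mul_left _ h2)
    exact ⟨c, (Finset.mem_erase.1 hc1).1, hc2⟩

/-- block of a level with respect to the cut positions `κ` modulo `R` -/
theorem exists_block (h κ R : ℕ) (hκ : κ < R) (hne : κ ≠ h % R) :
    ∃ b, R * b + κ + 1 ≤ h + R ∧ h + 1 ≤ R * b + κ := by
  have h1 := Nat.div_add_mod h R
  have h2 : h % R < R := Nat.mod_lt _ (by omega)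
  rcases lt_or_gt_of_ne hne with hl | hl
  · refine ⟨h / R + 1, ?_, ?_⟩ <;> rw [Nat.mul_succ] <;> omega
  · exact ⟨h / R, by omega, by omega⟩

/-- main colouring theorem with free parameters -/
theorem colorable_of_out [Fintype V] (D H : SimpleGraph V) (m k lam R : ℕ) (hm : 0 < m)
    (hk : 0 < k) (hlam : 2 ≤ lam) (hR : 2 ≤ R) (hD : Degen D m) (out : V → Finset V)
    (hout : ∀ v, (out v).card ≤ k)
    (hH : ∀ u v, H.Adj u v → D.Adj u v ∨ v ∈ out u ∨ u ∈ out v) :
    H.Colorable (R * (m / (R - 1) + 2 * m / lam + k + 4 * k * lam ^ (R - 1) + 1)) := by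
  classical
  obtain ⟨pos, back, hp1, hp2, hback, hp4, hp5⟩ := exists_order_aux D m hD Finset.univ
  have hb : ∀ v, ∀ u ∈ back v, pos u < pos v := fun v u hu => (hp4 v (mem_univ v) u hu).2
  obtain ⟨h, hh1, hh2⟩ := exists_level back out m k lam (R - 1) hm hk hlam hback hout
  obtain ⟨κ, hκ⟩ := exists_parts pos back hb m R hR hback
    (fun v => ⟨h v % R, Nat.mod_lt _ (by omega)⟩)
  choose blk hblk1 hblk2 using fun v =>
    exists_block (h v) (κ v) R (κ v).2 (fun e => (hκ v).1 (Fin.ext e))
  set N := (Finset.univ : Finset V).card with hN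
  set B := Finset.univ.sup blk with hB
  have hBle : ∀ v, blk v ≤ B := fun v => Finset.le_sup (f := blk) (mem_univ v)
  set d := m / (R - 1) + 2 * m / lam + k + 4 * k * lam ^ (R - 1) with hd
  set early : V → Finset V := fun v => Finset.univ.filter fun u =>
    κ u = κ v ∧ H.Adj u v ∧ (blk v < blk u ∨ (blk u = blk v ∧ pos u < pos v)) with hearly
  have hkey : ∀ v, ∀ u ∈ early v, (B - blk u) * N + pos u < (B - blk v) * N + pos v := by
    intro v u hu
    obtain ⟨-, -, hu⟩ := (Finset.mem_filter.1 hu).2
    rcases hu with hu | ⟨hu, hu'⟩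
    · have e1 : B - blk u + 1 ≤ B - blk v := by have := hBle u; omega
      have e2 := Nat.mul_le_mul_right N e1
      have e3 := hp1 u (mem_univ u)
      rw [Nat.succ_mul] at e2
      omega
    · rw [hu]; omega
  have hcard : ∀ v, (early v).card ≤ d := by
    intro v
    have hsub : early v ⊆ ((back v).filter fun u => κ u = κ v) ∪
        (Finset.univ.filter fun u => v ∈ back u ∧ h v + 2 ≤ h u) ∪ out v ∪
        (Finset.univ.filter fun c => v ∈ out c ∧ h v + 1 ≤ h c + (R - 1)) := by
      intro u hu
      obtain ⟨h1, h2, h3⟩ := (Finset.mem_filter.1 hu).2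
      have a1 := hblk1 u
      have a2 := hblk2 v
      rw [h1] at a1
      simp only [Finset.mem_union, Finset.mem_filter, Finset.mem_univ, true_and]
      rcases hH u v h2 with hD' | ho | ho
      · rcases hp5 u (mem_univ u) v (mem_univ v) hD' with hb' | hb'
        · have hlt := hb u v hb'
          have hbl : blk v + 1 ≤ blk u := by omega
          have := Nat.mul_le_mul_left R hbl
          rw [Nat.mul_succ] at this
          exact Or.inl (Or.inl (Or.inr ⟨hb', by omega⟩))
        · exact Or.inl (Or.inl (Or.inl ⟨hb', h1⟩))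
      · have hbl : blk v ≤ blk u := by omega
        have := Nat.mul_le_mul_left R hbl
        exact Or.inr ⟨ho, by omega⟩
      · exact Or.inl (Or.inr ho)
    have c1 : ((back v).filter fun u => κ u = κ v).card ≤ m / (R - 1) :=
      (Nat.le_div_iff_mul_le (by omega)).2 (hκ v).2
    have c2 : (Finset.univ.filter fun u => v ∈ back u ∧ h v + 2 ≤ h u).card ≤ 2 * m / lam :=
      (Nat.le_div_iff_mul_le (by omega)).2 (hh1 v)
    have c3 := hout v
    have c4 := hh2 v
    have c5 := Finset.card_le_card hsub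
    have c6 := (Finset.card_union_le _ _).trans (Nat.add_le_add_right
      ((Finset.card_union_le _ _).trans (Nat.add_le_add_right (Finset.card_union_le
        ((back v).filter fun u => κ u = κ v)
        (Finset.univ.filter fun u => v ∈ back u ∧ h v + 2 ≤ h u)) (out v).card))
      (Finset.univ.filter fun c => v ∈ out c ∧ h v + 1 ≤ h c + (R - 1)).card)
    omega
  obtain ⟨φ, hφ⟩ := greedy_choice (C := Fin (d + 1)) (fun v => (B - blk v) * N + pos v) early hkey
    (fun v f c => ∀ u ∈ early v, f u ≠ c)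
    (fun v f g c hfg hq u hu => by rw [← hfg u hu]; exact hq u hu)
    (fun v f => by
      have : ((early v).image f).card < (Finset.univ : Finset (Fin (d + 1))).card := by
        have := Finset.card_image_le (s := early v) (f := f)
        have := hcard v
        simp only [Finset.card_univ, Fintype.card_fin]; omega
      obtain ⟨c, -, hc⟩ := Finset.exists_mem_notMem_of_card_lt_card this
      exact ⟨c, fun u hu e => hc (Finset.mem_image.2 ⟨u, hu, e⟩)⟩)
  have col : H.Coloring (Fin R × Fin (d + 1)) := SimpleGraph.Coloring.mk (fun v => (κ v, φ v)) (by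
    intro u v huv e
    obtain ⟨e1, e2⟩ := Prod.mk.inj e
    have hpos : pos u ≠ pos v := fun e => huv.ne (hp2 u (mem_univ u) v (mem_univ v) e)
    by_cases hc : blk v < blk u ∨ (blk u = blk v ∧ pos u < pos v)
    · exact hφ v u (Finset.mem_filter.2 ⟨mem_univ u, e1, huv, hc⟩) e2
    · exact hφ u v (Finset.mem_filter.2 ⟨mem_univ v, e1.symm, huv.symm, by omega⟩) e2.symm)
  simpa using col.colorable

theorem count_le (m k R : ℕ) (hk : 0 < k) (hR : 2 ≤ R) (h : 3 * (2 * R ^ 2) ^ R * k ≤ m) :
    R * (m / (R - 1) + 2 * m / (2 * R ^ 2) + k + 4 * k * (2 * R ^ 2) ^ (R - 1) + 1)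
      ≤ m + 4 * m / R := by
  obtain ⟨r, rfl⟩ : ∃ r, R = r + 1 := ⟨R - 1, by omega⟩
  have hr : 1 ≤ r := by omega
  simp only [Nat.add_sub_cancel]
  have ha : m / r * r ≤ m := Nat.div_mul_le_self _ _
  have hb : 2 * m / (2 * (r + 1) ^ 2) * (2 * (r + 1) ^ 2) ≤ 2 * m := Nat.div_mul_le_self _ _
  set a := m / r
  set b := 2 * m / (2 * (r + 1) ^ 2)
  rw [pow_succ] at h
  have hP : 1 ≤ (2 * (r + 1) ^ 2) ^ r := Nat.one_le_pow _ _ (by positivity)
  set P := (2 * (r + 1) ^ 2) ^ r
  have hkP : k ≤ k * P := Nat.le_mul_of_pos_right _ hP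
  have he : k + 4 * k * P + 1 ≤ 6 * (k * P) := by nlinarith
  set e := k + 4 * k * P + 1 with hee
  have h1 : (a + (r + 1) * b + (r + 1) * e) * (r + 1) ≤ 4 * m := by
    have t1 : a * (r + 1) ≤ 2 * m := by nlinarith
    have t2 : (r + 1) * b * (r + 1) ≤ m := by nlinarith
    have t3 : (r + 1) * e * (r + 1) ≤ m := by
      have : (r + 1) * e * (r + 1) ≤ (r + 1) * (6 * (k * P)) * (r + 1) := by gcongr
      nlinarith
    nlinarith
  have h2 := (Nat.le_div_iff_mul_le (Nat.succ_pos r)).2 h1
  have h3 : (r + 1) * (a + b + k + 4 * k * P + 1) = a * r + (a + (r + 1) * b + (r + 1) * e) := by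
    rw [hee]; ring
  rw [h3]
  exact Nat.add_le_add ha h2

end Pool.Agent.P.MP_c25521_co
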