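import Mathlib
import Pool.Agent.P.MP_fb43a4_co.Asy.Defs

/-!
Independent coins and the adaptive local lemma.
-/

namespace Pool.Agent.P.MP_c25521_co.Eps

open Finset Pool.Agent.P.MP_fb43a4_co.Asy

variable {V : Type} [DecidableEq V]

/-- expectation of `F X` when every point of `U` is put into `X` with probability `p` -/
noncomputable def Ex (p : ℝ) (U : Finset V) (F : Finset V → ℝ) : ℝ :=
  ∑ X ∈ U.powerset, (∏ _x ∈ X, p) * (∏ _x ∈ U \ X, (1 - p)) * F X

theorem Ex_empty (p : ℝ) (F : Finset V → ℝ) : Ex p ∅ F = F ∅ := by simp [Ex]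

theorem Ex_insert (p : ℝ) {U : Finset V} {u : V} (hu : u ∉ U) (F : Finset V → ℝ) :
    Ex p (insert u U) F = (1 - p) * Ex p U F + p * Ex p U fun X => F (insert u X) := by
  unfold Ex
  rw [sum_powerset_insert hu, mul_sum, mul_sum]
  congr 1
  · refine sum_congr rfl fun X hX => ?_
    have hX' := mem_powerset.1 hX
    have h1 : u ∉ X := fun h => hu (hX' h)
    rw [insert_sdiff_of_notMem _ h1, prod_insert (fun h => hu (mem_sdiff.1 h).1)]
    ring
  · refine sum_congr rfl fun X hX => ?_
    have hX' := mem_powerset.1 hX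
    have h1 : u ∉ X := fun h => hu (hX' h)
    rw [prod_insert h1, insert_sdiff_insert, sdiff_insert_of_notMem hu]
    ring

theorem Ex_mono {p : ℝ} (p0 : 0 ≤ p) (p1 : p ≤ 1) (U : Finset V) {F G : Finset V → ℝ}
    (h : ∀ X, X ⊆ U → F X ≤ G X) : Ex p U F ≤ Ex p U G := by
  refine sum_le_sum fun X hX => mul_le_mul_of_nonneg_left (h X (mem_powerset.1 hX)) ?_
  exact mul_nonneg (prod_nonneg fun _ _ => p0) (prod_nonneg fun _ _ => by linarith)

theorem Ex_prod (p : ℝ) (U : Finset V) (α β : V → ℝ) :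
    Ex p U (fun X => (∏ x ∈ X, α x) * ∏ x ∈ U \ X, β x) =
      ∏ x ∈ U, (p * α x + (1 - p) * β x) := by
  rw [prod_add]
  refine sum_congr rfl fun X _ => ?_
  rw [prod_mul_distrib, prod_mul_distrib]
  ring

theorem Ex_const (p : ℝ) (U : Finset V) (c : ℝ) : Ex p U (fun _ => c) = c := by
  have h := Ex_prod p U (fun _ => 1) (fun _ => 1)
  simp only [prod_const_one, mul_one, add_sub_cancel] at h
  unfold Ex at h ⊢
  simp only [mul_one] at h
  rw [← sum_mul, h, one_mul]

theorem Ex_lin (p : ℝ) (U : Finset V) (a b : ℝ) (F G : Finset V → ℝ) :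
    Ex p U (fun X => a * F X + b * G X) = a * Ex p U F + b * Ex p U G := by
  unfold Ex
  rw [mul_sum, mul_sum, ← sum_add_distrib]
  exact sum_congr rfl fun X _ => by ring

theorem Ex_sum (p : ℝ) (U : Finset V) {κ : Type} (K : Finset κ) (F : κ → Finset V → ℝ) :
    Ex p U (fun X => ∑ i ∈ K, F i X) = ∑ i ∈ K, Ex p U (F i) := by
  unfold Ex
  rw [sum_comm]
  exact sum_congr rfl fun X _ => by rw [mul_sum]

theorem Ex_nonneg {p : ℝ} (p0 : 0 ≤ p) (p1 : p ≤ 1) (U : Finset V) {F : Finset V → ℝ}
    (h : ∀ X, 0 ≤ F X) : 0 ≤ Ex p U F := by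
  have := Ex_mono p0 p1 U (F := fun _ => 0) (G := F) fun X _ => h X
  rwa [Ex_const] at this

/-- probability that `X` contains `B` and avoids `R` -/
theorem Ex_event {p : ℝ} (p0 : 0 ≤ p) (p1 : p ≤ 1) (U B R : Finset V) (hB : B ⊆ U)
    (hBR : Disjoint B R) (r : ℕ) (hr : (U ∩ R).card ≤ r) :
    p ^ B.card * (1 - p) ^ r ≤ Ex p U fun X => if B ⊆ X ∧ Disjoint X R then 1 else 0 := by
  have h := Ex_prod p U (fun x => if x ∈ R then 0 else 1) (fun x => if x ∈ B then 0 else 1)
  have h1 : ∏ x ∈ U, (p * (if x ∈ R then (0 : ℝ) else 1) + (1 - p) * if x ∈ B then 0 else 1) =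
      (∏ x ∈ U, if x ∈ B then p else 1) * ∏ x ∈ U, if x ∈ R then (1 - p) else 1 := by
    rw [← prod_mul_distrib]
    refine prod_congr rfl fun x _ => ?_
    by_cases hb : x ∈ B
    · have : x ∉ R := disjoint_left.1 hBR hb
      simp [hb, this]
    · by_cases hr : x ∈ R <;> simp [hb, hr]
  rw [h1, prod_ite_mem, prod_ite_mem, prod_const, prod_const, inter_eq_right.2 hB] at h
  refine le_trans ?_ (h.symm.le.trans (Ex_mono p0 p1 U fun X hX => ?_))
  · exact mul_le_mul_of_nonneg_left (pow_le_pow_of_le_one (by linarith) (by linarith) hr)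
      (by positivity)
  · split_ifs with hc
    · refine mul_le_one₀ (prod_le_one (fun _ _ => ?_) fun _ _ => ?_)
        (prod_nonneg fun _ _ => ?_) (prod_le_one (fun _ _ => ?_) fun _ _ => ?_) <;>
        split_ifs <;> norm_num
    · rw [not_and_or] at hc
      rcases hc with hc | hc
      · obtain ⟨x, hx, hx'⟩ := not_subset.1 hc
        rw [prod_eq_zero (f := fun x => if x ∈ B then (0 : ℝ) else 1)
          (mem_sdiff.2 ⟨hB hx, hx'⟩) (if_pos hx), mul_zero]
      · obtain ⟨x, hx, hx'⟩ := not_disjoint_iff.1 hc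
        rw [prod_eq_zero (f := fun x => if x ∈ R then (0 : ℝ) else 1) hx (if_pos hx'), zero_mul]

/-- the adaptive local lemma for one family of independent coins -/
theorem coins {ι : Type} [Fintype ι] [DecidableEq ι] {adj : ι → ι → Prop}
    (hs : ∀ a b, adj a b → adj b a) (Sup : ι → Finset V)
    (hSup : ∀ a b x, x ∈ Sup a → x ∈ Sup b → adj a b) {p : ℝ} (p0 : 0 ≤ p) (p1 : p ≤ 1)
    (U : Finset V) : ∀ F : ι → Finset V → ℝ, (∀ a X, 0 ≤ F a X) →
      (∀ a X x, x ∉ Sup a → F a (insert x X) = F a X) → Safe adj (fun a => Ex p U (F a)) →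
      ∃ X, X ⊆ U ∧ Safe adj fun a => F a X := by
  induction U using Finset.induction_on with
  | empty => exact fun F _ _ h => ⟨∅, Subset.refl _, by simpa [Ex_empty] using h⟩
  | insert u U hu ih =>
    intro F F0 hF h
    have hst := h.step hs (univ.filter fun a => u ∈ Sup a)
      (fun a ha b hb _ => hSup a b u (mem_filter.1 ha).2 (mem_filter.1 hb).2)
      (univ : Finset Bool) (fun i => if i then p else 1 - p)
      (fun i a => if i then Ex p U (fun X => F a (insert u X)) else Ex p U (F a))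
      (fun i _ => by cases i <;> simp [p0, p1]) (by simp)
      (fun i _ a _ => by
        cases i
        · exact Ex_nonneg p0 p1 U (F0 a)
        · exact Ex_nonneg p0 p1 U fun X => F0 a _)
      (fun i _ a ha => by
        have ha' : u ∉ Sup a := fun h => ha (mem_filter.2 ⟨mem_univ _, h⟩)
        have e : (fun X => F a (insert u X)) = F a := funext fun X => hF a X u ha'
        rw [Ex_insert p hu, e]
        cases i <;> simp <;> ring_nf <;> rfl)
      (fun a _ => by
        rw [Ex_insert p hu]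
        simp [add_comm])
    obtain ⟨i, -, -, hi⟩ := hst
    cases i
    · obtain ⟨X, hX, hS⟩ := ih F F0 hF hi
      exact ⟨X, hX.trans (subset_insert _ _), hS⟩
    · obtain ⟨X, hX, hS⟩ := ih (fun a X => F a (insert u X)) (fun a X => F0 a _)
        (fun a X x hx => by
          show F a (insert u (insert x X)) = F a (insert u X)
          rw [insert_comm, hF a _ x hx]) hi
      exact ⟨insert u X, insert_subset_insert _ hX, hS⟩

end Pool.Agent.P.MP_c25521_co.Eps
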