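import Mathlib
import Pool.Agent.P.MP_c25521_co.Eps1

/-!
The random colouring procedure, colour by colour.
-/

namespace Pool.Agent.P.MP_c25521_co.Eps

open Finset Pool.Agent.P.MP_fb43a4_co.Asy

set_option linter.unusedSectionVars false

variable {V : Type} [Fintype V] [DecidableEq V]

/-- input of the random procedure -/
structure Inp (N : V → Finset V) (S : Finset V) (Δ : ℕ) (P : V → Finset (V × V))
    (b : V → V → ℝ) : Prop where
  symm : ∀ u w, w ∈ N u → u ∈ N w
  irr : ∀ u, u ∉ N u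
  deg : ∀ v ∈ S, (N v ∩ S).card ≤ Δ
  pr : ∀ z, ∀ e ∈ P z, z ∈ S ∧ e.1 ∈ N z ∧ e.2 ∈ N z ∧ e.1 ∈ S ∧ e.2 ∈ S ∧ e.1 ≠ e.2 ∧
    e.2 ∉ N e.1
  b0 : ∀ v u, 0 ≤ b v u
  b1 : ∀ v u, b v u ≤ 1
  bs : ∀ v u, b v u ≠ 0 → v ∈ S ∧ u ∈ S ∧ u ∈ N v

/-- the coins an event looks at -/
def sup (N : V → Finset V) (S : Finset V) (v : V) : Finset V :=
  S.filter fun x => v ∈ S ∧ (x ∈ N v ∨ ∃ u ∈ S, u ∈ N v ∧ x ∈ N u)

/-- dependent events -/
def dep (N : V → Finset V) (S : Finset V) (v w : V) : Prop := ∃ x, x ∈ sup N S v ∧ x ∈ sup N S w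

/-- fresh pairs at which the colour `j` is free -/
def fresh (P : V → Finset (V × V)) (free : V → Finset ℕ) (used : Finset V) (z : V) (j : ℕ) :
    Finset (V × V) :=
  (P z).filter fun e => e.1 ∉ used ∧ e.2 ∉ used ∧ j ∈ free e.1 ∧ j ∈ free e.2

/-- a pair of `Q` wins -/
def win (N : V → Finset V) (S : Finset V) (Q : Finset (V × V)) (X : Finset V) : Prop :=
  ∃ e ∈ Q, e.1 ∈ X ∧ e.2 ∈ X ∧ Disjoint (N e.1 ∩ S) X ∧ Disjoint (N e.2 ∩ S) X

variable {N : V → Finset V} {S : Finset V} {Δ : ℕ} {P : V → Finset (V × V)} {b : V → V → ℝ}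

theorem Inp.sup_card (h : Inp N S Δ P b) (v : V) : (sup N S v).card ≤ Δ + Δ * Δ := by
  by_cases hv : v ∈ S
  · have : sup N S v ⊆ (N v ∩ S) ∪ (N v ∩ S).biUnion fun u => N u ∩ S := by
      intro x hx
      obtain ⟨hx, -, h1 | ⟨u, hu, h1, h2⟩⟩ := mem_filter.1 hx
      · exact mem_union_left _ (mem_inter.2 ⟨h1, hx⟩)
      · exact mem_union_right _ (mem_biUnion.2 ⟨u, mem_inter.2 ⟨h1, hu⟩, mem_inter.2 ⟨h2, hx⟩⟩)
    refine (card_le_card this).trans ((card_union_le _ _).trans (add_le_add (h.deg v hv) ?_))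
    refine (card_biUnion_le_card_mul _ _ Δ fun u hu => h.deg u (mem_inter.1 hu).2).trans ?_
    exact Nat.mul_le_mul_right _ (h.deg v hv)
  · have : sup N S v = ∅ := filter_eq_empty_iff.2 fun x _ hx => hv hx.1
    simp [this]

theorem Inp.dep_card (h : Inp N S Δ P b) (v : V) :
    (sel (dep N S v)).card ≤ (Δ + Δ * Δ) * (Δ + Δ * Δ) := by
  have : sel (dep N S v) ⊆ (sup N S v).biUnion (sup N S) := by
    intro w hw
    obtain ⟨x, h1, h2⟩ := mem_sel.1 hw
    obtain ⟨hx, hw, h3⟩ := mem_filter.1 h2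
    refine mem_biUnion.2 ⟨x, h1, mem_filter.2 ⟨hw, hx, ?_⟩⟩
    rcases h3 with h3 | ⟨u, hu, h3, h4⟩
    · exact Or.inl (h.symm _ _ h3)
    · exact Or.inr ⟨u, hu, h.symm _ _ h4, h.symm _ _ h3⟩
  refine (card_le_card this).trans ?_
  refine (card_biUnion_le_card_mul _ _ _ fun u _ => h.sup_card u).trans ?_
  exact Nat.mul_le_mul_right _ (h.sup_card v)

theorem Inp.win_insert (h : Inp N S Δ P b) {z x : V} (hx : x ∉ sup N S z) {Q : Finset (V × V)}
    (hQ : Q ⊆ P z) (X : Finset V) : win N S Q (insert x X) ↔ win N S Q X := by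
  refine exists_congr fun e => and_congr_right fun he => ?_
  obtain ⟨hz, n1, n2, s1, s2, -, -⟩ := h.pr z e (hQ he)
  have k1 : ∀ u, u ∈ N z → u ∈ S → (u ∈ insert x X ↔ u ∈ X) := fun u hu hs => by
    rw [mem_insert, or_iff_right]
    rintro rfl
    exact hx (mem_filter.2 ⟨hs, hz, Or.inl hu⟩)
  have k2 : ∀ u, u ∈ N z → u ∈ S → (Disjoint (N u ∩ S) (insert x X) ↔ Disjoint (N u ∩ S) X) :=
    fun u hu hs => by
      rw [disjoint_insert_right, and_iff_right]
      intro hc
      exact hx (mem_filter.2 ⟨(mem_inter.1 hc).2, hz, Or.inr ⟨u, hs, hu, (mem_inter.1 hc).1⟩⟩)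
  rw [k1 _ n1 s1, k1 _ n2 s2, k2 _ n1 s1, k2 _ n2 s2]

open Classical in
theorem Inp.win_Ex (h : Inp N S Δ P b) {p : ℝ} (p0 : 0 ≤ p) (p1 : p ≤ 1) {z : V}
    {Q : Finset (V × V)} (hQ : Q ⊆ P z) :
    Ex p S (fun X => if win N S Q X then Real.exp (-1) else 1) ≤
      Real.exp (-(p ^ 2 * (1 - p) ^ (3 * Δ) / 4 * Q.card)) := by
  set R : V × V → Finset V := fun e => (N z ∪ N e.1 ∪ N e.2) \ {e.1, e.2} with hR
  have h1 : ∀ X, X ⊆ S → (if win N S Q X then Real.exp (-1) else 1) ≤ 1 * 1 + (-1 / 4) *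
      ∑ e ∈ Q, if ({e.1, e.2} : Finset V) ⊆ X ∧ Disjoint X (R e) then (1 : ℝ) else 0 := by
    intro X _
    rw [sum_boole]
    have he1 : Real.exp (-1) ≤ 1 / 2 := by
      have := Real.add_one_le_exp 1
      rw [Real.exp_neg, inv_eq_one_div]
      exact one_div_le_one_div_of_le (by norm_num) (by linarith)
    rcases (Q.filter fun e => ({e.1, e.2} : Finset V) ⊆ X ∧ Disjoint X (R e)).eq_empty_or_nonempty
      with h0 | ⟨e, he⟩
    · rw [h0]
      split_ifs <;> simp
    · obtain ⟨heQ, hX, hD⟩ := mem_filter.1 he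
      obtain ⟨-, n1, n2, -, -, ne, na⟩ := h.pr z e (hQ heQ)
      have key : ∀ x ∈ X, x ∈ N z ∪ N e.1 ∪ N e.2 → x = e.1 ∨ x = e.2 := fun x hx hx' => by
        by_contra hc
        exact disjoint_left.1 hD hx (mem_sdiff.2 ⟨hx', by simpa using hc⟩)
      have hw : win N S Q X := by
        refine ⟨e, heQ, hX (by simp), hX (by simp), disjoint_left.2 fun x hx hx' => ?_,
          disjoint_left.2 fun x hx hx' => ?_⟩
        · have hx1 := (mem_inter.1 hx).1
          rcases key x hx' (by simp [hx1]) with rfl | rfl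
          exacts [h.irr _ hx1, na hx1]
        · have hx1 := (mem_inter.1 hx).1
          rcases key x hx' (by simp [hx1]) with rfl | rfl
          exacts [na (h.symm _ _ hx1), h.irr _ hx1]
      have hc : (Q.filter fun e => ({e.1, e.2} : Finset V) ⊆ X ∧ Disjoint X (R e)) ⊆
          {e, e.swap} := by
        intro f hf
        obtain ⟨hfQ, hfX, -⟩ := mem_filter.1 hf
        obtain ⟨-, m1, m2, -, -, nf, -⟩ := h.pr z f (hQ hfQ)
        have a1 := key f.1 (hfX (by simp)) (by simp [m1])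
        have a2 := key f.2 (hfX (by simp)) (by simp [m2])
        rw [mem_insert, mem_singleton, Prod.ext_iff, Prod.ext_iff]
        rcases a1 with a1 | a1 <;> rcases a2 with a2 | a2
        · exact absurd (a1.trans a2.symm) nf
        · exact Or.inl ⟨a1, a2⟩
        · exact Or.inr ⟨a1, a2⟩
        · exact absurd (a1.trans a2.symm) nf
      have hc2 : (((Q.filter fun e => ({e.1, e.2} : Finset V) ⊆ X ∧ Disjoint X (R e)).card : ℕ) :
          ℝ) ≤ 2 := by exact_mod_cast (card_le_card hc).trans card_le_two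
      rw [if_pos hw]
      linarith
  refine (Ex_mono p0 p1 S h1).trans ?_
  rw [Ex_lin, Ex_const, Ex_sum]
  have h2 : ∀ e ∈ Q, p ^ 2 * (1 - p) ^ (3 * Δ) ≤
      Ex p S fun X => if ({e.1, e.2} : Finset V) ⊆ X ∧ Disjoint X (R e) then (1 : ℝ) else 0 := by
    intro e he
    obtain ⟨hz, -, -, s1, s2, ne, -⟩ := h.pr z e (hQ he)
    have := Ex_event p0 p1 S {e.1, e.2} (R e) (by simp [insert_subset_iff, s1, s2])
      disjoint_sdiff (3 * Δ) (by
        have : S ∩ R e ⊆ (N z ∩ S) ∪ (N e.1 ∩ S) ∪ (N e.2 ∩ S) := by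
          intro x hx
          obtain ⟨hx1, hx2⟩ := mem_inter.1 hx
          have := (mem_sdiff.1 hx2).1
          simp only [mem_union, mem_inter] at this ⊢
          tauto
        have a1 := card_le_card this
        have a2 := card_union_le (N z ∩ S ∪ N e.1 ∩ S) (N e.2 ∩ S)
        have a3 := card_union_le (N z ∩ S) (N e.1 ∩ S)
        have := h.deg z hz
        have := h.deg _ s1
        have := h.deg _ s2
        omega)
    rwa [card_pair ne] at this
  have h3 := card_nsmul_le_sum Q _ _ h2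
  rw [nsmul_eq_mul] at h3
  have h4 := Real.add_one_le_exp (-(p ^ 2 * (1 - p) ^ (3 * Δ) / 4 * Q.card))
  linarith

theorem Inp.prod_Ex (h : Inp N S Δ P b) {p : ℝ} (p0 : 0 ≤ p) (p1 : p ≤ 1) (v : V)
    (used : Finset V) :
    Ex p S (fun X => Real.exp (∑ x ∈ X, if x ∉ used then b v x else 0)) ≤
      Real.exp (2 * p * ∑ x ∈ S, b v x) := by
  have h1 := Ex_prod p S (fun x => Real.exp (if x ∉ used then b v x else 0)) fun _ => 1
  simp only [prod_const_one, mul_one] at h1
  simp only [Real.exp_sum]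
  rw [h1, mul_sum, Real.exp_sum]
  refine prod_le_prod (fun x _ => ?_) fun x _ => ?_
  · have := Real.exp_pos (if x ∉ used then b v x else 0)
    nlinarith
  · have a0 := h.b0 v x
    have a1 : Real.exp (if x ∉ used then b v x else 0) ≤ Real.exp (b v x) :=
      Real.exp_le_exp.2 (by split_ifs; exacts [a0, le_rfl])
    have a2 := Real.abs_exp_sub_one_le (x := b v x) (by rw [abs_of_nonneg a0]; exact h.b1 v x)
    rw [abs_of_nonneg a0] at a2
    have a3 := le_abs_self (Real.exp (b v x) - 1)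
    have a4 := Real.add_one_le_exp (2 * p * b v x)
    nlinarith

/-- the potential after `c` colours -/
noncomputable def pot (S : Finset V) (Δ : ℕ) (P : V → Finset (V × V)) (b : V → V → ℝ)
    (free : V → Finset ℕ) (p T : ℝ) (c : ℕ) (used : Finset V) (Cs : V → Finset ℕ) (v : V) : ℝ :=
  Real.exp (p ^ 2 * (1 - p) ^ (3 * Δ) / 4 * (∑ j ∈ range c, ((fresh P free used v j).card : ℝ)) -
    (Cs v).card - T) + Real.exp (∑ u ∈ used, b v u - c * (2 * p * ∑ x ∈ S, b v x) - T)

theorem Inp.rounds (h : Inp N S Δ P b) (free : V → Finset ℕ) {p T : ℝ} (p0 : 0 ≤ p) (p1 : p ≤ 1)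
    (hΔ : 1 ≤ Δ) (hT : 8 * ((Δ + Δ * Δ) * (Δ + Δ * Δ) : ℕ) ≤ Real.exp T) (c : ℕ) :
    ∃ (used K : Finset V) (col : V → ℕ) (Cs : V → Finset ℕ), K ⊆ used ∧ K ⊆ S ∧
      (∀ u ∈ K, col u < c ∧ col u ∈ free u) ∧ (∀ u ∈ K, ∀ w ∈ K, w ∈ N u → col u ≠ col w) ∧
      (∀ z, ∀ j ∈ Cs z, ∃ u ∈ K, ∃ w ∈ K, u ≠ w ∧ u ∈ N z ∧ w ∈ N z ∧ col u = j ∧ col w = j) ∧
      Safe (dep N S) (pot S Δ P b free p T c used Cs) := by
  classical
  have hs : ∀ v w, dep N S v w → dep N S w v := fun _ _ ⟨x, h1, h2⟩ => ⟨x, h2, h1⟩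
  induction c with
  | zero =>
    refine ⟨∅, ∅, fun _ => 0, fun _ => ∅, by simp, by simp, by simp, by simp, by simp, ?_⟩
    have h1 : (1 : ℝ) ≤ ((Δ + Δ * Δ) * (Δ + Δ * Δ) : ℕ) := by
      exact_mod_cast Nat.one_le_iff_ne_zero.2 (by positivity)
    refine Safe.init hs _ h1 (fun a => by exact_mod_cast h.dep_card a) fun a => ?_
    simp only [pot, range_zero, sum_empty, mul_zero, card_empty, Nat.cast_zero, zero_mul,
      sub_zero, zero_sub, Real.exp_neg]
    have := Real.exp_pos T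
    rw [← two_mul, ← div_eq_mul_inv, div_le_div_iff₀ this (by positivity)]
    linarith
  | succ c ih =>
    obtain ⟨used, K, col, Cs, hKu, hKS, hcol, hpr, hCs, hsafe⟩ := ih
    set q := p ^ 2 * (1 - p) ^ (3 * Δ) / 4 with hq
    have q0 : 0 ≤ q := by
      have : 0 ≤ 1 - p := by linarith
      positivity
    have hQ : ∀ v, fresh P free used v c ⊆ P v := fun v => filter_subset _ _
    obtain ⟨X, hXS, hX⟩ := coins hs (sup N S) (fun a b x h1 h2 => ⟨x, h1, h2⟩) p0 p1 S
      (fun v X => Real.exp (q * (∑ j ∈ range (c + 1), ((fresh P free used v j).card : ℝ)) -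
        (Cs v).card - T) * (if win N S (fresh P free used v c) X then Real.exp (-1) else 1) +
        Real.exp (∑ u ∈ used, b v u - (c + 1) * (2 * p * ∑ x ∈ S, b v x) - T) *
          Real.exp (∑ x ∈ X, if x ∉ used then b v x else 0))
      (fun v X => by split_ifs <;> positivity)
      (fun v X x hx => by
        have e1 : ∑ y ∈ insert x X, (if y ∉ used then b v y else 0) =
            ∑ y ∈ X, if y ∉ used then b v y else 0 := by
          refine sum_insert_of_eq_zero_if_notMem fun _ => ?_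
          have : b v x = 0 := by
            by_contra hc
            obtain ⟨a1, a2, a3⟩ := h.bs v x hc
            exact hx (mem_filter.2 ⟨a2, a1, Or.inl a3⟩)
          simp [this]
        simp only [h.win_insert hx (hQ v), e1])
      (hsafe.mono fun v => by
        rw [Ex_lin]
        refine add_le_add ?_ ?_
        · refine (mul_le_mul_of_nonneg_left (h.win_Ex p0 p1 (hQ v)) (Real.exp_pos _).le).trans ?_
          rw [← Real.exp_add, sum_range_succ]
          exact Real.exp_le_exp.2 (le_of_eq (by ring))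
        · refine (mul_le_mul_of_nonneg_left (h.prod_Ex p0 p1 v used) (Real.exp_pos _).le).trans ?_
          rw [← Real.exp_add]
          exact Real.exp_le_exp.2 (le_of_eq (by ring)))
    set L := X.filter fun x => x ∉ used ∧ c ∈ free x ∧ Disjoint (N x ∩ S) X with hL
    have hKL : ∀ u ∈ K, u ∉ L := fun u hu hl => (mem_filter.1 hl).2.1 (hKu hu)
    have hcC : ∀ z, c ∉ Cs z := fun z hc => by
      obtain ⟨u, hu, -, -, -, -, -, e, -⟩ := hCs z c hc
      exact (hcol u hu).1.ne e
    refine ⟨used ∪ X, K ∪ L, fun u => if u ∈ L then c else col u,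
      fun z => if win N S (fresh P free used z c) X then insert c (Cs z) else Cs z,
      union_subset_union hKu (filter_subset _ _),
      union_subset hKS ((filter_subset _ _).trans hXS), fun u hu => ?_, fun u hu w hw hn => ?_,
      fun z j hj => ?_, hX.mono fun v => ?_⟩
    · by_cases hl : u ∈ L
      · simp only [if_pos hl]
        exact ⟨Nat.lt_succ_self c, (mem_filter.1 hl).2.2.1⟩
      · simp only [if_neg hl]
        have := hcol u ((mem_union.1 hu).resolve_right hl)
        exact ⟨by omega, this.2⟩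
    · by_cases hl : u ∈ L <;> by_cases hl' : w ∈ L
      · have a1 := (mem_filter.1 hl').1
        exact absurd a1 (disjoint_left.1 (mem_filter.1 hl).2.2.2 (mem_inter.2 ⟨hn, hXS a1⟩))
      · simp only [if_pos hl, if_neg hl']
        exact (hcol w ((mem_union.1 hw).resolve_right hl')).1.ne'
      · simp only [if_pos hl', if_neg hl]
        exact (hcol u ((mem_union.1 hu).resolve_right hl)).1.ne
      · simp only [if_neg hl', if_neg hl]
        exact hpr u ((mem_union.1 hu).resolve_right hl) w ((mem_union.1 hw).resolve_right hl') hn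
    · have old : j ∈ Cs z → ∃ u ∈ K ∪ L, ∃ w ∈ K ∪ L, u ≠ w ∧ u ∈ N z ∧ w ∈ N z ∧
          (if u ∈ L then c else col u) = j ∧ (if w ∈ L then c else col w) = j := fun hj => by
        obtain ⟨u, hu, w, hw, a1, a2, a3, a4, a5⟩ := hCs z j hj
        exact ⟨u, mem_union_left _ hu, w, mem_union_left _ hw, a1, a2, a3,
          by rw [if_neg (hKL u hu), a4], by rw [if_neg (hKL w hw), a5]⟩
      beta_reduce at hj
      split_ifs at hj with hw
      · rcases mem_insert.1 hj with rfl | hj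
        · obtain ⟨e, he, x1, x2, d1, d2⟩ := hw
          obtain ⟨he, u1, u2, f1, f2⟩ := mem_filter.1 he
          obtain ⟨-, n1, n2, -, -, ne, -⟩ := h.pr z e he
          have l1 : e.1 ∈ L := mem_filter.2 ⟨x1, u1, f1, d1⟩
          have l2 : e.2 ∈ L := mem_filter.2 ⟨x2, u2, f2, d2⟩
          exact ⟨e.1, mem_union_right _ l1, e.2, mem_union_right _ l2, ne, n1, n2, if_pos l1,
            if_pos l2⟩
        · exact old hj
      · exact old hj
    · refine add_le_add ?_ ?_
      · have a1 : ∑ j ∈ range (c + 1), ((fresh P free (used ∪ X) v j).card : ℝ) ≤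
            ∑ j ∈ range (c + 1), ((fresh P free used v j).card : ℝ) := by
          refine sum_le_sum fun j _ => Nat.cast_le.2 (card_le_card fun e he => ?_)
          obtain ⟨he, u1, u2, f⟩ := mem_filter.1 he
          exact mem_filter.2 ⟨he, fun hc => u1 (mem_union_left _ hc),
            fun hc => u2 (mem_union_left _ hc), f⟩
        have a2 := mul_le_mul_of_nonneg_left a1 q0
        beta_reduce
        rw [← hq]
        split_ifs with hw
        · rw [← Real.exp_add, card_insert_of_notMem (hcC v)]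
          refine Real.exp_le_exp.2 ?_
          push_cast
          linarith
        · rw [mul_one]
          exact Real.exp_le_exp.2 (by linarith)
      · rw [← Real.exp_add, ← sum_filter, ← sdiff_eq_filter, ← union_sdiff_self_eq_union,
          sum_union disjoint_sdiff]
        refine Real.exp_le_exp.2 (le_of_eq ?_)
        push_cast
        ring

end Pool.Agent.P.MP_c25521_co.Eps
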