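import Mathlib

/-!
Edge counts, the cut potential and greedy completion.
-/

namespace Pool.Agent.P.MP_c25521_co.Eps

open Finset

variable {V : Type} [DecidableEq V]

/-- number of edges from `X` to `Y` -/
def ee (N : V → Finset V) (X Y : Finset V) : ℝ := ∑ u ∈ X, ((N u ∩ Y).card : ℝ)

/-- proper colouring of `X` with `k` colours -/
def PC (N : V → Finset V) (k : ℕ) (X : Finset V) (f : V → ℕ) : Prop :=
  (∀ u ∈ X, f u < k) ∧ ∀ u ∈ X, ∀ w ∈ X, w ∈ N u → f u ≠ f w

variable {N : V → Finset V}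

theorem ee_comm (hs : ∀ u w, w ∈ N u → u ∈ N w) (X Y : Finset V) : ee N X Y = ee N Y X := by
  have : ∀ X Y : Finset V, ee N X Y = ∑ u ∈ X, ∑ w ∈ Y, if w ∈ N u then (1 : ℝ) else 0 := by
    intro X Y
    refine sum_congr rfl fun u _ => ?_
    rw [sum_boole, filter_mem_eq_inter, inter_comm]
  rw [this, this, sum_comm]
  exact sum_congr rfl fun u _ => sum_congr rfl fun w _ => by
    simp only [show u ∈ N w ↔ w ∈ N u from ⟨hs _ _, hs _ _⟩]

theorem ee_mono {X X' : Finset V} (h : X ⊆ X') (Y : Finset V) : ee N X Y ≤ ee N X' Y :=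
  sum_le_sum_of_subset_of_nonneg h fun _ _ _ => Nat.cast_nonneg _

theorem ee_ind (hs : ∀ u w, w ∈ N u → u ∈ N w) {m : ℕ}
    (hd : ∀ S : Finset V, S.Nonempty → ∃ v ∈ S, (N v ∩ S).card ≤ m) (n0 : ℕ) (B : ℝ)
    (h0 : ∀ X : Finset V, X.card = n0 → ee N X X + B ≤ 2 * m * n0) (X : Finset V)
    (hX : n0 ≤ X.card) : ee N X X + B ≤ 2 * m * X.card := by
  obtain ⟨n, hn⟩ : ∃ n, X.card = n := ⟨_, rfl⟩
  rw [hn] at hX ⊢
  induction n, hX using Nat.le_induction generalizing X with
  | base => exact h0 X hn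
  | succ n _ ih =>
    obtain ⟨v, hv, hm⟩ := hd X (card_pos.1 (by omega))
    have a1 := ih (X.erase v) (by rw [card_erase_of_mem hv, hn]; rfl)
    have a2 : ((N v ∩ X).card : ℝ) + ee N (X.erase v) X = ee N X X :=
      add_sum_erase X (fun u => ((N u ∩ X).card : ℝ)) hv
    have a3 : ((N v ∩ X.erase v).card : ℝ) + ee N (X.erase v) (X.erase v) = ee N X (X.erase v) :=
      add_sum_erase X (fun u => ((N u ∩ X.erase v).card : ℝ)) hv
    have a4 : ((N v ∩ X.erase v).card : ℝ) ≤ m := by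
      exact_mod_cast (card_le_card (inter_subset_inter_left (erase_subset _ _))).trans hm
    have a5 : ((N v ∩ X).card : ℝ) ≤ m := by exact_mod_cast hm
    rw [ee_comm hs X] at a3
    push_cast
    linarith

theorem ee_le (hi : ∀ u, u ∉ N u) (X : Finset V) : ee N X X + X.card ≤ X.card * X.card := by
  have : ∀ u ∈ X, ((N u ∩ X).card : ℝ) + 1 ≤ X.card := fun u hu => by
    have : (insert u (N u ∩ X)).card ≤ X.card :=
      card_le_card (insert_subset hu inter_subset_right)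
    rw [card_insert_of_notMem fun h => hi u (mem_inter.1 h).1] at this
    exact_mod_cast this
  have h := sum_le_card_nsmul X _ _ this
  rw [sum_add_distrib] at h
  simpa [ee] using h

theorem order_of_free (S R : Finset V) (t : V → ℝ)
    (h : ∀ D ⊆ R, D.Nonempty → ∃ u ∈ D, t u ≤ (N u ∩ (S \ D)).card) :
    ∃ T : V → Finset V, (∀ u ∈ R, T u ⊆ N u ∩ S ∧ t u ≤ (T u).card) ∧
      ∀ D ⊆ R, D.Nonempty → ∃ v ∈ D, Disjoint (T v) D := by
  induction R using Finset.strongInduction with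
  | H R ih =>
    rcases R.eq_empty_or_nonempty with rfl | hne
    · exact ⟨fun _ => ∅, by simp, fun D hD hD' => absurd (subset_empty.1 hD) hD'.ne_empty⟩
    obtain ⟨u, hu, ht⟩ := h R (Subset.refl _) hne
    obtain ⟨T, h1, h2⟩ := ih (R.erase u) (erase_ssubset hu)
      fun D hD => h D (hD.trans (erase_subset _ _))
    refine ⟨Function.update T u (N u ∩ (S \ R)), fun w hw => ?_, fun D hD hD' => ?_⟩
    · by_cases e : w = u
      · rw [e, Function.update_self]
        exact ⟨inter_subset_inter_left sdiff_subset, ht⟩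
      · rw [Function.update_of_ne e]
        exact h1 w (mem_erase.2 ⟨e, hw⟩)
    · by_cases e : u ∈ D
      · refine ⟨u, e, ?_⟩
        rw [Function.update_self]
        exact disjoint_left.2 fun x hx hx' => (mem_sdiff.1 (mem_inter.1 hx).2).2 (hD hx')
      · obtain ⟨v, hv, hd⟩ := h2 D (subset_erase.2 ⟨hD, e⟩) hD'
        exact ⟨v, hv, by rwa [Function.update_of_ne (ne_of_mem_of_not_mem hv e)]⟩

/-- the cut potential -/
theorem cut (hs : ∀ u w, w ∈ N u → u ∈ N w) (W : Finset V) (hW : W.Nonempty) (k : ℕ) (g t h : ℝ)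
    (hg : 0 ≤ g) (hh : h = 3 * g + 1 + t) (hk : 3 * g + 1 ≤ k)
    (hlo : ∀ u ∈ W, (k : ℝ) ≤ (N u ∩ W).card) (hav : ee N W W ≤ (k + g) * W.card) :
    ∃ O A Z : Finset V, ∃ T : V → Finset V, O ⊂ W ∧ A ⊆ W \ O ∧ Z ⊆ W \ O ∧
      (∀ u ∈ W \ O, (N u ∩ W).card ≤ 2 * k) ∧ (∀ a ∈ A, 4 * (N a ∩ O).card ≤ k) ∧
      (∀ z ∈ Z, ((N z ∩ W).card : ℝ) ≤ k + h ∧ ((N z ∩ W).card : ℝ) ≤ (N z ∩ A).card + 12 * h) ∧
      (∀ u ∈ (W \ O) \ Z, T u ⊆ N u ∩ (W \ O) ∧
        2 * (((N u ∩ W).card : ℝ) - k) + t ≤ (T u).card) ∧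
      ∀ D ⊆ (W \ O) \ Z, D.Nonempty → ∃ v ∈ D, Disjoint (T v) D := by
  classical
  set x : V → ℝ := fun u => ((N u ∩ W).card : ℝ) - k with hx
  set Φ : Finset V → ℝ := fun O => ee N O (W \ O) + ∑ u ∈ O, (3 * g + 1 - 3 * x u) with hΦ
  set H := W.filter fun u => 2 * k < (N u ∩ W).card with hH
  obtain ⟨O, hO, hmin⟩ := exists_min_image (W.powerset.filter fun O => H ⊆ O) Φ
    ⟨W, mem_filter.2 ⟨mem_powerset.2 (Subset.refl _), filter_subset _ _⟩⟩
  obtain ⟨hOW, hHO⟩ := mem_filter.1 hO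
  replace hOW := mem_powerset.1 hOW
  have hup : ∀ u ∈ W \ O, (N u ∩ W).card ≤ 2 * k := fun u hu => by
    by_contra hc
    exact (mem_sdiff.1 hu).2 (hHO (mem_filter.2 ⟨(mem_sdiff.1 hu).1, by omega⟩))
  have hne : O ≠ W := by
    rintro rfl
    have a1 := hmin H (mem_filter.2 ⟨mem_powerset.2 (filter_subset _ _), Subset.refl _⟩)
    have a2 : Φ H ≤ 0 := by
      simp only [hΦ, ee, ← sum_add_distrib]
      refine sum_nonpos fun u hu => ?_
      have b1 : ((N u ∩ (O \ H)).card : ℝ) ≤ (N u ∩ O).card := by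
        exact_mod_cast card_le_card (inter_subset_inter_left sdiff_subset)
      have b2 : (2 * k : ℝ) < (N u ∩ O).card := by exact_mod_cast (mem_filter.1 hu).2
      simp only [hx]
      linarith
    have a3 : (0 : ℝ) < O.card := by exact_mod_cast hW.card_pos
    have a4 : Φ O = O.card * (3 * g + 1 + 3 * k) - 3 * ee N O O := by
      simp only [hΦ, hx, ee, sdiff_self, bot_eq_empty, inter_empty, card_empty, Nat.cast_zero,
        sum_const_zero, zero_add, mul_sum, ← nsmul_eq_mul, ← sum_const, ← sum_sub_distrib]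
      exact sum_congr rfl fun _ _ => by ring
    nlinarith
  set A := (W \ O).filter fun a => 4 * (N a ∩ O).card ≤ k with hA
  set Z := (W \ O).filter fun z => ((N z ∩ W).card : ℝ) ≤ k + h ∧
    ((N z ∩ W).card : ℝ) ≤ (N z ∩ A).card + 12 * h with hZ
  obtain ⟨T, hT1, hT2⟩ := order_of_free (N := N) (W \ O) ((W \ O) \ Z) (fun u => 2 * x u + t) (by
    intro D hD hDne
    by_contra hc
    push Not at hc
    have hDS : D ⊆ W \ O := hD.trans sdiff_subset
    have hOD : Disjoint O D := disjoint_left.2 fun u hu hu' => (mem_sdiff.1 (hDS hu')).2 hu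
    have a1 := hmin (O ∪ D) (mem_filter.2 ⟨mem_powerset.2 (union_subset hOW
      (hDS.trans sdiff_subset)), hHO.trans subset_union_left⟩)
    have e1 : W \ (O ∪ D) = (W \ O) \ D := by rw [sdiff_sdiff]; rfl
    have a2 : ee N (O ∪ D) ((W \ O) \ D) = ee N O ((W \ O) \ D) + ee N D ((W \ O) \ D) :=
      sum_union hOD
    have a3 : ee N ((W \ O) \ D) O + ee N D O = ee N (W \ O) O := sum_sdiff hDS
    rw [ee_comm hs (W \ O), ee_comm hs ((W \ O) \ D)] at a3
    simp only [hΦ, e1, a2, sum_union hOD] at a1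
    set D2 := D.filter fun u => x u ≤ h with hD2
    have a4 : ee N D ((W \ O) \ D) + ∑ u ∈ D, (3 * g + 1 - 3 * x u) < h * D2.card := by
      rw [ee, ← sum_add_distrib, hD2, card_filter, Nat.cast_sum, mul_sum]
      refine sum_lt_sum_of_nonempty hDne fun u hu => ?_
      have b1 := hc u hu
      have b2 := hlo u (mem_sdiff.1 (hDS hu)).1
      simp only [hx] at b1 ⊢
      split_ifs with b3 <;> push_cast <;> linarith
    have a5 : ∑ _u ∈ D2, 9 * h ≤ ee N D2 O + ee N D2 (D \ A) := by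
      rw [ee, ee, ← sum_add_distrib]
      refine sum_le_sum fun u hu => ?_
      obtain ⟨hu, b0⟩ := mem_filter.1 hu
      have b1 := hc u hu
      have b2 : ¬ (_ ∧ _) := fun b => (mem_sdiff.1 (hD hu)).2 (mem_filter.2 ⟨hDS hu, b⟩)
      have b3 : N u ∩ W ⊆ N u ∩ A ∪ (N u ∩ O ∪ (N u ∩ (D \ A) ∪ N u ∩ ((W \ O) \ D))) := by
        intro y hy
        simp only [mem_union, mem_inter, mem_sdiff] at hy ⊢
        tauto
      have b4 : ((N u ∩ W).card : ℝ) ≤ (N u ∩ A).card + ((N u ∩ O).card +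
          ((N u ∩ (D \ A)).card + (N u ∩ ((W \ O) \ D)).card)) := by
        exact_mod_cast (card_le_card b3).trans ((card_union_le _ _).trans (Nat.add_le_add_left
          ((card_union_le _ _).trans (Nat.add_le_add_left (card_union_le _ _) _)) _))
      simp only [hx] at b0 b1
      rw [not_and, not_le] at b2
      have := b2 (by linarith)
      linarith
    have a6 : ee N (D \ A) D2 ≤ 8 * ee N (D \ A) O := by
      rw [ee, ee, mul_sum]
      refine sum_le_sum fun u hu => ?_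
      obtain ⟨b1, b2⟩ := mem_sdiff.1 hu
      have b3 : ¬ 4 * (N u ∩ O).card ≤ k := fun b => b2 (mem_filter.2 ⟨hDS b1, b⟩)
      have b4 := hup u (hDS b1)
      have b5 : (N u ∩ D2).card ≤ (N u ∩ W).card := card_le_card (inter_subset_inter_left
        ((filter_subset _ _).trans (hDS.trans sdiff_subset)))
      exact_mod_cast (by omega : (N u ∩ D2).card ≤ 8 * (N u ∩ O).card)
    have a7 : ee N (D \ A) O ≤ ee N D O := ee_mono sdiff_subset O
    have a8 : ee N D2 O ≤ ee N D O := ee_mono (filter_subset _ _) O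
    rw [ee_comm hs D2 (D \ A), sum_const, nsmul_eq_mul] at a5
    linarith)
  exact ⟨O, A, Z, T, Finset.ssubset_iff_subset_ne.2 ⟨hOW, hne⟩, filter_subset _ _, filter_subset _ _,
    hup, fun a ha => (mem_filter.1 ha).2, fun z hz => (mem_filter.1 hz).2, hT1, hT2⟩

theorem greedy (hs : ∀ u w, w ∈ N u → u ∈ N w) (hi : ∀ u, u ∉ N u) {k : ℕ} {B : Finset V}
    {col : V → ℕ} (hB : PC N k B col) (R : Finset V) (hR : Disjoint R B)
    (h : ∀ D ⊆ R, D.Nonempty → ∃ v ∈ D, ∀ f : V → ℕ, (∀ u ∈ B, f u = col u) →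
      ((N v ∩ (B ∪ D)).image f).card < k) :
    ∃ f, PC N k (B ∪ R) f ∧ ∀ u ∈ B, f u = col u := by
  induction R using Finset.strongInduction with
  | H R ih =>
    rcases R.eq_empty_or_nonempty with rfl | hne
    · exact ⟨col, by simpa using hB, fun _ _ => rfl⟩
    obtain ⟨v, hv, hc⟩ := h R (Subset.refl _) hne
    obtain ⟨f, ⟨f1, f2⟩, f3⟩ := ih (R.erase v) (erase_ssubset hv)
      (hR.mono_left (erase_subset _ _)) fun D hD => h D (hD.trans (erase_subset _ _))
    obtain ⟨c, c1, c2⟩ := exists_mem_notMem_of_card_lt_card (t := range k)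
      (s := (N v ∩ (B ∪ R)).image f) (by rw [card_range]; exact hc f f3)
    have m : ∀ u ∈ B ∪ R, u ≠ v → u ∈ B ∪ R.erase v := fun u hu e => by
      simp only [mem_union, mem_erase] at hu ⊢
      tauto
    have key : ∀ w ∈ B ∪ R, w ∈ N v → c ≠ f w := fun w hw hn e =>
      c2 (mem_image.2 ⟨w, mem_inter.2 ⟨hn, hw⟩, e.symm⟩)
    refine ⟨Function.update f v c, ⟨fun u hu => ?_, fun u hu w hw hn => ?_⟩, fun u hu => ?_⟩
    · by_cases e : u = v
      · rw [e, Function.update_self]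
        exact mem_range.1 c1
      · rw [Function.update_of_ne e]
        exact f1 u (m u hu e)
    · by_cases e : u = v <;> by_cases e' : w = v
      · exact absurd (by rwa [e, e'] at hn) (hi v)
      · rw [e, Function.update_self, Function.update_of_ne e']
        exact key w hw (e ▸ hn)
      · rw [e', Function.update_self, Function.update_of_ne e]
        exact (key u hu (e' ▸ hs _ _ hn)).symm
      · rw [Function.update_of_ne e, Function.update_of_ne e']
        exact f2 u (m u hu e) w (m w hw e') hn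
    · rw [Function.update_of_ne (ne_of_mem_of_not_mem hu (disjoint_left.1 hR hv)), f3 u hu]

omit [DecidableEq V] in
theorem image_card (Y : Finset V) (f : V → ℕ) (C : Finset ℕ)
    (h : ∀ j ∈ C, ∃ u ∈ Y, ∃ w ∈ Y, u ≠ w ∧ f u = j ∧ f w = j) :
    (Y.image f).card + C.card ≤ Y.card := by
  have hC : C ⊆ Y.image f := fun j hj => by
    obtain ⟨u, hu, -, -, -, e, -⟩ := h j hj
    exact mem_image.2 ⟨u, hu, e⟩
  have e : C.card = ∑ j ∈ Y.image f, if j ∈ C then 1 else 0 := by
    rw [← card_filter, filter_mem_eq_inter, inter_eq_right.2 hC]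
  rw [card_eq_sum_card_image f Y, e, card_eq_sum_ones (Y.image f), ← sum_add_distrib]
  refine sum_le_sum fun j hj => ?_
  split_ifs with hc
  · obtain ⟨u, hu, w, hw, ne, e1, e2⟩ := h j hc
    exact one_lt_card.2 ⟨u, mem_filter.2 ⟨hu, e1⟩, w, mem_filter.2 ⟨hw, e2⟩, ne⟩
  · obtain ⟨u, hu, e1⟩ := mem_image.1 hj
    exact card_pos.2 ⟨u, mem_filter.2 ⟨hu, e1⟩⟩

end Pool.Agent.P.MP_c25521_co.Eps
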