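import Mathlib
import Pool.Agent.P.MP_c25521_co.Eps2
import Pool.Agent.P.MP_c25521_co.Eps3

/-!
Assembly: a colouring with `2 M - g` colours.
-/

namespace Pool.Agent.P.MP_c25521_co.Eps

open Finset Pool.Agent.P.MP_fb43a4_co.Asy

set_option linter.unusedSectionVars false

variable {V : Type} [Fintype V] [DecidableEq V] {N : V → Finset V}

/-- number of pairs through a point -/
def thr (P : Finset (V × V)) (u : V) : ℝ :=
  ((P.filter fun e => e.1 = u).card : ℝ) + (P.filter fun e => e.2 = u).card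

/-- ordered non-adjacent pairs -/
def nap (N : V → Finset V) (X : Finset V) : Finset (V × V) :=
  (X ×ˢ X).filter fun e => e.1 ≠ e.2 ∧ e.2 ∉ N e.1

theorem sum_thr (P : Finset (V × V)) (Y : Finset V) : ∑ u ∈ Y, thr P u =
    ((P.filter fun e => e.1 ∈ Y).card : ℝ) + (P.filter fun e => e.2 ∈ Y).card := by
  rw [← sum_card_fiberwise_eq_card_filter P Y Prod.fst,
    ← sum_card_fiberwise_eq_card_filter P Y Prod.snd]
  push_cast
  exact sum_add_distrib

theorem thr_nap (X : Finset V) (u : V) : thr (nap N X) u ≤ 2 * X.card := by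
  have a1 : ((nap N X).filter fun e => e.1 = u).card ≤ X.card :=
    card_le_card_of_injOn Prod.snd
      (fun e he => (mem_product.1 (mem_filter.1 (mem_filter.1 he).1).1).2)
      fun e he f hf h => Prod.ext ((mem_filter.1 he).2.trans (mem_filter.1 hf).2.symm) h
  have a2 : ((nap N X).filter fun e => e.2 = u).card ≤ X.card :=
    card_le_card_of_injOn Prod.fst
      (fun e he => (mem_product.1 (mem_filter.1 (mem_filter.1 he).1).1).1)
      fun e he f hf h => Prod.ext h ((mem_filter.1 he).2.trans (mem_filter.1 hf).2.symm)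
  rw [thr, two_mul]
  exact add_le_add (by exact_mod_cast a1) (by exact_mod_cast a2)

theorem card_nap (X : Finset V) :
    (X.card : ℝ) * X.card ≤ (nap N X).card + ee N X X + X.card := by
  have a1 : ((nap N X).card : ℝ) = ∑ u ∈ X, ((X.filter fun w => u ≠ w ∧ w ∉ N u).card : ℝ) := by
    rw [nap, card_filter, sum_product]
    push_cast
    exact sum_congr rfl fun u _ => by rw [card_filter]; push_cast; rfl
  have a2 : ∀ u ∈ X, (X.card : ℝ) ≤
      (X.filter fun w => u ≠ w ∧ w ∉ N u).card + (N u ∩ X).card + 1 := fun u _ => by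
    have : X ⊆ insert u ((X.filter fun w => u ≠ w ∧ w ∉ N u) ∪ N u ∩ X) := fun w hw => by
      simp only [mem_insert, mem_union, mem_filter, mem_inter, ne_eq, eq_comm (a := u)]
      tauto
    exact_mod_cast (card_le_card this).trans ((card_insert_le _ _).trans
      (Nat.add_le_add_right (card_union_le _ _) _))
  have a3 := card_nsmul_le_sum X _ _ a2
  rw [sum_add_distrib, sum_add_distrib, ← a1] at a3
  simpa [ee] using a3

theorem sum_fresh (P : V → Finset (V × V)) (free : V → Finset ℕ) (used : Finset V) (z : V)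
    (k : ℕ) (h : ∀ e ∈ P z, (k : ℝ) / 2 ≤ ((range k).filter
      fun j => j ∈ free e.1 ∧ j ∈ free e.2).card) :
    ((P z).card - ∑ u ∈ used, thr (P z) u) * (k / 2) ≤
      ∑ j ∈ range k, ((fresh P free used z j).card : ℝ) := by
  set G := (P z).filter fun e => e.1 ∉ used ∧ e.2 ∉ used with hG
  have a1 : ((P z).card : ℝ) - ∑ u ∈ used, thr (P z) u ≤ G.card := by
    have : P z ⊆ G ∪ (((P z).filter fun e => e.1 ∈ used) ∪ (P z).filter fun e => e.2 ∈ used) :=
      fun e he => by
        simp only [hG, mem_union, mem_filter]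
        tauto
    have := (card_le_card this).trans ((card_union_le _ _).trans
      (Nat.add_le_add_left (card_union_le _ _) _))
    rw [sum_thr, sub_le_iff_le_add]
    exact_mod_cast this
  refine (mul_le_mul_of_nonneg_right a1 (by positivity)).trans ?_
  have a2 := card_nsmul_le_sum G _ _ fun e he => h e (mem_filter.1 he).1
  rw [nsmul_eq_mul] at a2
  refine a2.trans (le_of_eq ?_)
  simp only [card_filter, Nat.cast_sum]
  rw [sum_comm]
  refine sum_congr rfl fun j _ => ?_
  rw [← Nat.cast_sum, ← card_filter, hG, filter_filter, fresh]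
  simp only [and_assoc]

theorem reduce (hs : ∀ u w, w ∈ N u → u ∈ N w) (hi : ∀ u, u ∉ N u) (k : ℕ)
    (h : ∀ W : Finset V, W.Nonempty → (∀ u ∈ W, k ≤ (N u ∩ W).card) →
      (∀ O ⊂ W, ∃ f, PC N k O f) → ∃ f, PC N k W f) (W : Finset V) : ∃ f, PC N k W f := by
  induction W using Finset.strongInduction with
  | H W ih =>
  by_cases hlo : ∃ v ∈ W, (N v ∩ W).card < k
  · obtain ⟨v, hv, hc⟩ := hlo
    obtain ⟨f, hf⟩ := ih (W.erase v) (erase_ssubset hv)
    obtain ⟨f', hf', -⟩ := greedy hs hi hf {v} (by simp) fun D hD hne => by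
      rcases subset_singleton_iff.1 hD with rfl | rfl
      · exact absurd rfl hne.ne_empty
      · refine ⟨v, by simp, fun f _ => lt_of_le_of_lt (card_image_le.trans (card_le_card
          (inter_subset_inter_left (union_subset (erase_subset _ _) (by simpa using hv))))) hc⟩
    refine ⟨f', ?_⟩
    rwa [union_comm, ← insert_eq, insert_erase hv] at hf'
  push Not at hlo
  rcases W.eq_empty_or_nonempty with rfl | hW
  · exact ⟨fun _ => 0, by simp, by simp⟩
  exact h W hW hlo ih

theorem main (hs : ∀ u w, w ∈ N u → u ∈ N w) (hi : ∀ u, u ∉ N u) (M k g : ℕ) (Q T : ℝ)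
    (F1 : ∀ X : Finset V, ee N X X ≤ 2 * M * X.card)
    (F2 : ∀ X : Finset V, M ≤ X.card → ee N X X + Q ≤ 2 * M * X.card)
    (hk : k + g = 2 * M) (hM : 1 ≤ M) (hQ : Q ≤ M * M) (T0 : 0 ≤ T)
    (hT : 3200 * (M : ℝ) ^ 4 ≤ Real.exp T) (hnum : 16000 * M * (3 * g + 1 + 4 * T) ≤ Q)
    (W : Finset V) : ∃ f, PC N k W f := by
  classical
  have M1 : (1 : ℝ) ≤ M := by exact_mod_cast hM
  have g0 : (0 : ℝ) ≤ g := Nat.cast_nonneg _
  have hk' : (k : ℝ) + g = 2 * M := by exact_mod_cast hk
  set h : ℝ := 3 * g + 1 + 3 * T with hh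
  have n1 : 16000 * (h + T) ≤ M := by
    refine le_of_mul_le_mul_left ?_ (by linarith : (0 : ℝ) < M)
    rw [hh]
    linarith
  have kM : (M : ℝ) ≤ k := by linarith
  have k0 : (0 : ℝ) < k := by linarith
  have k1 : 1 ≤ k := by exact_mod_cast M1.trans kM
  refine reduce hs hi k (fun W hW hlo ih => ?_) W
  have hlo' : ∀ u ∈ W, (k : ℝ) ≤ (N u ∩ W).card := fun u hu => by exact_mod_cast hlo u hu
  obtain ⟨O, A, Z, Tt, hO, hA, hZ, hup, hA', hZ', hT1, hT2⟩ := cut hs W hW k g (3 * T) h g0 hh
    (by linarith) hlo' (by rw [hk']; exact F1 W)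
  obtain ⟨f0, hf0⟩ := ih O hO
  set S := W \ O with hS
  have hSW : S ⊆ W := sdiff_subset
  have hdeg : ∀ v ∈ S, ∀ Y ⊆ W, (N v ∩ Y).card ≤ 2 * k := fun v hv Y hY =>
    (card_le_card (inter_subset_inter_left hY)).trans (hup v hv)
  set P : V → Finset (V × V) := fun z => if z ∈ Z then nap N (N z ∩ A) else ∅ with hP
  set b : V → V → ℝ := fun v u =>
    if v ∈ Z then thr (P v) u / (4 * k) else if v ∈ S ∧ u ∈ Tt v then 1 else 0 with hb
  set free : V → Finset ℕ := fun u => range k \ (N u ∩ O).image f0 with hfree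
  have hPm : ∀ z, ∀ e ∈ P z, z ∈ Z ∧ e.1 ∈ N z ∩ A ∧ e.2 ∈ N z ∩ A ∧ e.1 ≠ e.2 ∧ e.2 ∉ N e.1 := by
    intro z e he
    by_cases hz : z ∈ Z
    · simp only [hP, if_pos hz] at he
      obtain ⟨h1, h2⟩ := mem_filter.1 he
      exact ⟨hz, (mem_product.1 h1).1, (mem_product.1 h1).2, h2⟩
    · simp [hP, hz] at he
  have inp : Inp N S (2 * k) P b := by
    refine ⟨hs, hi, fun v hv => hdeg v hv S hSW, fun z e he => ?_, fun v u => ?_, fun v u => ?_,
      fun v u hne => ?_⟩
    · obtain ⟨h0, h1, h2, h3, h4⟩ := hPm z e he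
      exact ⟨hZ h0, (mem_inter.1 h1).1, (mem_inter.1 h2).1, hA (mem_inter.1 h1).2,
        hA (mem_inter.1 h2).2, h3, h4⟩
    · simp only [hb, thr]
      split_ifs <;> positivity
    · simp only [hb]
      split_ifs with hv
      · have a1 := thr_nap (N := N) (N v ∩ A) u
        have a2 : ((N v ∩ A).card : ℝ) ≤ 2 * k := by
          exact_mod_cast hdeg v (hZ hv) A (hA.trans hSW)
        rw [div_le_one (by positivity)]
        simp only [hP, if_pos hv]
        linarith
      · exact le_rfl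
      · exact zero_le_one
    · simp only [hb] at hne
      split_ifs at hne with hv hv'
      · have : ∃ e ∈ P v, e.1 = u ∨ e.2 = u := by
          by_contra hc
          push Not at hc
          rw [thr, filter_eq_empty_iff.2 fun e he => (hc e he).1,
            filter_eq_empty_iff.2 fun e he => (hc e he).2] at hne
          simp at hne
        obtain ⟨e, he, h'⟩ := this
        obtain ⟨-, h1, h2, -⟩ := hPm v e he
        rcases h' with rfl | rfl
        · exact ⟨hZ hv, hA (mem_inter.1 h1).2, (mem_inter.1 h1).1⟩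
        · exact ⟨hZ hv, hA (mem_inter.1 h2).2, (mem_inter.1 h2).1⟩
      · have := mem_inter.1 ((hT1 v (mem_sdiff.2 ⟨hv'.1, hv⟩)).1 hv'.2)
        exact ⟨hv'.1, this.2, this.1⟩
      · exact absurd rfl hne
  have p1 : 1 / (10 * (k : ℝ)) ≤ 1 := by
    rw [div_le_one (by positivity)]
    linarith
  obtain ⟨used, K, col, Cs, hKu, hKS, hcol, hpr, hCs, hsafe⟩ := inp.rounds free
    (p := 1 / (10 * k)) (T := T) (by positivity) p1 (by omega) (by
      refine le_trans ?_ hT
      have a1 : (2 * k + 2 * k * (2 * k) : ℝ) ≤ 20 * M ^ 2 := by nlinarith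
      have a2 := mul_self_le_mul_self (by positivity) a1
      push_cast
      linarith) k
  have hpot := fun v => hsafe.lt_one (fun _ _ ⟨x, h1, h2⟩ => ⟨x, h2, h1⟩) v
  have hp1 : ∀ v, (1 / (10 * k : ℝ)) ^ 2 * (1 - 1 / (10 * k : ℝ)) ^ (3 * (2 * k)) / 4 *
      (∑ j ∈ range k, ((fresh P free used v j).card : ℝ)) < (Cs v).card + T := fun v => by
    have := Real.exp_lt_one_iff.1 ((le_add_of_nonneg_right (Real.exp_pos _).le).trans_lt (hpot v))
    linarith
  have hp2 : ∀ v, ∑ u ∈ used, b v u < T + (∑ u ∈ S, b v u) / 5 := fun v => by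
    have := Real.exp_lt_one_iff.1 ((le_add_of_nonneg_left (Real.exp_pos _).le).trans_lt (hpot v))
    have e : (k : ℝ) * (2 * (1 / (10 * k)) * ∑ u ∈ S, b v u) = (∑ u ∈ S, b v u) / 5 := by
      field_simp
      ring
    linarith
  have hq : 1 / (1000 * (k : ℝ) ^ 2) ≤
      (1 / (10 * k : ℝ)) ^ 2 * (1 - 1 / (10 * k : ℝ)) ^ (3 * (2 * k)) / 4 := by
    have a1 := one_add_mul_le_pow (a := -(1 / (10 * k : ℝ))) (by linarith) (3 * (2 * k))
    have a2 : (1 : ℝ) + ((3 * (2 * k) : ℕ) : ℝ) * -(1 / (10 * k : ℝ)) = 2 / 5 := by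
      push_cast
      field_simp
      ring
    rw [a2, ← sub_eq_add_neg] at a1
    refine le_trans (le_of_eq ?_) (div_le_div_of_nonneg_right
      (mul_le_mul_of_nonneg_left a1 (by positivity)) (by norm_num))
    field_simp
    ring
  have hZC : ∀ z ∈ Z, h < (Cs z).card := by
    intro z hz
    obtain ⟨c1, c2⟩ := hZ' z hz
    have c3 := hlo' z (hSW (hZ hz))
    have c4 : ((N z ∩ A).card : ℝ) ≤ 2 * k := by
      exact_mod_cast hdeg z (hZ hz) A (hA.trans hSW)
    have c5 := F2 (N z ∩ A) (by exact_mod_cast (by linarith : (M : ℝ) ≤ (N z ∩ A).card))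
    have c6 := card_nap (N := N) (N z ∩ A)
    have e : P z = nap N (N z ∩ A) := if_pos hz
    rw [← e] at c6
    have c7 : Q / 2 ≤ (P z).card := by
      have d1 : ((N z ∩ A).card : ℝ) * (2 * M + 1 - (N z ∩ A).card) ≤ (4 * M) * (14 * h) :=
        (mul_le_mul_of_nonneg_left (by linarith) (Nat.cast_nonneg _)).trans
          (mul_le_mul_of_nonneg_right (by linarith) (by linarith))
      nlinarith
    have c8 := hp2 z
    simp only [hb, if_pos hz, ← sum_div] at c8
    have c9 : ∑ u ∈ S, thr (P z) u = 2 * (P z).card := by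
      rw [sum_thr, filter_true_of_mem fun e he => (inp.pr z e he).2.2.2.1,
        filter_true_of_mem fun e he => (inp.pr z e he).2.2.2.2.1, two_mul]
    rw [c9, div_lt_iff₀ (by positivity)] at c8
    have c10 : (T + 2 * ((P z).card : ℝ) / (4 * k) / 5) * (4 * k) =
        4 * k * T + 2 * (P z).card / 5 := by field_simp
    have c11 := sum_fresh P free used z k fun e he => by
      obtain ⟨-, h1, h2, -⟩ := hPm z e he
      have d1 := hA' _ (mem_inter.1 h1).2
      have d2 := hA' _ (mem_inter.1 h2).2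
      have d3 : range k ⊆ ((range k).filter fun j => j ∈ free e.1 ∧ j ∈ free e.2) ∪
          ((N e.1 ∩ O).image f0 ∪ (N e.2 ∩ O).image f0) := fun j hj => by
        simp only [hfree, mem_union, mem_filter, mem_sdiff]
        tauto
      have d4 := (card_le_card d3).trans ((card_union_le _ _).trans (Nat.add_le_add_left
        ((card_union_le _ _).trans (add_le_add card_image_le card_image_le)) _))
      rw [card_range] at d4
      rw [div_le_iff₀ two_pos]
      exact_mod_cast (by omega :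
        k ≤ ((range k).filter fun j => j ∈ free e.1 ∧ j ∈ free e.2).card * 2)
    have c12 : 4 * k * T ≤ 8 * M * T := mul_le_mul_of_nonneg_right (by linarith) T0
    have c13 : Q / 4 * (k / 2) ≤ ∑ j ∈ range k, ((fresh P free used z j).card : ℝ) :=
      le_trans (mul_le_mul_of_nonneg_right (by nlinarith) (by positivity)) c11
    have Q0 : 0 ≤ Q := le_trans (by positivity) hnum
    have c14 := (mul_le_mul hq c13 (by positivity) (le_trans (by positivity) hq)).trans_lt (hp1 z)
    have c15 : h + T ≤ 1 / (1000 * (k : ℝ) ^ 2) * (Q / 4 * (k / 2)) := by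
      rw [show 1 / (1000 * (k : ℝ) ^ 2) * (Q / 4 * (k / 2)) = Q / (8000 * k) by field_simp; ring,
        le_div_iff₀ (by positivity)]
      have : (h + T) * (8000 * k) ≤ (h + T) * (16000 * M) :=
        mul_le_mul_of_nonneg_left (by linarith) (by linarith)
      rw [hh] at this ⊢
      linarith
    linarith
  have hOK : ∀ u ∈ K, u ∉ O := fun u hu => (mem_sdiff.1 (hKS hu)).2
  have hmix : ∀ o ∈ O, ∀ u ∈ K, o ∈ N u → f0 o ≠ col u := fun o ho u hu hn e =>
    (mem_sdiff.1 (hcol u hu).2).2 (mem_image.2 ⟨o, mem_inter.2 ⟨hn, ho⟩, e⟩)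
  have hB : PC N k (O ∪ K) fun u => if u ∈ O then f0 u else col u := by
    refine ⟨fun u hu => ?_, fun u hu w hw hn => ?_⟩
    · by_cases h1 : u ∈ O
      · simpa [h1] using hf0.1 u h1
      · simpa [h1] using (hcol u ((mem_union.1 hu).resolve_left h1)).1
    · by_cases h1 : u ∈ O <;> by_cases h2 : w ∈ O <;> simp only [h1, h2, if_true, if_false]
      · exact hf0.2 u h1 w h2 hn
      · exact hmix u h1 w ((mem_union.1 hw).resolve_left h2) (hs _ _ hn)
      · exact (hmix w h2 u ((mem_union.1 hu).resolve_left h1) hn).symm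
      · exact hpr u ((mem_union.1 hu).resolve_left h1) w ((mem_union.1 hw).resolve_left h2) hn
  obtain ⟨f, hf, -⟩ := greedy hs hi hB (S \ K) (by
      rw [disjoint_union_right]
      exact ⟨sdiff_disjoint.mono_left sdiff_subset, sdiff_disjoint⟩) fun D hD hne => by
    have hDS : D ⊆ S := hD.trans sdiff_subset
    have hY : O ∪ K ∪ D ⊆ W :=
      union_subset (union_subset hO.subset (hKS.trans hSW)) (hDS.trans hSW)
    by_cases hz : ∃ z ∈ D, z ∈ Z
    · obtain ⟨z, hzD, hz⟩ := hz
      refine ⟨z, hzD, fun f hf => ?_⟩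
      have a1 := image_card (N z ∩ (O ∪ K ∪ D)) f (Cs z) fun j hj => by
        obtain ⟨u, hu, w, hw, ne, n1, n2, e1, e2⟩ := hCs z j hj
        exact ⟨u, by simp [n1, hu], w, by simp [n2, hw], ne,
          by rw [hf u (mem_union_right _ hu), if_neg (hOK u hu), e1],
          by rw [hf w (mem_union_right _ hw), if_neg (hOK w hw), e2]⟩
      have a2 : (((N z ∩ (O ∪ K ∪ D)).image f).card : ℝ) + (Cs z).card ≤ (N z ∩ W).card := by
        exact_mod_cast a1.trans (card_le_card (inter_subset_inter_left hY))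
      have a3 := hZC z hz
      have a4 := (hZ' z hz).1
      exact_mod_cast (by linarith : (((N z ∩ (O ∪ K ∪ D)).image f).card : ℝ) < k)
    · push Not at hz
      obtain ⟨v, hv, hd⟩ := hT2 D (fun u hu => mem_sdiff.2 ⟨hDS hu, hz u hu⟩) hne
      obtain ⟨t1, t2⟩ := hT1 v (mem_sdiff.2 ⟨hDS hv, hz v hv⟩)
      refine ⟨v, hv, fun f _ => card_image_le.trans_lt ?_⟩
      have a1 := hp2 v
      simp only [hb, if_neg (hz v hv), hDS hv, true_and, sum_boole, filter_mem_eq_inter] at a1
      rw [inter_eq_right.2 (t1.trans inter_subset_right), inter_comm] at a1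
      have a2 : (((Tt v) \ used).card : ℝ) + (Tt v ∩ used).card = (Tt v).card := by
        exact_mod_cast card_sdiff_add_card_inter _ _
      have a3 : (N v ∩ (O ∪ K ∪ D)).card + (Tt v \ used).card ≤ (N v ∩ W).card := by
        rw [← card_union_of_disjoint]
        · exact card_le_card (union_subset (inter_subset_inter_left hY)
            (sdiff_subset.trans (t1.trans (inter_subset_inter_left hSW))))
        · refine disjoint_left.2 fun x hx hx' => ?_
          obtain ⟨x1, x2⟩ := mem_sdiff.1 hx'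
          rcases mem_union.1 (mem_inter.1 hx).2 with x3 | x3
          · rcases mem_union.1 x3 with x3 | x3
            · exact (mem_sdiff.1 (mem_inter.1 (t1 x1)).2).2 x3
            · exact x2 (hKu x3)
          · exact disjoint_left.1 hd x1 x3
      have a4 : ((N v ∩ (O ∪ K ∪ D)).card : ℝ) + (Tt v \ used).card ≤ (N v ∩ W).card := by
        exact_mod_cast a3
      have a5 := hlo' v (hSW (hDS hv))
      exact_mod_cast (by linarith : ((N v ∩ (O ∪ K ∪ D)).card : ℝ) < k)
  refine ⟨f, ?_⟩
  rwa [union_assoc, union_sdiff_of_subset hKS, union_sdiff_of_subset hO.subset] at hf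

/-- all parameters at once -/
theorem all_cases (hs : ∀ u w, w ∈ N u → u ∈ N w) (hi : ∀ u, u ∉ N u) (M k : ℕ) (Q : ℝ)
    (F1 : ∀ X : Finset V, X.Nonempty → ee N X X + 2 * M ≤ 2 * M * X.card)
    (F2 : ∀ X : Finset V, M ≤ X.card → ee N X X + Q ≤ 2 * M * X.card)
    (hQ : Q ≤ M * M) (k1 : 1 ≤ k)
    (hk : 2 * M - (Q / M + 1 / 2) / 50000 + 22 * Real.log M ≤ k) (W : Finset V) :
    ∃ f, PC N k W f := by
  by_cases h2 : 2 * M ≤ k
  · refine reduce hs hi k (fun W hW hlo _ => ?_) W
    have a1 := F1 W hW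
    have a2 : (W.card : ℝ) * k ≤ ee N W W := by
      have := card_nsmul_le_sum W (fun u => ((N u ∩ W).card : ℝ)) k
        fun u hu => by exact_mod_cast hlo u hu
      rwa [nsmul_eq_mul] at this
    have a3 : (1 : ℝ) ≤ W.card := by exact_mod_cast hW.card_pos
    have a4 : (2 * M : ℝ) ≤ k := by exact_mod_cast h2
    have a5 : (1 : ℝ) ≤ k := by exact_mod_cast k1
    nlinarith
  obtain ⟨g, hg⟩ : ∃ g, k + (g + 1) = 2 * M := ⟨2 * M - k - 1, by omega⟩
  have hg' : (k : ℝ) + (g + 1) = 2 * M := by exact_mod_cast hg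
  have g0 : (0 : ℝ) ≤ g := Nat.cast_nonneg _
  have M1 : 1 ≤ M := by omega
  have M2 : (2 : ℝ) ≤ M := by
    rcases M1.eq_or_lt with rfl | h
    · simp only [Nat.cast_one, Real.log_one] at hk hQ hg'
      linarith
    · exact_mod_cast h
  have l2 : 0.69 ≤ Real.log M :=
    le_trans (by linarith [Real.log_two_gt_d9]) (Real.log_le_log two_pos M2)
  refine main hs hi M k (g + 1) Q (16 * Real.log M) (fun X => ?_) F2 hg M1 hQ (by linarith) ?_ ?_ W
  · rcases X.eq_empty_or_nonempty with rfl | hX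
    · simp [ee]
    · linarith [F1 X hX]
  · have : (2 : ℝ) ^ 12 ≤ M ^ 12 := pow_le_pow_left₀ zero_le_two M2 12
    rw [show 16 * Real.log M = ((16 : ℕ) : ℝ) * Real.log M by norm_num, ← Real.log_pow,
      Real.exp_log (by positivity), show (M : ℝ) ^ 16 = M ^ 12 * M ^ 4 by ring]
    exact mul_le_mul_of_nonneg_right (by linarith) (by positivity)
  · rw [← le_div_iff₀' (by positivity), mul_comm (16000 : ℝ), ← div_div]
    push_cast
    linarith

end Pool.Agent.P.MP_c25521_co.Eps
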