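import Mathlib
import Pool.Agent.P.MP_c25521_co.Dom
import Pool.Agent.P.MP_d36d9e_co.Shearer

/-!
A colour by colour kernel process with evictions, derandomised by the adaptive local lemma.
-/

namespace Pool.Agent.P.MP_c25521_co

open Finset Pool.Agent.P.MP_d36d9e_co

set_option linter.unusedSectionVars false

variable {V : Type} [Fintype V] [DecidableEq V]

/-- dominated by a point of the Shearer region -/
def Safe (adj : V → V → Prop) (y : V → ℝ) : Prop :=
  ∃ x : V → ℝ, (∀ a, 0 ≤ x a) ∧ Good adj x Finset.univ ∧ ∀ a, y a ≤ x a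

theorem Safe.step {adj : V → V → Prop} (hs : ∀ a b, adj a b → adj b a) {y y1 y2 : V → ℝ}
    (h : Safe adj y) (C : Finset V) (hC : ∀ a ∈ C, ∀ b ∈ C, a ≠ b → adj a b)
    (h1 : ∀ a, 0 ≤ y1 a) (h2 : ∀ a, 0 ≤ y2 a) (o1 : ∀ a, a ∉ C → y1 a = y a)
    (o2 : ∀ a, a ∉ C → y2 a = y a) (t : ℝ) (t0 : 0 ≤ t) (t1 : t ≤ 1)
    (hin : ∀ a ∈ C, t * y1 a + (1 - t) * y2 a ≤ y a) :
    Safe adj y1 ∨ (t < 1 ∧ Safe adj y2) := by
  obtain ⟨x, hx0, hg, hyx⟩ := h
  obtain ⟨β, hβ, hlt, hnew⟩ := clique_halfspace hs hx0 hg (Finset.subset_univ C) hC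
  have mk : ∀ z : V → ℝ, (∀ a, 0 ≤ z a) → (∀ a, a ∉ C → z a = y a) →
      ∑ a ∈ C, z a * β a < 1 → Safe adj z := by
    intro z hz ho hsum
    refine ⟨fun a => if a ∈ C then z a else x a, fun a => ?_, hnew _ (fun a => ?_)
      (fun a ha => if_neg ha) ?_, fun a => ?_⟩
    · dsimp only; split_ifs; exacts [hz a, hx0 a]
    · split_ifs; exacts [hz a, hx0 a]
    · rwa [Finset.sum_congr rfl fun a ha => by rw [if_pos ha]]
    · dsimp only; split_ifs with ha
      · exact le_rfl
      · rw [ho a ha]; exact hyx a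
  have hsum : t * ∑ a ∈ C, y1 a * β a + (1 - t) * ∑ a ∈ C, y2 a * β a < 1 := by
    refine lt_of_le_of_lt ?_ hlt
    rw [Finset.mul_sum, Finset.mul_sum, ← Finset.sum_add_distrib]
    refine Finset.sum_le_sum fun a ha => ?_
    have := mul_le_mul_of_nonneg_right ((hin a ha).trans (hyx a)) (hβ a)
    linarith
  by_cases c1 : ∑ a ∈ C, y1 a * β a < 1
  · exact Or.inl (mk y1 h1 o1 c1)
  · rw [not_lt] at c1
    have c0 : 0 ≤ ∑ a ∈ C, y2 a * β a := Finset.sum_nonneg fun a _ => mul_nonneg (h2 a) (hβ a)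
    have tl : t < 1 := by
      rcases t1.lt_or_eq with h | h
      · exact h
      · subst h; linarith
    refine Or.inr ⟨tl, mk y2 h2 o2 ?_⟩
    by_contra c2
    rw [not_lt] at c2
    nlinarith

/-- the factor of one parent in the potential -/
noncomputable def phi (k S n r e : ℕ) : ℝ :=
  (1 + (n : ℝ) / r) * (1 + (n : ℝ) / S) ^ (k + 1 - e)

theorem one_le_phi (k S n r e : ℕ) : 1 ≤ phi k S n r e := by
  unfold phi
  have h1 : (1 : ℝ) ≤ 1 + (n : ℝ) / r := by
    have : (0 : ℝ) ≤ (n : ℝ) / r := by positivity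
    linarith
  have h2 : (1 : ℝ) ≤ 1 + (n : ℝ) / S := by
    have : (0 : ℝ) ≤ (n : ℝ) / S := by positivity
    linarith
  exact one_le_mul_of_one_le_of_one_le h1 (one_le_pow₀ h2)

theorem phi_step (k S n r e a : ℕ) (he : e ≤ k) (hr : 1 ≤ r) (ha : a ≤ 1) (han : a ≤ n) :
    (1 / (r : ℝ)) * (2 ^ a * phi k S (n - a) S (e + 1)) + (1 - 1 / (r : ℝ)) *
      phi k S (n - a) (r - 1) e ≤ phi k S n r e := by
  unfold phi
  obtain ⟨n, rfl⟩ : ∃ n', n = n' + a := ⟨n - a, by omega⟩
  obtain ⟨r, rfl⟩ : ∃ r', r = r' + 1 := ⟨r - 1, by omega⟩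
  simp only [Nat.add_sub_cancel]
  have e1 : k + 1 - e = (k + 1 - (e + 1)) + 1 := by omega
  rw [← pow_succ', ← e1]
  have hW : (1 + (n : ℝ) / S) ^ (k + 1 - e) ≤ (1 + ((n + a : ℕ) : ℝ) / S) ^ (k + 1 - e) := by
    gcongr
    omega
  have hW0 : (0 : ℝ) ≤ (1 + (n : ℝ) / S) ^ (k + 1 - e) := by positivity
  set W := (1 + (n : ℝ) / S) ^ (k + 1 - e)
  have h2 : (2 : ℝ) ^ a = 1 + a := by
    interval_cases a <;> norm_num
  have h3 : (1 - 1 / ((r + 1 : ℕ) : ℝ)) * (1 + (n : ℝ) / r) ≤ (r + n) / ((r + 1 : ℕ) : ℝ) := by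
    rcases Nat.eq_zero_or_pos r with rfl | hr0
    · simp
    · have : (0 : ℝ) < r := by exact_mod_cast hr0
      apply le_of_eq
      push_cast
      field_simp
      ring
  have h4 : (1 / ((r + 1 : ℕ) : ℝ)) * (1 + a) + (r + n) / ((r + 1 : ℕ) : ℝ)
      = 1 + ((n + a : ℕ) : ℝ) / ((r + 1 : ℕ) : ℝ) := by
    push_cast
    field_simp
    ring
  have h5 : (0 : ℝ) ≤ 1 + ((n + a : ℕ) : ℝ) / ((r + 1 : ℕ) : ℝ) := by positivity
  calc _ = ((1 / ((r + 1 : ℕ) : ℝ)) * (1 + a) + (1 - 1 / ((r + 1 : ℕ) : ℝ)) *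
        (1 + (n : ℝ) / r)) * W := by rw [h2]; ring
    _ ≤ (1 + ((n + a : ℕ) : ℝ) / ((r + 1 : ℕ) : ℝ)) * W :=
        mul_le_mul_of_nonneg_right (by linarith) hW0
    _ ≤ _ := mul_le_mul_of_nonneg_left hW h5

/-- the data of the process -/
structure Data (V : Type) where
  H : SimpleGraph V
  O : V → Finset V
  par : V → Finset V
  Sx : V → Finset V
  pos : V → ℕ
  A : ℕ → Finset V
  col : ℕ → ℕ
  k : ℕ
  S : ℕ
  j : ℕ

/-- counters -/
structure Cnt (V : Type) where
  r : V → ℕ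
  e : V → ℕ
  l : V → ℕ
  n : V → V → ℕ

namespace Data

variable (d : Data V)

/-- hypotheses on the data -/
structure Ok : Prop where
  inj : ∀ u v, d.pos u = d.pos v → u = v
  parO : ∀ v, d.par v ⊆ d.O v
  irr : ∀ v, v ∉ d.par v
  park : ∀ v, (d.par v).card ≤ d.k
  cross : ∀ i i' u v, i < i' → d.col i = d.col i' → u ∈ d.A i → v ∈ d.A i' → d.H.Adj u v →
    u ∈ d.O v
  inner : ∀ i u v, u ∈ d.A i → v ∈ d.A i → d.pos u < d.pos v → d.H.Adj u v →
    u ∈ d.O v ∨ v ∈ d.par u
  near : ∀ i u c p, u ∈ d.A i → c ∈ d.A i → p ∈ d.A i → c ∈ d.O u → p ∈ d.par c → p ∈ d.Sx u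

def adj (a b : V) : Prop := ∃ p, p ∈ d.Sx a ∧ p ∈ d.Sx b

noncomputable def pot (s : Cnt V) (u : V) : ℝ :=
  2 ^ s.l u * (∏ p ∈ d.Sx u, phi d.k d.S (s.n u p) (s.r p) (s.e p)) / 2 ^ d.j

def mu (s : Cnt V) (v : V) : ℕ := s.e v * d.S + (d.S - s.r v)

def base (D : Finset V) (u p : V) : ℕ :=
  ∑ c ∈ d.O u, if c ∉ D ∧ p ∈ d.par c then (d.par c \ D).card else 0

def pre (D : Finset V) (f : V → ℕ) (i : ℕ) (v : V) : Prop := ∃ w ∈ d.O v, w ∈ D ∧ f w = d.col i

open Classical in
/-- invariant between phases -/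
structure Inv (i : ℕ) (D : Finset V) (f : V → ℕ) (s : Cnt V) : Prop where
  rpos : ∀ p, 1 ≤ s.r p ∧ s.r p ≤ d.S
  prop : ∀ u ∈ D, ∀ v ∈ D, d.H.Adj u v → f u ≠ f v
  src : ∀ v ∈ D, ∃ i' < i, v ∈ d.A i' ∧ f v = d.col i'
  life : ∀ p, p ∉ D → s.e p ≤ (d.par p ∩ D).card
  acct : ∀ v, v ∉ D → ((range i).filter fun i' => v ∈ d.A i').card ≤
    ((range i).filter fun i' => v ∈ d.A i' ∧ d.pre D f i' v).card + d.mu s v + s.l v
  tok : ∀ u p, p ∉ D → d.base D u p ≤ s.n u p
  safe : Safe d.adj (d.pot s)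

open Classical in
/-- invariant inside a phase -/
structure PInv (i : ℕ) (D : Finset V) (f : V → ℕ) (s0 : Cnt V) (t : ℕ) (J : Finset V)
    (pend : V → Option V) (s : Cnt V) : Prop where
  rpos : ∀ p, 1 ≤ s.r p ∧ s.r p ≤ d.S
  jsub : ∀ v ∈ J, v ∈ d.A i ∧ v ∉ D ∧ d.pos v < t ∧ ¬ d.pre D f i v
  jind : ∀ u ∈ J, ∀ v ∈ J, d.pos u < d.pos v → u ∉ d.O v
  fin : ∀ v ∈ d.A i, v ∉ D → d.pos v < t →
    v ∈ J ∨ d.pre D f i v ∨ d.mu s0 v + 1 ≤ d.mu s v ∨ ∃ c, pend v = some c
  pendJ : ∀ u c, pend u = some c → c ∈ J ∧ c ∈ d.O u ∧ u ∈ d.A i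
  pendEx : ∀ u ∈ d.A i, ∀ w ∈ J, w ∈ d.O u → ∃ c, pend u = some c
  harm : ∀ u c p, pend u = some c → p ∈ d.par c → p ∈ J → s0.l u + 1 ≤ s.l u
  lmono : ∀ u, s0.l u ≤ s.l u
  mumono : ∀ v, d.mu s0 v ≤ d.mu s v
  life : ∀ p, s.e p ≤ s0.e p + if p ∈ J then 1 else 0
  tok : ∀ u p, p ∉ D → d.base D u p ≤ s.n u p +
    if (∃ c, pend u = some c ∧ p ∈ d.par c) ∧ d.pos p < t then 1 else 0
  safe : Safe d.adj (d.pot s)

variable {d}

theorem pot_nonneg (s : Cnt V) (u : V) : 0 ≤ d.pot s u := by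
  unfold pot
  have : 0 ≤ ∏ p ∈ d.Sx u, phi d.k d.S (s.n u p) (s.r p) (s.e p) :=
    Finset.prod_nonneg fun p _ => zero_le_one.trans (one_le_phi _ _ _ _ _)
  positivity

theorem pot_eq (s s' : Cnt V) (u v : V) (hv : v ∈ d.Sx u)
    (h : ∀ p, p ≠ v → s'.n u p = s.n u p ∧ s'.r p = s.r p ∧ s'.e p = s.e p) :
    d.pot s' u = 2 ^ s'.l u * phi d.k d.S (s'.n u v) (s'.r v) (s'.e v) *
      ((∏ p ∈ (d.Sx u).erase v, phi d.k d.S (s.n u p) (s.r p) (s.e p)) / 2 ^ d.j) := by
  unfold pot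
  rw [← Finset.mul_prod_erase _ _ hv, Finset.prod_congr rfl
    (g := fun p => phi d.k d.S (s.n u p) (s.r p) (s.e p)) (fun p hp => by
      obtain ⟨h1, h2, h3⟩ := h p (Finset.mem_erase.1 hp).1
      rw [h1, h2, h3])]
  ring

theorem pot_same (s s' : Cnt V) (u v : V) (hv : v ∉ d.Sx u) (hl : s'.l u = s.l u)
    (h : ∀ p, p ≠ v → s'.n u p = s.n u p ∧ s'.r p = s.r p ∧ s'.e p = s.e p) :
    d.pot s' u = d.pot s u := by
  unfold pot
  rw [hl, Finset.prod_congr rfl
    (g := fun p => phi d.k d.S (s.n u p) (s.r p) (s.e p)) (fun p hp => by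
      obtain ⟨h1, h2, h3⟩ := h p (fun e => hv (e ▸ hp))
      rw [h1, h2, h3])]

theorem pstep (ok : d.Ok) {i : ℕ} {D : Finset V} {f : V → ℕ} {s0 : Cnt V} (h0 : d.Inv i D f s0)
    {t : ℕ} {J : Finset V} {pend : V → Option V} {s : Cnt V} (h : d.PInv i D f s0 t J pend s) :
    ∃ J' pend' s', d.PInv i D f s0 (t + 1) J' pend' s' := by
  classical
  by_cases hex : ∃ v ∈ d.A i, v ∉ D ∧ d.pos v = t ∧ ¬ d.pre D f i v ∧ ∀ w ∈ J, w ∉ d.O v
  swap
  · refine ⟨J, pend, s, h.rpos, fun v hv => ?_, h.jind, fun v hv hD hp => ?_, h.pendJ, h.pendEx,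
      h.harm, h.lmono, h.mumono, h.life, fun u p hp => ?_, h.safe⟩
    · obtain ⟨a, b, c, e⟩ := h.jsub v hv
      exact ⟨a, b, by omega, e⟩
    · by_cases hlt : d.pos v < t
      · exact h.fin v hv hD hlt
      · by_cases hpre : d.pre D f i v
        · exact Or.inr (Or.inl hpre)
        · have : ¬ ∀ w ∈ J, w ∉ d.O v := fun hw => hex ⟨v, hv, hD, by omega, hpre, hw⟩
          simp only [not_forall, not_not] at this
          obtain ⟨w, hw, hw'⟩ := this
          exact Or.inr (Or.inr (Or.inr (h.pendEx v hv w hw hw')))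
    · refine (h.tok u p hp).trans (Nat.add_le_add_left ?_ _)
      split_ifs with h1 h2
      · exact le_rfl
      · exact absurd ⟨h1.1, by omega⟩ h2
      · omega
      · exact le_rfl
  obtain ⟨v, hvA, hvD, hvt, hvpre, hvJ⟩ := hex
  have hvJ' : v ∉ J := fun hv => by have := (h.jsub v hv).2.2.1; omega
  have hek : s.e v ≤ d.k := by
    have h1 := h.life v
    rw [if_neg hvJ'] at h1
    have h2 := h0.life v hvD
    have h3 : (d.par v ∩ D).card ≤ (d.par v).card := Finset.card_le_card Finset.inter_subset_left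
    have h4 := ok.park v
    omega
  set a : V → ℕ := fun u => if ∃ c, pend u = some c ∧ v ∈ d.par c then 1 else 0 with ha
  have ha1 : ∀ u, a u ≤ 1 := fun u => by simp only [ha]; split_ifs <;> omega
  have han : ∀ u, a u ≤ s.n u v := by
    intro u
    simp only [ha]
    split_ifs with hc
    swap
    · omega
    obtain ⟨c, hc, hvc⟩ := hc
    obtain ⟨c1, c2, -⟩ := h.pendJ u c hc
    have h1 := h.tok u v hvD
    rw [if_neg (fun hh => by have := hh.2; omega)] at h1
    have h2 : (if c ∉ D ∧ v ∈ d.par c then (d.par c \ D).card else 0) ≤ d.base D u v :=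
      Finset.single_le_sum (f := fun c => if c ∉ D ∧ v ∈ d.par c then (d.par c \ D).card else 0)
        (fun _ _ => Nat.zero_le _) c2
    rw [if_pos ⟨(h.jsub c c1).2.1, hvc⟩] at h2
    have h3 : 0 < (d.par c \ D).card := Finset.card_pos.2 ⟨v, Finset.mem_sdiff.2 ⟨hvc, hvD⟩⟩
    omega
  have ha0 : ∀ u, v ∉ d.Sx u → a u = 0 := by
    intro u hu
    simp only [ha]
    rw [if_neg]
    rintro ⟨c, hc, hvc⟩
    obtain ⟨c1, c2, c3⟩ := h.pendJ u c hc
    exact hu (ok.near i u c v c3 (h.jsub c c1).1 hvA c2 hvc)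
  set n' : V → V → ℕ := fun u p => if p = v then s.n u v - a u else s.n u p with hn'
  set s1 : Cnt V := ⟨Function.update s.r v d.S, Function.update s.e v (s.e v + 1),
    fun u => s.l u + a u, n'⟩ with hs1
  set s2 : Cnt V := ⟨Function.update s.r v (s.r v - 1), s.e, s.l, n'⟩ with hs2
  have o1 : ∀ u p, p ≠ v → s1.n u p = s.n u p ∧ s1.r p = s.r p ∧ s1.e p = s.e p := by
    intro u p hp
    simp only [hs1, hn', if_neg hp, Function.update_of_ne hp, and_self]
  have o2 : ∀ u p, p ≠ v → s2.n u p = s.n u p ∧ s2.r p = s.r p ∧ s2.e p = s.e p := by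
    intro u p hp
    simp only [hs2, hn', if_neg hp, Function.update_of_ne hp, and_self]
  have hr := h.rpos v
  have hr' : (1 : ℝ) ≤ s.r v := by exact_mod_cast hr.1
  have tokn : ∀ (pend' : V → Option V), (∀ u c, pend u = some c → pend' u = some c) →
      ∀ u p, p ∉ D → d.base D u p ≤ n' u p +
        if (∃ c, pend' u = some c ∧ p ∈ d.par c) ∧ d.pos p < t + 1 then 1 else 0 := by
    intro pend' hp' u p hp
    have h1 := h.tok u p hp
    by_cases hpv : p = v
    · subst hpv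
      rw [if_neg (fun hh => by have := hh.2; omega)] at h1
      have h2 := han u
      simp only [hn', if_true]
      by_cases hc : ∃ c, pend u = some c ∧ p ∈ d.par c
      · obtain ⟨c, hc1, hc2⟩ := hc
        rw [if_pos ⟨⟨c, hp' u c hc1, hc2⟩, by omega⟩]
        have := ha1 u
        omega
      · have : a u = 0 := by simp only [ha]; rw [if_neg hc]
        omega
    · simp only [hn', if_neg hpv]
      refine h1.trans (Nat.add_le_add_left ?_ _)
      split_ifs with h2 h3
      · exact le_rfl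
      · obtain ⟨⟨c, hc1, hc2⟩, h4⟩ := h2
        exact absurd ⟨⟨c, hp' u c hc1, hc2⟩, by omega⟩ h3
      · omega
      · exact le_rfl
  have key := Safe.step (adj := d.adj) (fun a b ⟨p, h1, h2⟩ => ⟨p, h2, h1⟩) h.safe
    (y1 := d.pot s1) (y2 := d.pot s2) (Finset.univ.filter fun u => v ∈ d.Sx u)
    (fun a ha b hb _ => ⟨v, (Finset.mem_filter.1 ha).2, (Finset.mem_filter.1 hb).2⟩)
    (pot_nonneg s1) (pot_nonneg s2)
    (fun u hu => by
      have hu' : v ∉ d.Sx u := by simpa using hu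
      exact pot_same s s1 u v hu' (by simp only [hs1, ha0 u hu', add_zero]) (o1 u))
    (fun u hu => pot_same s s2 u v (by simpa using hu) rfl (o2 u))
    (1 / (s.r v : ℝ)) (by positivity) (by rw [div_le_one (by linarith)]; exact hr')
    (fun u hu => by
      have hu' : v ∈ d.Sx u := (Finset.mem_filter.1 hu).2
      rw [pot_eq s s1 u v hu' (o1 u), pot_eq s s2 u v hu' (o2 u),
        pot_eq s s u v hu' (fun _ _ => ⟨rfl, rfl, rfl⟩)]
      have hR : 0 ≤ (∏ p ∈ (d.Sx u).erase v, phi d.k d.S (s.n u p) (s.r p) (s.e p)) / 2 ^ d.j :=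
        div_nonneg (Finset.prod_nonneg fun p _ => zero_le_one.trans (one_le_phi _ _ _ _ _))
          (by positivity)
      have hst := phi_step d.k d.S (s.n u v) (s.r v) (s.e v) (a u) hek hr.1 (ha1 u) (han u)
      have hst' := mul_le_mul_of_nonneg_right
        (mul_le_mul_of_nonneg_left hst (by positivity : (0 : ℝ) ≤ 2 ^ s.l u)) hR
      simp only [hs1, hs2, hn', if_true, Function.update_self, pow_add]
      linarith)
  rcases key with hsafe | ⟨hlt, hsafe⟩
  · -- the vertex joins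
    set pend' : V → Option V := fun u =>
      if pend u = none ∧ u ∈ d.A i ∧ v ∈ d.O u then some v else pend u with hpend'
    have pk : ∀ u c, pend u = some c → pend' u = some c := by
      intro u c hc
      simp only [hpend']
      rw [if_neg (fun hh => by rw [hc] at hh; exact absurd hh.1 (by simp)), hc]
    have pinv : ∀ u c, pend' u = some c →
        pend u = some c ∨ (c = v ∧ u ∈ d.A i ∧ v ∈ d.O u) := by
      intro u c hc
      simp only [hpend'] at hc
      split_ifs at hc with hh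
      · exact Or.inr ⟨(Option.some.inj hc).symm, hh.2⟩
      · exact Or.inl hc
    have mu1 : ∀ p, d.mu s p ≤ d.mu s1 p := by
      intro p
      by_cases hp : p = v
      · subst hp
        simp only [mu, hs1, Function.update_self, Nat.succ_mul]
        omega
      · simp only [mu, (o1 p p hp).2.1, (o1 p p hp).2.2, le_refl]
    refine ⟨insert v J, pend', s1, fun p => ?_, fun w hw => ?_, fun u hu w hw hlt => ?_,
      fun w hw hD hp => ?_, fun u c hc => ?_, fun u hu w hw hwO => ?_, fun u c p hc hp hpJ => ?_,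
      fun u => ?_, fun w => (h.mumono w).trans (mu1 w), fun p => ?_, tokn pend' pk, hsafe⟩
    · by_cases hp : p = v
      · subst hp
        simp only [hs1, Function.update_self]
        omega
      · rw [(o1 p p hp).2.1]; exact h.rpos p
    · rcases Finset.mem_insert.1 hw with rfl | hw
      · exact ⟨hvA, hvD, by omega, hvpre⟩
      · obtain ⟨a, b, c, e⟩ := h.jsub w hw
        exact ⟨a, b, by omega, e⟩
    · rcases Finset.mem_insert.1 hu with hu1 | hu1 <;>
        rcases Finset.mem_insert.1 hw with hw1 | hw1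
      · rw [hu1, hw1] at hlt; omega
      · have := (h.jsub w hw1).2.2.1
        rw [hu1] at hlt; omega
      · rw [hw1]; exact hvJ u hu1
      · exact h.jind u hu1 w hw1 hlt
    · by_cases hwv : w = v
      · exact Or.inl (hwv ▸ Finset.mem_insert_self _ _)
      · have : d.pos w ≠ t := fun e => hwv (ok.inj w v (by omega))
        rcases h.fin w hw hD (by omega) with h1 | h1 | h1 | ⟨c, h1⟩
        · exact Or.inl (Finset.mem_insert_of_mem h1)
        · exact Or.inr (Or.inl h1)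
        · exact Or.inr (Or.inr (Or.inl (h1.trans (mu1 w))))
        · exact Or.inr (Or.inr (Or.inr ⟨c, pk w c h1⟩))
    · rcases pinv u c hc with h1 | ⟨rfl, h1, h2⟩
      · obtain ⟨a, b, c⟩ := h.pendJ u c h1
        exact ⟨Finset.mem_insert_of_mem a, b, c⟩
      · exact ⟨Finset.mem_insert_self _ _, h2, h1⟩
    · rcases hpu : pend u with _ | c
      · rcases Finset.mem_insert.1 hw with rfl | hw
        · exact ⟨w, by simp only [hpend']; rw [if_pos ⟨hpu, hu, hwO⟩]⟩
        · obtain ⟨c, hc⟩ := h.pendEx u hu w hw hwO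
          exact ⟨c, pk u c hc⟩
      · exact ⟨c, pk u c hpu⟩
    · have hl := h.lmono u
      rcases pinv u c hc with h1 | ⟨rfl, h1, h2⟩
      · rcases Finset.mem_insert.1 hpJ with rfl | hpJ
        · have : a u = 1 := by simp only [ha]; rw [if_pos ⟨c, h1, hp⟩]
          simp only [hs1]; omega
        · have := h.harm u c p h1 hp hpJ
          simp only [hs1]; omega
      · rcases Finset.mem_insert.1 hpJ with rfl | hpJ
        · exact absurd hp (ok.irr _)
        · exact absurd (ok.parO _ hp) (hvJ p hpJ)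
    · have hl := h.lmono u
      simp only [hs1]; omega
    · have hl := h.life p
      by_cases hp : p = v
      · subst hp
        rw [if_neg hvJ'] at hl
        simp only [hs1, Function.update_self, Finset.mem_insert_self, if_true]
        omega
      · rw [(o1 p p hp).2.2]
        simpa only [Finset.mem_insert, hp, false_or] using hl
  · -- the vertex declines
    have hr2 : 2 ≤ s.r v := by
      rw [div_lt_one (by linarith)] at hlt
      exact_mod_cast hlt
    have mu2 : ∀ p, d.mu s p ≤ d.mu s2 p := by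
      intro p
      by_cases hp : p = v
      · subst hp
        simp only [mu, hs2, Function.update_self]
        omega
      · simp only [mu, (o2 p p hp).2.1, (o2 p p hp).2.2, le_refl]
    refine ⟨J, pend, s2, fun p => ?_, fun w hw => ?_, h.jind, fun w hw hD hp => ?_, h.pendJ,
      h.pendEx, h.harm, h.lmono, fun w => (h.mumono w).trans (mu2 w), h.life,
      tokn pend (fun _ _ hc => hc), hsafe⟩
    · by_cases hp : p = v
      · subst hp
        simp only [hs2, Function.update_self]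
        omega
      · rw [(o2 p p hp).2.1]; exact h.rpos p
    · obtain ⟨a, b, c, e⟩ := h.jsub w hw
      exact ⟨a, b, by omega, e⟩
    · by_cases hwv : w = v
      · subst hwv
        have := h.mumono w
        refine Or.inr (Or.inr (Or.inl ?_))
        simp only [mu, hs2, Function.update_self] at this ⊢
        omega
      · have : d.pos w ≠ t := fun e => hwv (ok.inj w v (by omega))
        rcases h.fin w hw hD (by omega) with h1 | h1 | h1 | h1
        · exact Or.inl h1
        · exact Or.inr (Or.inl h1)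
        · exact Or.inr (Or.inr (Or.inl (h1.trans (mu2 w))))
        · exact Or.inr (Or.inr (Or.inr h1))

theorem phase (ok : d.Ok) {i : ℕ} {D : Finset V} {f : V → ℕ} {s0 : Cnt V}
    (h0 : d.Inv i D f s0) : ∃ D' f' s', d.Inv (i + 1) D' f' s' := by
  classical
  have run : ∀ t, ∃ J pend s, d.PInv i D f s0 t J pend s := by
    intro t
    induction t with
    | zero =>
      refine ⟨∅, fun _ => none, s0, h0.rpos, by simp, by simp, fun v _ _ hp => by omega, by simp,
        by simp, by simp, fun _ => le_rfl, fun _ => le_rfl, by simp, fun u p hp => ?_, h0.safe⟩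
      exact (h0.tok u p hp).trans (Nat.le_add_right _ _)
    | succ t ih =>
      obtain ⟨J, pend, s, h⟩ := ih
      exact pstep ok h0 h
  set N := Finset.univ.sup d.pos + 1 with hN
  have hNlt : ∀ v, d.pos v < N := fun v =>
    Nat.lt_succ_of_le (Finset.le_sup (f := d.pos) (Finset.mem_univ v))
  obtain ⟨J, pend, s, h⟩ := run N
  obtain ⟨g, hg⟩ := greedy_choice (C := Prop) (fun v => N - d.pos v)
    (fun v => if v ∈ J then d.par v ∩ J else ∅)
    (fun v u hu => by
      split_ifs at hu with hv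
      · obtain ⟨h1, h2⟩ := Finset.mem_inter.1 hu
        have h3 : ¬ d.pos u < d.pos v := fun hh => h.jind u h2 v hv hh (ok.parO v h1)
        have h4 : d.pos u ≠ d.pos v := fun e => ok.irr v (ok.inj u v e ▸ h1)
        have := hNlt u
        omega
      · simp at hu)
    (fun v g c => c ↔ v ∈ J ∧ ∀ p ∈ d.par v ∩ J, ¬ g p)
    (fun v g g' c hgg hq => by
      rw [hq]
      refine and_congr_right fun hv => forall₂_congr fun p hp => ?_
      rw [hgg p (by rw [if_pos hv]; exact hp)])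
    (fun v g => ⟨_, Iff.rfl⟩)
  set K := Finset.univ.filter g with hK
  have mK : ∀ v, v ∈ K ↔ g v := fun v => by simp [hK]
  have KJ : ∀ v ∈ K, v ∈ J := fun v hv => ((hg v).1 ((mK v).1 hv)).1
  have K1 : ∀ v ∈ K, ∀ p ∈ d.par v, p ∉ K := fun v hv p hp hpK =>
    ((hg v).1 ((mK v).1 hv)).2 p (Finset.mem_inter.2 ⟨hp, KJ p hpK⟩) ((mK p).1 hpK)
  have K2 : ∀ v ∈ J, v ∉ K → ∃ p ∈ d.par v, p ∈ K := by
    intro v hv hvK
    by_contra hc
    exact hvK ((mK v).2 ((hg v).2 ⟨hv, fun p hp hgp =>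
      hc ⟨p, (Finset.mem_inter.1 hp).1, (mK p).2 hgp⟩⟩))
  have KD : ∀ v ∈ K, v ∉ D := fun v hv => (h.jsub v (KJ v hv)).2.1
  set f' : V → ℕ := fun v => if v ∈ K then d.col i else f v with hf'
  have f1 : ∀ v ∈ K, f' v = d.col i := fun v hv => if_pos hv
  have f2 : ∀ v ∈ D, f' v = f v := fun v hv => if_neg fun hk => KD v hk hv
  have mixed : ∀ u ∈ K, ∀ v ∈ D, d.H.Adj v u → f v ≠ d.col i := by
    intro u hu v hv hadj e
    obtain ⟨i', hi', hA, hc⟩ := h0.src v hv
    obtain ⟨a1, -, -, a4⟩ := h.jsub u (KJ u hu)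
    exact a4 ⟨v, ok.cross i' i v u hi' (by omega) hA a1 hadj, hv, e⟩
  have both : ∀ u ∈ K, ∀ v ∈ K, d.pos u < d.pos v → ¬ d.H.Adj u v := by
    intro u hu v hv hlt hadj
    rcases ok.inner i u v (h.jsub u (KJ u hu)).1 (h.jsub v (KJ v hv)).1 hlt hadj with h1 | h1
    · exact h.jind u (KJ u hu) v (KJ v hv) hlt h1
    · exact K1 u hu v h1 hv
  have premono : ∀ i' v, d.pre D f i' v → d.pre (D ∪ K) f' i' v := by
    rintro i' v ⟨w, h1, h2, h3⟩
    exact ⟨w, h1, Finset.mem_union_left _ h2, by rw [f2 w h2, h3]⟩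
  have preK : ∀ v, ∀ w ∈ d.O v, w ∈ K → d.pre (D ∪ K) f' i v := fun v w h1 h2 =>
    ⟨w, h1, Finset.mem_union_right _ h2, f1 w h2⟩
  refine ⟨D ∪ K, f', s, h.rpos, fun u hu v hv hadj => ?_, fun v hv => ?_, fun p hp => ?_,
    fun v hv => ?_, fun u p hp => ?_, h.safe⟩
  · rcases Finset.mem_union.1 hu with hu1 | hu1 <;> rcases Finset.mem_union.1 hv with hv1 | hv1
    · rw [f2 u hu1, f2 v hv1]; exact h0.prop u hu1 v hv1 hadj
    · rw [f2 u hu1, f1 v hv1]; exact mixed v hv1 u hu1 hadj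
    · rw [f1 u hu1, f2 v hv1]; exact (mixed u hu1 v hv1 hadj.symm).symm
    · have hne : d.pos u ≠ d.pos v := fun e => hadj.ne (ok.inj u v e)
      rcases lt_or_gt_of_ne hne with hl | hl
      · exact absurd hadj (both u hu1 v hv1 hl)
      · exact absurd hadj.symm (both v hv1 u hu1 hl)
  · rcases Finset.mem_union.1 hv with hv1 | hv1
    · obtain ⟨i', hi', hA, hc⟩ := h0.src v hv1
      exact ⟨i', by omega, hA, by rw [f2 v hv1, hc]⟩
    · exact ⟨i, by omega, (h.jsub v (KJ v hv1)).1, f1 v hv1⟩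
  · rw [Finset.mem_union, not_or] at hp
    have h1 := h.life p
    have h2 := h0.life p hp.1
    have hsub : d.par p ∩ D ⊆ d.par p ∩ (D ∪ K) :=
      Finset.inter_subset_inter_left Finset.subset_union_left
    split_ifs at h1 with hJ
    · obtain ⟨q, hq1, hq2⟩ := K2 p hJ hp.2
      have := Finset.card_lt_card ((Finset.ssubset_iff_of_subset hsub).2
        ⟨q, Finset.mem_inter.2 ⟨hq1, Finset.mem_union_right _ hq2⟩,
          fun hh => KD q hq2 (Finset.mem_inter.1 hh).2⟩)
      omega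
    · have := Finset.card_le_card hsub
      omega
  · rw [Finset.mem_union, not_or] at hv
    have h1 := h0.acct v hv.1
    have h2 := h.mumono v
    have h3 := h.lmono v
    have h4 : ((range i).filter fun i' => v ∈ d.A i' ∧ d.pre D f i' v).card ≤
        ((range i).filter fun i' => v ∈ d.A i' ∧ d.pre (D ∪ K) f' i' v).card :=
      Finset.card_le_card fun x hx => by
        rw [Finset.mem_filter] at hx ⊢
        exact ⟨hx.1, hx.2.1, premono x v hx.2.2⟩
    rw [Finset.range_add_one, Finset.filter_insert, Finset.filter_insert]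
    have n1 : i ∉ (range i).filter fun i' => v ∈ d.A i' := by simp
    have n2 : i ∉ (range i).filter fun i' => v ∈ d.A i' ∧ d.pre (D ∪ K) f' i' v := by simp
    by_cases hA : v ∈ d.A i
    · rw [if_pos hA, Finset.card_insert_of_notMem n1]
      by_cases hpre : d.pre (D ∪ K) f' i v
      · rw [if_pos ⟨hA, hpre⟩, Finset.card_insert_of_notMem n2]
        omega
      · rw [if_neg (fun hh => hpre hh.2)]
        rcases h.fin v hA hv.1 (hNlt v) with h5 | h5 | h5 | ⟨c, h5⟩
        · obtain ⟨q, hq1, hq2⟩ := K2 v h5 hv.2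
          exact absurd (preK v q (ok.parO v hq1) hq2) hpre
        · exact absurd (premono i v h5) hpre
        · omega
        · obtain ⟨c1, c2, -⟩ := h.pendJ v c h5
          obtain ⟨q, hq1, hq2⟩ := K2 c c1 fun hc => hpre (preK v c c2 hc)
          have := h.harm v c q h5 hq1 (KJ q hq2)
          omega
    · rw [if_neg hA, if_neg (fun hh => hA hh.1)]
      omega
  · rw [Finset.mem_union, not_or] at hp
    have h1 := h.tok u p hp.1
    have tm : ∀ c, (if c ∉ D ∪ K ∧ p ∈ d.par c then (d.par c \ (D ∪ K)).card else 0) ≤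
        if c ∉ D ∧ p ∈ d.par c then (d.par c \ D).card else 0 := by
      intro c
      split_ifs with h2 h3
      · exact Finset.card_le_card (Finset.sdiff_subset_sdiff le_rfl Finset.subset_union_left)
      · exact absurd ⟨fun hh => h2.1 (Finset.mem_union_left _ hh), h2.2⟩ h3
      · omega
      · omega
    split_ifs at h1 with hc
    · obtain ⟨⟨c, hc1, hc2⟩, -⟩ := hc
      obtain ⟨c1, c2, -⟩ := h.pendJ u c hc1
      have : d.base (D ∪ K) u p < d.base D u p := by
        refine Finset.sum_lt_sum (fun c _ => tm c) ⟨c, c2, ?_⟩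
        rw [if_pos (show c ∉ D ∧ p ∈ d.par c from ⟨(h.jsub c c1).2.1, hc2⟩)]
        split_ifs with h2
        · obtain ⟨q, hq1, hq2⟩ := K2 c c1 fun hh => h2.1 (Finset.mem_union_right _ hh)
          exact Finset.card_lt_card ((Finset.ssubset_iff_of_subset
            (Finset.sdiff_subset_sdiff le_rfl Finset.subset_union_left)).2
            ⟨q, Finset.mem_sdiff.2 ⟨hq1, KD q hq2⟩,
              fun hh => (Finset.mem_sdiff.1 hh).2 (Finset.mem_union_right _ hq2)⟩)
        · exact Finset.card_pos.2 ⟨p, Finset.mem_sdiff.2 ⟨hc2, hp.1⟩⟩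
      omega
    · have : d.base (D ∪ K) u p ≤ d.base D u p := Finset.sum_le_sum fun c _ => tm c
      omega

open Classical in
theorem start (ok : d.Ok) (M : ℕ) (hM : ∀ v, (d.O v).card ≤ M) (hS : 1 ≤ d.S) (Δ : ℝ)
    (hΔ : 1 ≤ Δ) (hdeg : ∀ a, ((Finset.univ.filter fun b => d.adj a b).card : ℝ) ≤ Δ)
    (hj : 4 * Δ * Real.exp ((d.k + 2) * (M * d.k ^ 2) / d.S) ≤ 2 ^ d.j) :
    d.Inv 0 ∅ (fun _ => 0) ⟨fun _ => d.S, fun _ => 0, fun _ => 0, d.base ∅⟩ := by
  refine ⟨fun _ => ⟨hS, le_rfl⟩, by simp, by simp, by simp, by simp, fun _ _ _ => le_rfl,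
    fun _ => 1 / (4 * Δ), fun _ => by positivity,
    good_const (fun a b ⟨p, h1, h2⟩ => ⟨p, h2, h1⟩) _ Δ hΔ (fun a _ => hdeg a), fun u => ?_⟩
  have hS' : (0 : ℝ) < d.S := by exact_mod_cast hS
  have h1 : ∑ p ∈ d.Sx u, d.base ∅ u p ≤ M * d.k ^ 2 := by
    calc ∑ p ∈ d.Sx u, d.base ∅ u p ≤ ∑ p, d.base ∅ u p :=
          Finset.sum_le_sum_of_subset (Finset.subset_univ _)
      _ = ∑ c ∈ d.O u, (d.par c).card * (d.par c).card := by
          unfold base
          rw [Finset.sum_comm]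
          refine Finset.sum_congr rfl fun c _ => ?_
          simp [Finset.sum_ite_mem]
      _ ≤ ∑ _c ∈ d.O u, d.k ^ 2 := Finset.sum_le_sum fun c _ => by
          rw [sq]; exact Nat.mul_le_mul (ok.park c) (ok.park c)
      _ ≤ M * d.k ^ 2 := by
          rw [Finset.sum_const, smul_eq_mul]; exact Nat.mul_le_mul_right _ (hM u)
  have h1' : ∑ p ∈ d.Sx u, (d.base ∅ u p : ℝ) ≤ M * d.k ^ 2 := by exact_mod_cast h1
  have h2 : ∏ p ∈ d.Sx u, phi d.k d.S (d.base ∅ u p) d.S 0 ≤
      Real.exp ((d.k + 2) * (M * d.k ^ 2) / d.S) := by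
    calc ∏ p ∈ d.Sx u, phi d.k d.S (d.base ∅ u p) d.S 0
        ≤ ∏ p ∈ d.Sx u, Real.exp ((d.k + 2) * (d.base ∅ u p : ℝ) / d.S) := by
          refine Finset.prod_le_prod (fun p _ => zero_le_one.trans (one_le_phi _ _ _ _ _))
            fun p _ => ?_
          unfold phi
          rw [Nat.sub_zero, ← pow_succ']
          have e : ((d.k : ℝ) + 2) * (d.base ∅ u p : ℝ) / d.S
              = ((d.k + 1 + 1 : ℕ) : ℝ) * ((d.base ∅ u p : ℝ) / d.S) := by push_cast; ring
          rw [e, Real.exp_nat_mul]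
          gcongr
          rw [add_comm]; exact Real.add_one_le_exp _
      _ = Real.exp ((d.k + 2) * (∑ p ∈ d.Sx u, (d.base ∅ u p : ℝ)) / d.S) := by
          rw [← Real.exp_sum, Finset.mul_sum, Finset.sum_div]
      _ ≤ _ := by gcongr
  simp only [pot, pow_zero, one_mul]
  rw [div_le_div_iff₀ (by positivity) (by positivity)]
  have : 0 < 4 * Δ := by positivity
  nlinarith

open Classical in
/-- the process colours every vertex -/
theorem colorable (ok : d.Ok) (M : ℕ) (hM : ∀ v, (d.O v).card ≤ M) (hS : 1 ≤ d.S) (Δ : ℝ)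
    (hΔ : 1 ≤ Δ) (hdeg : ∀ a, ((Finset.univ.filter fun b => d.adj a b).card : ℝ) ≤ Δ)
    (hj : 4 * Δ * Real.exp ((d.k + 2) * (M * d.k ^ 2) / d.S) ≤ 2 ^ d.j) (T N : ℕ)
    (hN : ∀ i < T, d.col i < N)
    (hinj : ∀ v i i', v ∈ d.A i → v ∈ d.A i' → d.col i = d.col i' → i = i')
    (hcnt : ∀ v, M + (d.k + 1) * d.S + d.j ≤ ((range T).filter fun i => v ∈ d.A i).card) :
    d.H.Colorable N := by
  have run : ∀ i, ∃ D f s, d.Inv i D f s := by
    intro i
    induction i with
    | zero => exact ⟨_, _, _, start ok M hM hS Δ hΔ hdeg hj⟩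
    | succ i ih =>
      obtain ⟨D, f, s, h⟩ := ih
      exact phase ok h
  obtain ⟨D, f, s, h⟩ := run T
  have hall : ∀ v, v ∈ D := by
    intro v
    by_contra hv
    have h1 := h.acct v hv
    have h2 : ((range T).filter fun i' => v ∈ d.A i' ∧ d.pre D f i' v).card ≤
        ((d.O v).image f).card := by
      refine Finset.card_le_card_of_injOn d.col (fun x hx => ?_) (fun x hx y hy e => ?_)
      · obtain ⟨-, -, w, h1, -, h3⟩ := Finset.mem_filter.1 (Finset.mem_coe.1 hx)
        exact Finset.mem_coe.2 (Finset.mem_image.2 ⟨w, h1, h3⟩)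
      · exact hinj v x y (Finset.mem_filter.1 (Finset.mem_coe.1 hx)).2.1
          (Finset.mem_filter.1 (Finset.mem_coe.1 hy)).2.1 e
    have h3 := (Finset.card_image_le (s := d.O v) (f := f)).trans (hM v)
    have h4 : d.mu s v ≤ (d.k + 1) * d.S := by
      have a1 := h.life v hv
      have a2 : (d.par v ∩ D).card ≤ (d.par v).card :=
        Finset.card_le_card Finset.inter_subset_left
      have a3 := Nat.mul_le_mul_right d.S (a1.trans (a2.trans (ok.park v)))
      unfold mu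
      rw [Nat.succ_mul]
      omega
    have h5 : s.l v < d.j := by
      obtain ⟨x, -, hg, hx⟩ := h.safe
      have a1 := (hx v).trans_lt
        (hg.lt_one (fun a b ⟨p, h1, h2⟩ => ⟨p, h2, h1⟩) (Finset.mem_univ v))
      unfold pot at a1
      rw [div_lt_one (by positivity)] at a1
      have a2 : 1 ≤ ∏ p ∈ d.Sx v, phi d.k d.S (s.n v p) (s.r p) (s.e p) :=
        Finset.one_le_prod (fun p _ => one_le_phi _ _ _ _ _)
      have a3 : (2 : ℝ) ^ s.l v < 2 ^ d.j :=
        lt_of_le_of_lt (le_mul_of_one_le_right (by positivity) a2) a1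
      exact (pow_lt_pow_iff_right₀ (by norm_num)).1 a3
    have h6 := hcnt v
    omega
  have hlt : ∀ v, f v < N := fun v => by
    obtain ⟨i, hi, -, e⟩ := h.src v (hall v)
    rw [e]; exact hN i hi
  exact ⟨SimpleGraph.Coloring.mk (fun v => ⟨f v, hlt v⟩) fun {u v} huv e =>
    h.prop u (hall u) v (hall v) huv (Fin.mk.inj e)⟩

end Data

end Pool.Agent.P.MP_c25521_co
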