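import Mathlib
import Pool.Agent.P.MP_c25521_co.Proc

namespace Pool.Agent.P.MP_c25521_co

open Finset

variable {V : Type} [Fintype V] [DecidableEq V]

theorem card_skip (R x ρ : ℕ) (hρ : ρ < R) :
    (R - 1) * x ≤ ((range (R * x)).filter fun g => g % R ≠ ρ).card := by
  have hR : 0 < R := by omega
  have h1 : ((range x) ×ˢ ((range R).erase ρ)).card = x * (R - 1) := by
    rw [Finset.card_product, Finset.card_erase_of_mem (Finset.mem_range.2 hρ)]; simp
  rw [mul_comm, ← h1]
  refine Finset.card_le_card_of_injOn (fun z => R * z.1 + z.2) ?_ ?_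
  · rintro ⟨a, b⟩ hz
    simp only [Finset.coe_product, Set.mem_prod, Finset.mem_coe, Finset.mem_range,
      Finset.mem_erase] at hz
    obtain ⟨h2, h3, h4⟩ := hz
    simp only [Finset.coe_filter, Finset.mem_range, Set.mem_ofPred_eq]
    refine ⟨?_, by rw [Nat.mul_add_mod, Nat.mod_eq_of_lt h4]; exact h3⟩
    have := Nat.mul_le_mul_left R (show a + 1 ≤ x from h2)
    rw [Nat.mul_succ] at this
    omega
  · rintro ⟨a, b⟩ hz ⟨a', b'⟩ hz' e
    simp only [Finset.coe_product, Set.mem_prod, Finset.mem_coe, Finset.mem_range,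
      Finset.mem_erase] at hz hz' e
    have e1 := congrArg (· % R) e
    simp only [Nat.mul_add_mod, Nat.mod_eq_of_lt hz.2.2, Nat.mod_eq_of_lt hz'.2.2] at e1
    subst e1
    have : a = a' := Nat.eq_of_mul_eq_mul_left hR (by omega)
    rw [this]

theorem colorable_param (D H : SimpleGraph V) (m k lam r S j x : ℕ) (hM : 0 < m + k)
    (hlam : 2 ≤ lam) (hr : 1 ≤ r) (hS : 1 ≤ S) (hD : Degen D m) (out : V → Finset V)
    (hout : ∀ v, (out v).card ≤ k)
    (hH : ∀ u v, H.Adj u v → D.Adj u v ∨ v ∈ out u ∨ u ∈ out v) (Δ : ℕ)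
    (hΔ : 40 * (m + k) ^ 4 * lam ^ (2 * r) ≤ Δ)
    (hj : 4 * (Δ : ℝ) * Real.exp (((k : ℝ) + 2) *
      (((m + k + 2 * (m + k) / lam : ℕ) : ℝ) * (k : ℝ) ^ 2) / S) ≤ 2 ^ j)
    (hx : m + k + 2 * (m + k) / lam + (k + 1) * S + j ≤ r * x) :
    H.Colorable ((r + 1) * x) := by
  classical
  obtain ⟨pos, back, -, hp2, hback, hp4, hp5⟩ := exists_order_aux D m hD Finset.univ
  have hb : ∀ v, ∀ u ∈ back v, pos u < pos v := fun v u hu => (hp4 v (mem_univ v) u hu).2
  set M := m + k with hMdef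
  set B : V → Finset V := fun v => back v ∪ out v with hB
  have hBc : ∀ v, (B v).card ≤ M := fun v =>
    (Finset.card_union_le _ _).trans (Nat.add_le_add (hback v) (hout v))
  obtain ⟨h, hh1, hh2⟩ := exists_level B B M M lam r hM hM hlam hBc hBc
  set R := r + 1 with hR
  have hex : ∀ v κ, ∃ b, κ < R → κ ≠ h v % R →
      R * b + κ + 1 ≤ h v + R ∧ h v + 1 ≤ R * b + κ := by
    intro v κ
    by_cases hc : κ < R ∧ κ ≠ h v % R
    · obtain ⟨b, hb⟩ := exists_block (h v) κ R hc.1 hc.2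
      exact ⟨b, fun _ _ => hb⟩
    · exact ⟨0, fun h1 h2 => absurd ⟨h1, h2⟩ hc⟩
  choose blk hblk using hex
  set Bn := Finset.univ.sup h + 2 with hBn
  have hBn0 : 0 < Bn := by omega
  have hκ : ∀ g, g % R < R := fun g => Nat.mod_lt _ (by omega)
  have hblt : ∀ v g, g % R ≠ h v % R → blk v (g % R) < Bn := by
    intro v g hg
    have h1 := (hblk v _ (hκ g) hg).1
    have h2 : h v ≤ Finset.univ.sup h := Finset.le_sup (f := h) (mem_univ v)
    by_contra hc
    have h3 : h v + 2 ≤ blk v (g % R) := by omega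
    have h4 := Nat.mul_le_mul_left R h3
    have h5 : h v ≤ R * h v := Nat.le_mul_of_pos_left _ (by omega)
    rw [Nat.mul_add] at h4
    omega
  set O : V → Finset V := fun v => B v ∪ Finset.univ.filter fun w => v ∈ B w ∧ h v + 2 ≤ h w
    with hO
  set par : V → Finset V := fun v => (out v).erase v with hpar
  set Sx : V → Finset V := fun u => Finset.univ.filter fun p =>
    ∃ c ∈ O u, p ∈ par c ∧ h c + 1 ≤ h u + r ∧ h p + 1 ≤ h c + r with hSx
  set A : ℕ → Finset V := fun i => Finset.univ.filter fun v =>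
    i / Bn % R ≠ h v % R ∧ blk v (i / Bn % R) + i % Bn + 1 = Bn with hA
  have mA : ∀ i v, v ∈ A i ↔ i / Bn % R ≠ h v % R ∧ blk v (i / Bn % R) + i % Bn + 1 = Bn := by
    intro i v; simp [hA]
  have hOc : ∀ v, (O v).card ≤ M + 2 * M / lam := fun v =>
    (Finset.card_union_le _ _).trans
      (Nat.add_le_add (hBc v) ((Nat.le_div_iff_mul_le (by omega)).2 (hh1 v)))
  have hparc : ∀ v, (par v).card ≤ k := fun v => Finset.card_erase_le.trans (hout v)
  have same : ∀ i u v, u ∈ A i → v ∈ A i → h u + 1 ≤ h v + r := by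
    intro i u v hu hv
    obtain ⟨u1, u2⟩ := (mA i u).1 hu
    obtain ⟨v1, v2⟩ := (mA i v).1 hv
    have a1 := (hblk u _ (hκ _) u1).2
    have a2 := (hblk v _ (hκ _) v1).1
    have e : blk u (i / Bn % R) = blk v (i / Bn % R) := by omega
    rw [e] at a1
    omega
  let d : Data V := ⟨H, O, par, Sx, pos, A, fun i => i / Bn, k, S, j⟩
  have adjB : ∀ u v, H.Adj u v → u ∈ B v ∨ v ∈ B u := by
    intro u v huv
    simp only [hB, Finset.mem_union]
    rcases hH u v huv with h1 | h1 | h1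
    · rcases hp5 u (mem_univ u) v (mem_univ v) h1 with h2 | h2 <;> tauto
    · tauto
    · tauto
  have ok : d.Ok := by
    refine ⟨fun u v e => hp2 u (mem_univ u) v (mem_univ v) e, fun v w hw => ?_,
      fun v => Finset.notMem_erase _ _, hparc, fun i i' u v hi e hu hv huv => ?_,
      fun i u v hu hv hlt huv => ?_, fun i u c p hu hc hp h1 h2 => ?_⟩
    · exact Finset.mem_union_left _ (Finset.mem_union_right _ (Finset.mem_of_mem_erase hw))
    · rcases adjB u v huv with h1 | h1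
      · exact Finset.mem_union_left _ h1
      · refine Finset.mem_union_right _ (Finset.mem_filter.2 ⟨mem_univ _, h1, ?_⟩)
        obtain ⟨u1, u2⟩ := (mA i u).1 hu
        obtain ⟨v1, v2⟩ := (mA i' v).1 hv
        have e' : i / Bn = i' / Bn := e
        rw [e'] at u1 u2
        have a1 := (hblk u _ (hκ _) u1).1
        have a2 := (hblk v _ (hκ _) v1).2
        have b1 := Nat.div_add_mod i Bn
        have b2 := Nat.div_add_mod i' Bn
        rw [e'] at b1
        have c1 : blk v (i' / Bn % R) + 1 ≤ blk u (i' / Bn % R) := by omega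
        have c2 := Nat.mul_le_mul_left R c1
        rw [Nat.mul_succ] at c2
        omega
    · rcases hH u v huv with h1 | h1 | h1
      · rcases hp5 u (mem_univ u) v (mem_univ v) h1 with h2 | h2
        · have := hb u v h2
          exact absurd hlt (by show ¬ pos u < pos v; omega)
        · exact Or.inl (Finset.mem_union_left _ (Finset.mem_union_left _ h2))
      · exact Or.inr (Finset.mem_erase.2 ⟨huv.ne', h1⟩)
      · exact Or.inl (Finset.mem_union_left _ (Finset.mem_union_right _ h1))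
    · exact Finset.mem_filter.2 ⟨mem_univ _, c, h1, h2, same i c u hc hu, same i p c hp hc⟩
  have hP : 1 ≤ lam ^ r := Nat.one_le_pow _ _ (by omega)
  have hkM : k ≤ M := by omega
  have hΓ : ∀ p, (Finset.univ.filter fun b => p ∈ Sx b).card ≤
      (4 * M * lam ^ r) * (5 * M * lam ^ r) := by
    intro p
    have hsub : (Finset.univ.filter fun b => p ∈ Sx b) ⊆
        (Finset.univ.filter fun c => p ∈ B c ∧ h p + 1 ≤ h c + r).biUnion fun c =>
          (Finset.univ.filter fun b => c ∈ B b ∧ h c + 1 ≤ h b + r) ∪ B c := by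
      intro b hb
      obtain ⟨c, c1, c2, c3, c4⟩ := (Finset.mem_filter.1 (Finset.mem_filter.1 hb).2).2
      refine Finset.mem_biUnion.2 ⟨c, Finset.mem_filter.2 ⟨mem_univ _,
        Finset.mem_union_right _ (Finset.mem_of_mem_erase c2), c4⟩, ?_⟩
      rcases Finset.mem_union.1 c1 with c5 | c5
      · exact Finset.mem_union_left _ (Finset.mem_filter.2 ⟨mem_univ _, c5, c3⟩)
      · exact Finset.mem_union_right _ (Finset.mem_filter.1 c5).2.1
    refine (Finset.card_le_card hsub).trans (Finset.card_biUnion_le.trans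
      ((Finset.sum_le_card_nsmul _ _ (5 * M * lam ^ r) fun c _ => ?_).trans ?_))
    · have a1 := hh2 c
      have a2 := hBc c
      have a3 : M ≤ M * lam ^ r := Nat.le_mul_of_pos_right _ hP
      refine (Finset.card_union_le _ _).trans ?_
      nlinarith
    · rw [smul_eq_mul]; exact Nat.mul_le_mul_right _ (hh2 p)
  have hdiv : 2 * M / lam ≤ M := by
    apply Nat.div_le_of_le_mul; nlinarith
  have hSc : ∀ a, (Sx a).card ≤ 2 * M * M := by
    intro a
    have hsub : Sx a ⊆ (O a).biUnion par := by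
      intro p hp
      obtain ⟨c, c1, c2, -⟩ := (Finset.mem_filter.1 hp).2
      exact Finset.mem_biUnion.2 ⟨c, c1, c2⟩
    refine (Finset.card_le_card hsub).trans (Finset.card_biUnion_le.trans
      ((Finset.sum_le_card_nsmul _ _ M fun c _ => (hparc c).trans hkM).trans ?_))
    rw [smul_eq_mul]
    exact Nat.mul_le_mul_right _ ((hOc a).trans (by omega))
  have hΔ1 : 1 ≤ Δ := le_trans (Nat.succ_le_of_lt (by positivity)) hΔ
  refine Data.colorable ok (M + 2 * M / lam) hOc hS Δ (by exact_mod_cast hΔ1) (fun a => ?_) hj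
    (R * x * Bn) (R * x) (fun i hi => Nat.div_lt_of_lt_mul (by rwa [mul_comm] at hi))
    (fun v i i' hi hi' e => ?_) (fun v => ?_)
  · have hsub : (Finset.univ.filter fun b => d.adj a b) ⊆
        (Sx a).biUnion fun p => Finset.univ.filter fun b => p ∈ Sx b := by
      intro b hb
      obtain ⟨p, p1, p2⟩ := (Finset.mem_filter.1 hb).2
      exact Finset.mem_biUnion.2 ⟨p, p1, Finset.mem_filter.2 ⟨mem_univ _, p2⟩⟩
    have h1 := (Finset.card_le_card hsub).trans (Finset.card_biUnion_le.trans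
      (Finset.sum_le_card_nsmul _ _ _ fun p _ => hΓ p))
    rw [smul_eq_mul] at h1
    have h2 := h1.trans (Nat.mul_le_mul_right _ (hSc a))
    have h3 : 2 * M * M * (4 * M * lam ^ r * (5 * M * lam ^ r))
        = 40 * M ^ 4 * lam ^ (2 * r) := by ring
    rw [h3] at h2
    exact_mod_cast h2.trans hΔ
  · obtain ⟨-, u2⟩ := (mA i v).1 hi
    obtain ⟨-, v2⟩ := (mA i' v).1 hi'
    have e' : i / Bn = i' / Bn := e
    have b1 := Nat.div_add_mod i Bn
    have b2 := Nat.div_add_mod i' Bn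
    rw [e'] at b1 u2
    omega
  · refine hx.trans ((card_skip R x (h v % R) (hκ _)).trans ?_)
    refine Finset.card_le_card_of_injOn (fun g => Bn * g + (Bn - 1 - blk v (g % R))) ?_ ?_
    · intro g hg
      obtain ⟨g1, g2⟩ := Finset.mem_filter.1 (Finset.mem_coe.1 hg)
      have g3 := hblt v g g2
      have g4 : Bn - 1 - blk v (g % R) < Bn := by omega
      have e1 : (Bn * g + (Bn - 1 - blk v (g % R))) / Bn = g := by
        rw [Nat.mul_add_div hBn0, Nat.div_eq_of_lt g4, add_zero]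
      have e2 : (Bn * g + (Bn - 1 - blk v (g % R))) % Bn = Bn - 1 - blk v (g % R) := by
        rw [Nat.mul_add_mod, Nat.mod_eq_of_lt g4]
      refine Finset.mem_coe.2 (Finset.mem_filter.2 ⟨Finset.mem_range.2 ?_, (mA _ v).2 ?_⟩)
      · have := Nat.mul_le_mul_left Bn (show g + 1 ≤ R * x from Finset.mem_range.1 g1)
        rw [Nat.mul_succ, mul_comm Bn (R * x)] at this
        dsimp only
        omega
      · rw [e1, e2]
        exact ⟨g2, by omega⟩
    · intro g hg g' hg' e
      have g4 : ∀ y, Bn - 1 - y < Bn := fun y => by omega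
      have e1 := congrArg (· / Bn) e
      simpa only [Nat.mul_add_div hBn0, Nat.div_eq_of_lt (g4 _), add_zero] using e1

/-- choice of the parameters -/
theorem colorable_sqrt (D H : SimpleGraph V) (m k : ℕ) (hM : 0 < m + k) (hD : Degen D m)
    (out : V → Finset V) (hout : ∀ v, (out v).card ≤ k)
    (hH : ∀ u v, H.Adj u v → D.Adj u v ∨ v ∈ out u ∨ u ∈ out v) :
    H.Colorable (m + k + (Nat.sqrt (m + k) + 1) * (44 + 10 * (k + 1) ^ 2 +
      5 * (Nat.sqrt (Nat.log 2 (Nat.sqrt (m + k) + 1) + 1) + 1))) := by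
  set M := m + k with hMdef
  set q := Nat.sqrt M + 1 with hq
  set L := Nat.log 2 q + 1 with hL
  set g := Nat.sqrt L + 1 with hg
  have hq2 : 2 ≤ q := by have := Nat.sqrt_pos.2 hM; omega
  have hMq : M < q * q := Nat.lt_succ_sqrt M
  have hLg : L < g * g := Nat.lt_succ_sqrt L
  have hqL : q < 2 ^ L := Nat.lt_pow_succ_log_self (by norm_num) q
  have hLq : L ≤ q := Nat.log_lt_self 2 (by omega)
  have hgq : g ≤ q := by
    have h1 := Nat.sqrt_le_sqrt hLq
    have h2 := Nat.sqrt_lt_self (show 1 < q by omega)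
    omega
  have hg0 : 0 < g := by omega
  set r := q / g + 1 with hr
  have hrg : q < r * g := by
    rw [hr, mul_comm]; exact Nat.lt_mul_div_succ q hg0
  have hrg' : r * g ≤ q + g := by
    have := Nat.div_mul_le_self q g
    rw [hr, Nat.succ_mul]; omega
  have hrq : r ≤ q + 1 := by have := Nat.div_le_self q g; omega
  have hd : 2 * M / q ≤ 2 * q := by
    apply Nat.div_le_of_le_mul; nlinarith
  set j := 4 * (k + 1) ^ 2 * q + L * (16 + 2 * r) with hj
  set B := M + 2 * M / q + (k + 1) * ((k + 1) * q) + j with hB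
  set c := 20 + 5 * (k + 1) ^ 2 + 2 * g with hc
  have hLr : L * r ≤ g * q + q := by
    have h1 : L * r = L * (q / g) + L := by rw [hr]; ring
    have h2 : L * (q / g) ≤ g * g * (q / g) := Nat.mul_le_mul_right _ hLg.le
    have h3 : g * (q / g) ≤ q := Nat.mul_div_le q g
    have h4 : g * g * (q / g) ≤ g * q := by rw [mul_assoc]; exact Nat.mul_le_mul_left _ h3
    omega
  have hBc : B ≤ M + q * c := by
    rw [hB, hj, hc]; nlinarith
  have hr0 : 0 < r := Nat.succ_pos _
  refine (colorable_param D H m k q r ((k + 1) * q) j (B / r + 1) hM hq2 hr0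
    (Nat.mul_pos (by omega) (by omega)) hD out hout hH (q ^ (14 + 2 * r)) ?_ ?_
    (Nat.lt_mul_div_succ B hr0).le).mono ?_
  · have h1 : M ^ 4 ≤ (q * q) ^ 4 := Nat.pow_le_pow_left hMq.le 4
    have h2 : 2 ^ 6 ≤ q ^ 6 := Nat.pow_le_pow_left hq2 6
    calc 40 * M ^ 4 * q ^ (2 * r) ≤ q ^ 6 * (q * q) ^ 4 * q ^ (2 * r) :=
          Nat.mul_le_mul_right _ (Nat.mul_le_mul (by omega) h1)
      _ = q ^ (14 + 2 * r) := by ring
  · have h1 : 4 * q ^ (14 + 2 * r) ≤ 2 ^ (L * (16 + 2 * r)) := by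
      have h2 : 2 ^ 2 ≤ q ^ 2 := Nat.pow_le_pow_left hq2 2
      calc 4 * q ^ (14 + 2 * r) ≤ q ^ 2 * q ^ (14 + 2 * r) := Nat.mul_le_mul_right _ h2
        _ = q ^ (16 + 2 * r) := by ring
        _ ≤ (2 ^ L) ^ (16 + 2 * r) := Nat.pow_le_pow_left hqL.le _
        _ = _ := by rw [← pow_mul]
    have h1' : 4 * ((q ^ (14 + 2 * r) : ℕ) : ℝ) ≤ 2 ^ (L * (16 + 2 * r)) := by exact_mod_cast h1
    have h3 : (k + 2) * ((M + 2 * M / q) * k ^ 2) ≤ 2 * (k + 1) ^ 2 * q * ((k + 1) * q) := by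
      have a1 : M + 2 * M / q ≤ 2 * (q * q) := by nlinarith
      have a2 : (k + 2) * k ^ 2 ≤ (k + 1) ^ 3 := by nlinarith
      calc (k + 2) * ((M + 2 * M / q) * k ^ 2) = (M + 2 * M / q) * ((k + 2) * k ^ 2) := by ring
        _ ≤ 2 * (q * q) * (k + 1) ^ 3 := Nat.mul_le_mul a1 a2
        _ = _ := by ring
    have h4 : ((k : ℝ) + 2) * (((M + 2 * M / q : ℕ) : ℝ) * (k : ℝ) ^ 2) / (((k + 1) * q : ℕ) : ℝ)
        ≤ ((2 * (k + 1) ^ 2 * q : ℕ) : ℝ) := by
      rw [div_le_iff₀ (by positivity)]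
      exact_mod_cast h3
    have h5 : Real.exp ((2 * (k + 1) ^ 2 * q : ℕ) : ℝ) ≤ 2 ^ (4 * (k + 1) ^ 2 * q) := by
      have e1 : 4 * (k + 1) ^ 2 * q = 2 * (2 * (k + 1) ^ 2 * q) := by ring
      rw [← mul_one ((2 * (k + 1) ^ 2 * q : ℕ) : ℝ), Real.exp_nat_mul, e1,
        pow_mul (2 : ℝ) 2 (2 * (k + 1) ^ 2 * q)]
      exact pow_le_pow_left₀ (Real.exp_pos 1).le (by linarith [Real.exp_one_lt_d9]) _
    have e2 : (2 : ℝ) ^ j = 2 ^ (L * (16 + 2 * r)) * 2 ^ (4 * (k + 1) ^ 2 * q) := by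
      rw [hj, pow_add (2 : ℝ) (4 * (k + 1) ^ 2 * q) (L * (16 + 2 * r)), mul_comm]
    rw [e2]
    exact mul_le_mul h1' ((Real.exp_le_exp.2 h4).trans h5) (by positivity) (by positivity)
  · have h1 : r * (B / r) ≤ B := Nat.mul_div_le B r
    have h2 : B / r ≤ q * g + q * c := by
      have a1 : q * (B / r) ≤ r * g * (B / r) := Nat.mul_le_mul_right _ hrg.le
      have a2 : r * g * (B / r) ≤ g * B := by
        rw [mul_comm r g, mul_assoc]; exact Nat.mul_le_mul_left _ h1
      have a3 : g * B ≤ g * (q * q + q * c) := Nat.mul_le_mul_left _ (by omega)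
      have a4 : g * (q * c) ≤ q * (q * c) := Nat.mul_le_mul_right _ hgq
      have a5 : q * (B / r) ≤ q * (q * g + q * c) := by nlinarith
      exact Nat.le_of_mul_le_mul_left a5 (by omega)
    have h3 : q * (44 + 10 * (k + 1) ^ 2 + 5 * g) = 2 * (q * c) + q * g + 4 * q := by
      rw [hc]; ring
    have h4 : (r + 1) * (B / r + 1) = r * (B / r) + r + B / r + 1 := by ring
    omega

theorem count_real (M k : ℕ) (hM : 0 < M) :
    (((Nat.sqrt M + 1) * (44 + 10 * (k + 1) ^ 2 +
      5 * (Nat.sqrt (Nat.log 2 (Nat.sqrt M + 1) + 1) + 1)) : ℕ) : ℝ) ≤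
      150 * (((k : ℝ) + 1) ^ 2 + Real.sqrt (Real.log M)) * Real.sqrt M := by
  have hM' : (1 : ℝ) ≤ M := by exact_mod_cast hM
  have s1 : 1 ≤ Real.sqrt M := Real.one_le_sqrt.2 hM'
  have s2 : (Nat.sqrt M : ℝ) ≤ Real.sqrt M := Real.nat_sqrt_le_real_sqrt
  have l0 : 0 ≤ Real.log M := Real.log_nonneg hM'
  set q := Nat.sqrt M + 1 with hq
  have q1 : (q : ℝ) ≤ 2 * Real.sqrt M := by rw [hq]; push_cast; linarith
  have q2 : ((Nat.log 2 q : ℕ) : ℝ) ≤ 1 + Real.log M := by
    have a1 : 2 ^ Nat.log 2 q ≤ q := Nat.pow_log_le_self 2 (by omega)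
    have a2 : (2 : ℝ) ^ Nat.log 2 q ≤ 2 * Real.sqrt M := le_trans (by exact_mod_cast a1) q1
    have a3 := Real.log_le_log (by positivity) a2
    rw [Real.log_pow, Real.log_mul (by norm_num) (by positivity),
      Real.log_sqrt (by positivity)] at a3
    have a4 := Real.log_two_gt_d9
    by_contra hc
    rw [not_le] at hc
    nlinarith
  set L := Nat.log 2 q + 1 with hL
  have t0 := Real.sqrt_nonneg (Real.log M)
  have t1 := Real.sq_sqrt l0
  have g1 : (Nat.sqrt L : ℝ) ≤ 2 + Real.sqrt (Real.log M) := by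
    refine Real.nat_sqrt_le_real_sqrt.trans (Real.sqrt_le_iff.2 ⟨by positivity, ?_⟩)
    rw [hL]; push_cast; nlinarith
  have k1 : (1 : ℝ) ≤ ((k : ℝ) + 1) ^ 2 := by
    have : (0 : ℝ) ≤ k := by positivity
    nlinarith
  push_cast
  calc (q : ℝ) * (44 + 10 * ((k : ℝ) + 1) ^ 2 + 5 * ((Nat.sqrt L : ℝ) + 1))
      ≤ (2 * Real.sqrt M) * (75 * (((k : ℝ) + 1) ^ 2 + Real.sqrt (Real.log M))) :=
        mul_le_mul q1 (by linarith) (by positivity) (by positivity)
    _ = _ := by ring

end Pool.Agent.P.MP_c25521_co
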