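import Mathlib
import Pool.Agent.P.MP_c25521_co.Sqrt

/-!
Potentials of the colouring process with several speeds.
-/

namespace Pool.Agent.P.MP_c25521_co.Multi

open Finset Pool.Agent.P.MP_d36d9e_co Pool.Agent.P.MP_c25521_co

set_option linter.unusedSectionVars false

variable {V : Type} [Fintype V] [DecidableEq V]

theorem safe_mono {adj : V → V → Prop} {y z : V → ℝ} (h : Safe adj y) (hz : ∀ a, z a ≤ y a) :
    Safe adj z := by
  obtain ⟨x, h0, hg, hx⟩ := h
  exact ⟨x, h0, hg, fun a => (hz a).trans (hx a)⟩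

theorem safe_step {adj : V → V → Prop} (hs : ∀ a b, adj a b → adj b a) {y y1 y2 : V → ℝ}
    (h : Safe adj y) (C : Finset V) (hC : ∀ a ∈ C, ∀ b ∈ C, a ≠ b → adj a b)
    (h1 : ∀ a, 0 ≤ y1 a) (h2 : ∀ a, 0 ≤ y2 a) (o1 : ∀ a, a ∉ C → y1 a ≤ y a)
    (o2 : ∀ a, a ∉ C → y2 a ≤ y a) (t : ℝ) (t0 : 0 ≤ t) (t1 : t ≤ 1)
    (hin : ∀ a ∈ C, t * y1 a + (1 - t) * y2 a ≤ y a) :
    Safe adj y1 ∨ Safe adj y2 := by
  have key := Safe.step hs h (y1 := fun a => if a ∈ C then y1 a else y a)
    (y2 := fun a => if a ∈ C then y2 a else y a) C hC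
    (fun a => by
      split_ifs with ha
      exacts [h1 a, (h1 a).trans (o1 a ha)])
    (fun a => by
      split_ifs with ha
      exacts [h2 a, (h2 a).trans (o2 a ha)])
    (fun a ha => if_neg ha) (fun a ha => if_neg ha) t t0 t1
    (fun a ha => by simpa only [if_pos ha] using hin a ha)
  rcases key with k | ⟨-, k⟩
  · refine Or.inl (safe_mono k fun a => ?_)
    split_ifs with ha
    exacts [le_rfl, o1 a ha]
  · refine Or.inr (safe_mono k fun a => ?_)
    split_ifs with ha
    exacts [le_rfl, o2 a ha]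

/-- numerical parameters of the process -/
structure Par where
  m : ℕ
  a : ℕ → ℕ
  r : ℕ → ℝ
  th : ℝ

namespace Par

variable (c : Par)

/-- cumulative probability of joining -/
noncomputable def rho (m s : ℕ) : ℝ := ∑ i ∈ range m, if c.a i ≤ s then c.r i else 0

noncomputable def gw (i : ℕ) : ℝ := 1 + c.r i / 2

/-- hypotheses on the parameters -/
structure Ok : Prop where
  r0 : ∀ i, 0 ≤ c.r i
  r1 : ∑ i ∈ range c.m, c.r i ≤ 1

/-- steps made inside window `i` -/
def cap (i s : ℕ) : ℕ := min s (c.a (i + 1)) - c.a i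

def dead (D : Finset V) (t : V → ℕ) (P : Finset V) (i : ℕ) : Prop :=
  ∃ p ∈ P, p ∈ D ∧ t p ≤ c.a (i + 1)

noncomputable def psi0 (t : V → ℕ) (P : Finset V) (i : ℕ) : ℝ :=
  c.gw i ^ (∑ p ∈ P, c.cap i (t p)) / c.gw i ^ ((c.a (i + 1) - c.a i) * P.card)

open Classical in
/-- window potential of one set -/
noncomputable def psi (D : Finset V) (t0 t : V → ℕ) (h : V → ℝ) (ld : Option V) (P : Finset V)
    (i : ℕ) : ℝ :=
  if c.dead D t0 P i then 0 else
    ld.elim (c.psi0 t P i) fun v => c.psi0 t0 P i * c.gw i ^ P.card * h v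

/-- window potential of all sets of a given size -/
noncomputable def phi (D : Finset V) (t0 t : V → ℕ) (h : V → ℝ)
    (ld : Finset V → ℕ → Option V) (Z : Finset V) (m i : ℕ) : ℝ :=
  ∑ P ∈ Z.powersetCard m, c.psi D t0 t h (ld P i) P i

/-- the vertex has passed `s` steps without being coloured -/
def full (D : Finset V) (t : V → ℕ) (s : ℕ) (q : V) : Prop := s ≤ t q ∧ (q ∈ D → s + 1 ≤ t q)

instance (D : Finset V) (t : V → ℕ) (s : ℕ) : DecidablePred (full D t s) := fun q => by
  unfold full; infer_instance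

/-- the new leader after `w` has joined -/
def newld (t : V → ℕ) (w : V) (ld : Finset V → ℕ → Option V) (P : Finset V) (i : ℕ) : Option V :=
  if ld P i = none ∧ w ∈ P ∧ c.a i ≤ t w ∧ t w < c.a (i + 1) then some w else ld P i

variable {c}

theorem rho_nonneg (ok : c.Ok) (m s : ℕ) : 0 ≤ c.rho m s :=
  Finset.sum_nonneg fun i _ => by
    split_ifs
    exacts [ok.r0 i, le_rfl]

theorem rho_le_one (ok : c.Ok) (s : ℕ) : c.rho c.m s ≤ 1 :=
  le_trans (Finset.sum_le_sum fun i _ => by
    split_ifs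
    exacts [le_rfl, ok.r0 i]) ok.r1

theorem le_rho (ok : c.Ok) {m s i : ℕ} (hi : i < m) (hs : c.a i ≤ s) : c.r i ≤ c.rho m s := by
  have := Finset.single_le_sum (f := fun i => if c.a i ≤ s then c.r i else 0)
    (fun i _ => by
      split_ifs
      exacts [ok.r0 i, le_rfl]) (Finset.mem_range.2 hi)
  unfold rho
  simpa only [if_pos hs] using this

theorem rho_mono (ok : c.Ok) {m m' : ℕ} (h : m ≤ m') (s : ℕ) : c.rho m s ≤ c.rho m' s :=
  Finset.sum_le_sum_of_subset_of_nonneg (Finset.range_mono h) fun i _ _ => by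
    split_ifs
    exacts [ok.r0 i, le_rfl]

theorem rho_normal (ok : c.Ok) {m m' s : ℕ} (hs : ∀ i, m ≤ i → s < c.a i) :
    c.rho m' s ≤ c.rho m s := by
  rcases le_total m' m with h | h
  · exact rho_mono ok h s
  · unfold rho
    rw [← Finset.sum_range_add_sum_Ico _ h, Finset.sum_eq_zero (s := Ico m m') fun i hi => by
      rw [if_neg (by have := hs i (Finset.mem_Ico.1 hi).1; omega)], add_zero]

theorem one_le_gw (ok : c.Ok) (i : ℕ) : 1 ≤ c.gw i := by
  unfold gw; linarith [ok.r0 i]

theorem psi0_pos (ok : c.Ok) (t : V → ℕ) (P : Finset V) (i : ℕ) : 0 < c.psi0 t P i := by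
  unfold psi0
  have := one_le_gw ok i
  positivity

theorem psi0_le (ok : c.Ok) {t t' : V → ℕ} {P : Finset V} {i n : ℕ}
    (h : ∑ p ∈ P, c.cap i (t' p) ≤ ∑ p ∈ P, c.cap i (t p) + n) :
    c.psi0 t' P i ≤ c.psi0 t P i * c.gw i ^ n := by
  unfold psi0
  have h1 := one_le_gw ok i
  rw [div_mul_eq_mul_div, ← pow_add]
  exact div_le_div_of_nonneg_right (pow_le_pow_right₀ h1 h) (by positivity)

theorem psi0_congr {t t' : V → ℕ} {P : Finset V} {i : ℕ}
    (h : ∀ p ∈ P, c.cap i (t' p) = c.cap i (t p)) : c.psi0 t' P i = c.psi0 t P i := by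
  unfold psi0
  rw [Finset.sum_congr rfl h]

theorem psi_nonneg (ok : c.Ok) (D : Finset V) (t0 t : V → ℕ) {h : V → ℝ} (hh : ∀ v, 0 ≤ h v)
    (ld : Option V) (P : Finset V) (i : ℕ) : 0 ≤ c.psi D t0 t h ld P i := by
  unfold psi
  split_ifs
  · exact le_rfl
  · rcases ld with _ | v
    · exact (psi0_pos ok _ _ _).le
    · have := one_le_gw ok i
      exact mul_nonneg (mul_nonneg (psi0_pos ok _ _ _).le (by positivity)) (hh v)

theorem phi_nonneg (ok : c.Ok) (D : Finset V) (t0 t : V → ℕ) {h : V → ℝ} (hh : ∀ v, 0 ≤ h v)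
    (ld : Finset V → ℕ → Option V) (Z : Finset V) (m i : ℕ) : 0 ≤ c.phi D t0 t h ld Z m i :=
  Finset.sum_nonneg fun _ _ => psi_nonneg ok _ _ _ hh _ _ _

/-- a step that the potential does not see -/
theorem phi_local (ok : c.Ok) (D : Finset V) (t0 : V → ℕ) {t t' : V → ℕ} {h h' : V → ℝ}
    {ld ld' : Finset V → ℕ → Option V} (Z : Finset V) (m i : ℕ) (ht : ∀ p ∈ Z, t' p = t p)
    (hl : ∀ P ⊆ Z, ld' P i = ld P i) (hh : ∀ P ⊆ Z, ∀ v, ld P i = some v → h' v ≤ h v) :
    c.phi D t0 t' h' ld' Z m i ≤ c.phi D t0 t h ld Z m i := by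
  refine Finset.sum_le_sum fun P hP => ?_
  have hPZ := (Finset.mem_powersetCard.1 hP).1
  rw [hl P hPZ]
  unfold psi
  split_ifs
  · exact le_rfl
  · rcases hld : ld P i with _ | v
    · exact le_of_eq (psi0_congr fun p hp => by rw [ht p (hPZ hp)])
    · have := one_le_gw ok i
      exact mul_le_mul_of_nonneg_left (hh P hPZ v hld)
        (mul_nonneg (psi0_pos ok _ _ _).le (by positivity))

theorem phi_step (ok : c.Ok) (D : Finset V) (t0 t : V → ℕ) {h h1 h2 : V → ℝ}
    (ld : Finset V → ℕ → Option V) (Z : Finset V) (m i : ℕ) (w : V) (hi : i < c.m)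
    (hth : c.th * c.gw i ^ m ≤ 1 / 2) (ht : ∀ p, t0 p ≤ t p) (h10 : 0 ≤ h1 w)
    (hw : h1 w ≤ c.th)
    (hh : ∀ v, c.rho c.m (t w) * h1 v + (1 - c.rho c.m (t w)) * h2 v ≤ h v) :
    c.rho c.m (t w) *
        c.phi D t0 (Function.update t w (t w + 1)) h1 (c.newld t w ld) Z m i +
      (1 - c.rho c.m (t w)) * c.phi D t0 (Function.update t w (t w + 1)) h2 ld Z m i ≤
      c.phi D t0 t h ld Z m i := by
  unfold phi
  rw [Finset.mul_sum, Finset.mul_sum, ← Finset.sum_add_distrib]
  refine Finset.sum_le_sum fun P hP => ?_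
  have hPm := (Finset.mem_powersetCard.1 hP).2
  have hg := one_le_gw ok i
  have hr0 := rho_nonneg ok c.m (t w)
  have hr1 := rho_le_one ok (t w)
  set ρ := c.rho c.m (t w) with hρ
  unfold psi
  split_ifs
  · simp
  rcases hld : ld P i with _ | v
  · by_cases hin : w ∈ P ∧ c.a i ≤ t w ∧ t w < c.a (i + 1)
    · have e1 : c.newld t w ld P i = some w := by
        unfold newld; rw [if_pos ⟨hld, hin⟩]
      rw [e1]
      simp only [Option.elim]
      have e3 : c.psi0 t0 P i ≤ c.psi0 t P i := by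
        have := psi0_le ok (t := t) (t' := t0) (P := P) (i := i) (n := 0)
          (Finset.sum_le_sum fun p _ => by have := ht p; unfold cap; omega)
        simpa using this
      have e4 : c.psi0 (Function.update t w (t w + 1)) P i ≤ c.psi0 t P i * c.gw i := by
        have := psi0_le ok (t := t) (t' := Function.update t w (t w + 1)) (P := P) (i := i)
          (n := 1) (by
            rw [← Finset.add_sum_erase _ _ hin.1, ← Finset.add_sum_erase _ _ hin.1,
              Finset.sum_congr rfl (g := fun p => c.cap i (t p)) (fun p hp => by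
                rw [Function.update_of_ne (Finset.mem_erase.1 hp).1])]
            simp only [Function.update_self]
            unfold cap
            omega)
        simpa using this
      have e5 : c.gw i ≤ 1 + ρ / 2 := by
        have := le_rho ok hi hin.2.1
        unfold gw
        linarith
      have p1 := psi0_pos ok t P i
      have p2 := psi0_pos ok t0 P i
      have e6 : c.psi0 t0 P i * c.gw i ^ P.card * h1 w ≤ c.psi0 t P i * (1 / 2) := by
        rw [mul_assoc]
        refine mul_le_mul e3 ?_ (mul_nonneg (by positivity) h10) p1.le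
        calc _ ≤ c.gw i ^ P.card * c.th := mul_le_mul_of_nonneg_left hw (by positivity)
          _ ≤ _ := by rw [hPm]; linarith
      have f1 := mul_le_mul_of_nonneg_left e6 hr0
      have f2 := mul_le_mul_of_nonneg_left
        (e4.trans (mul_le_mul_of_nonneg_left e5 p1.le)) (sub_nonneg.2 hr1)
      nlinarith [mul_nonneg (mul_nonneg hr0 hr0) p1.le]
    · have e1 : c.newld t w ld P i = none := by
        unfold newld; rw [if_neg (fun hh => hin hh.2), hld]
      rw [e1]
      simp only [Option.elim]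
      have e2 : c.psi0 (Function.update t w (t w + 1)) P i = c.psi0 t P i :=
        psi0_congr fun p hpP => by
          by_cases hpw : p = w
          · subst hpw
            simp only [Function.update_self]
            unfold cap
            have : ¬ (c.a i ≤ t p ∧ t p < c.a (i + 1)) := fun hh => hin ⟨hpP, hh⟩
            omega
          · rw [Function.update_of_ne hpw]
      rw [e2]
      linarith
  · have e1 : c.newld t w ld P i = some v := by
      unfold newld; rw [if_neg (fun hh => by rw [hld] at hh; simp at hh), hld]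
    rw [e1]
    simp only [Option.elim]
    have p2 : 0 ≤ c.psi0 t0 P i * c.gw i ^ P.card :=
      mul_nonneg (psi0_pos ok t0 P i).le (by positivity)
    have := mul_le_mul_of_nonneg_left (hh v) p2
    linarith

/-- the end of a phase -/
theorem phi_end (ok : c.Ok) (D K : Finset V) (t0 t : V → ℕ) {h : V → ℝ} (h' : V → ℝ)
    (ld : Finset V → ℕ → Option V) (Z : Finset V) (m i : ℕ) (hh : ∀ v, 0 ≤ h v)
    (ht : ∀ p, t p ≤ t0 p + 1) (hD : ∀ p ∈ D, t p = t0 p)
    (hl : ∀ P v, ld P i = some v → v ∈ P ∧ t0 v < c.a (i + 1) ∧ (v ∉ K → h v = 1)) :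
    c.phi (D ∪ K) t t h' (fun _ _ => none) Z m i ≤ c.phi D t0 t h ld Z m i := by
  refine Finset.sum_le_sum fun P _ => ?_
  by_cases h1 : c.dead (D ∪ K) t P i
  · have : c.psi (D ∪ K) t t h' none P i = 0 := by unfold psi; rw [if_pos h1]
    rw [this]
    exact psi_nonneg ok _ _ _ hh _ _ _
  have h2 : ¬ c.dead D t0 P i := fun ⟨p, a1, a2, a3⟩ =>
    h1 ⟨p, a1, Finset.mem_union_left _ a2, by rw [hD p a2]; exact a3⟩
  unfold psi
  rw [if_neg h1, if_neg h2]
  rcases hld : ld P i with _ | v
  · exact le_rfl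
  · simp only [Option.elim]
    obtain ⟨b1, b2, b3⟩ := hl P v hld
    rw [b3 fun hK => h1 ⟨v, b1, Finset.mem_union_right _ hK, by have := ht v; omega⟩, mul_one]
    refine psi0_le ok ?_
    rw [Finset.card_eq_sum_ones, ← Finset.sum_add_distrib]
    exact Finset.sum_le_sum fun p _ => by have := ht p; unfold cap; omega

theorem phi_full (ok : c.Ok) (D : Finset V) (t : V → ℕ) {h : V → ℝ} (hh : ∀ v, 0 ≤ h v)
    {Z F : Finset V} (m i : ℕ) (hF : F ⊆ Z)
    (hf : ∀ p ∈ F, full D t (c.a (i + 1)) p) :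
    (F.card.choose m : ℝ) ≤ c.phi D t t h (fun _ _ => none) Z m i := by
  have h1 : ∀ P ∈ F.powersetCard m, c.psi D t t h none P i = 1 := by
    intro P hP
    have hPF := (Finset.mem_powersetCard.1 hP).1
    unfold psi
    rw [if_neg (fun ⟨p, a1, a2, a3⟩ => by have := (hf p (hPF a1)).2 a2; omega)]
    simp only [Option.elim]
    unfold psi0
    rw [Finset.sum_congr rfl (g := fun _ => c.a (i + 1) - c.a i) (fun p hp => by
      have := (hf p (hPF hp)).1; unfold cap; omega), Finset.sum_const, smul_eq_mul, mul_comm]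
    have := one_le_gw ok i
    exact div_self (by positivity)
  calc (F.card.choose m : ℝ) = ∑ P ∈ F.powersetCard m, c.psi D t t h none P i := by
        rw [Finset.sum_congr rfl h1, Finset.sum_const, Finset.card_powersetCard]; simp
    _ ≤ _ := Finset.sum_le_sum_of_subset_of_nonneg (Finset.powersetCard_mono hF)
        fun P _ _ => psi_nonneg ok _ _ _ hh _ _ _

theorem phi_start (h : V → ℝ) (Z : Finset V) (m i : ℕ) :
    c.phi ∅ (fun _ => 0) (fun _ => 0) h (fun _ _ => none) Z m i =
      (Z.card.choose m : ℝ) / c.gw i ^ ((c.a (i + 1) - c.a i) * m) := by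
  have h1 : ∀ P ∈ Z.powersetCard m, c.psi ∅ (fun _ => 0) (fun _ => 0) h none P i =
      1 / c.gw i ^ ((c.a (i + 1) - c.a i) * m) := by
    intro P hP
    unfold psi
    rw [if_neg (fun ⟨p, _, a2, _⟩ => by simp at a2)]
    simp [psi0, cap, (Finset.mem_powersetCard.1 hP).2]
  unfold phi
  rw [Finset.sum_congr rfl h1, Finset.sum_const, Finset.card_powersetCard, nsmul_eq_mul,
    mul_one_div]

end Par

end Pool.Agent.P.MP_c25521_co.Multi
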