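import Mathlib
import Pool.Agent.P.MP_c25521_co.MPsi

/-!
The colouring process with several speeds, derandomised by the adaptive local lemma.
-/

namespace Pool.Agent.P.MP_c25521_co.Multi

open Finset Pool.Agent.P.MP_d36d9e_co Pool.Agent.P.MP_c25521_co Par

set_option linter.unusedSectionVars false

variable {V ι : Type} [Fintype V] [DecidableEq V] [Fintype ι]

/-- the data of the process -/
structure Data (V ι : Type) where
  H : SimpleGraph V
  O : V → Finset V
  par : V → Finset V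
  S1 : V → Finset V
  Lt : V → Finset V
  Sx : V → Finset V
  pos : V → ℕ
  A : ℕ → Finset V
  col : ℕ → ℕ
  c : Par
  lo : ℕ
  Z : V → ι → Finset V
  w : ι → ℕ
  b : ι → ℕ
  n : V → ι → ℕ
  j : ℕ
  y : ℕ
  β : ℕ
  Y : ℝ

/-- state inside a phase -/
structure St (V : Type) where
  J : Finset V
  pend : V → Option V
  lead : Finset V → ℕ → Option V
  t : V → ℕ
  l : V → ℕ

namespace Data

variable (d : Data V ι)

def adj (a b : V) : Prop := ∃ p, p ∈ d.Sx a ∧ p ∈ d.Sx b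

/-- total joining probability of the parents that are still to come -/
noncomputable def hz (m i : ℕ) (D : Finset V) (t0 : V → ℕ) (τ : ℕ) (E : Finset V) (v : V) : ℝ :=
  ∑ q ∈ (d.par v).filter (fun q => q ∈ d.A i ∧ q ∉ D ∧ τ ≤ d.pos q ∧ q ∈ E), d.c.rho m (t0 q)

def cnt (D : Finset V) (t : V → ℕ) (u : V) (x : ι) : ℕ :=
  ((d.Z u x).filter (full D t (d.c.a (d.w x + 1)))).card

def bad (D : Finset V) (t : V → ℕ) (u : V) : ℕ :=
  ((d.S1 u).filter fun p => p ∈ D ∧ (d.c.a d.lo + 1 ≤ t p ∨ p ∉ d.Lt u)).card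

noncomputable def load (D : Finset V) (t : V → ℕ) (u c : V) : ℝ :=
  ∑ q ∈ d.par c ∩ d.Lt u, ∑ i ∈ range d.lo, if full D t (d.c.a i) q then d.c.r i else 0

/-- hypotheses on the data -/
structure Ok : Prop where
  inj : ∀ u v, d.pos u = d.pos v → u = v
  parO : ∀ v, d.par v ⊆ d.O v
  irr : ∀ v, v ∉ d.par v
  cross : ∀ i i' u v, i < i' → d.col i = d.col i' → u ∈ d.A i → v ∈ d.A i' → d.H.Adj u v →
    u ∈ d.O v
  inner : ∀ i u v, u ∈ d.A i → v ∈ d.A i → d.pos u < d.pos v → d.H.Adj u v →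
    u ∈ d.O v ∨ v ∈ d.par u
  near1 : ∀ i u c p, u ∈ d.A i → c ∈ d.A i → p ∈ d.A i → c ∈ d.O u → p ∈ d.par c → p ∈ d.S1 u
  subL : ∀ u, d.Lt u ⊆ d.Sx u
  sub : ∀ u x, d.Z u x ⊆ d.Sx u
  near2 : ∀ i u x p q, p ∈ d.Z u x → p ∈ d.A i → q ∈ d.A i → q ∈ d.par p → q ∈ d.Sx u
  par : d.c.Ok
  lom : d.lo ≤ d.c.m
  amono : ∀ i, d.lo ≤ i → d.c.a d.lo ≤ d.c.a i
  wm : ∀ x, d.w x < d.c.m
  gb : ∀ x, d.c.th * d.c.gw (d.w x) ^ d.b x ≤ 1 / 2
  bn : ∀ u x, d.b x ≤ d.n u x
  th0 : 0 ≤ d.c.th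
  th4 : d.c.th ≤ 1 / 4
  hth : ∀ D t i c, c ∈ d.A i → (∀ x, d.cnt D t c x < d.n c x) →
    d.hz d.c.m i D t 0 Finset.univ c ≤ d.c.th
  hfin : ∀ D t u, (∀ x, d.cnt D t u x < d.n u x) →
    (u ∉ D → t u < d.y) ∧ d.bad D t u ≤ d.β ∧ ∑ c ∈ d.O u, d.load D t u c ≤ d.Y

open Classical in
noncomputable def hf (i : ℕ) (D : Finset V) (t0 : V → ℕ) (τ : ℕ) (J : Finset V) (v : V) : ℝ :=
  if ∃ q ∈ d.par v, q ∈ J then 1 else d.hz d.c.m i D t0 τ Finset.univ v

noncomputable def ex (i : ℕ) (D : Finset V) (t0 : V → ℕ) (τ : ℕ) (pd : Option V) (u : V) : ℝ :=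
  pd.elim 0 (d.hz d.lo i D t0 τ (d.Lt u))

noncomputable def e2 (l : ℕ) (x : ℝ) : ℝ := 2 ^ l * Real.exp (d.Y + d.c.th * d.β + x) / 2 ^ d.j

noncomputable def win (D : Finset V) (t0 t : V → ℕ) (h : V → ℝ)
    (ld : Finset V → ℕ → Option V) (u : V) : ℝ :=
  ∑ x, d.c.phi D t0 t h ld (d.Z u x) (d.b x) (d.w x) / (d.n u x).choose (d.b x)

noncomputable def pot (i : ℕ) (D : Finset V) (t0 : V → ℕ) (cs : V → ℝ) (τ : ℕ) (s : St V)
    (u : V) : ℝ :=
  d.win D t0 s.t (d.hf i D t0 τ s.J) s.lead u +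
    d.e2 (s.l u) (d.ex i D t0 τ (s.pend u) u - d.ex i D t0 0 (s.pend u) u - cs u)

noncomputable def potB (D : Finset V) (t l : V → ℕ) (cs : V → ℝ) (u : V) : ℝ :=
  d.win D t t (fun _ => 0) (fun _ _ => none) u + d.e2 (l u) (-cs u)

def pre (D : Finset V) (f : V → ℕ) (i : ℕ) (v : V) : Prop := ∃ w ∈ d.O v, w ∈ D ∧ f w = d.col i

open Classical in
/-- invariant between phases -/
structure Inv (i : ℕ) (D : Finset V) (f t l : V → ℕ) (cs : V → ℝ) : Prop where
  prop : ∀ u ∈ D, ∀ v ∈ D, d.H.Adj u v → f u ≠ f v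
  src : ∀ v ∈ D, ∃ i' < i, v ∈ d.A i' ∧ f v = d.col i'
  acct : ∀ v, v ∉ D → ((range i).filter fun i' => v ∈ d.A i').card ≤
    ((range i).filter fun i' => v ∈ d.A i' ∧ d.pre D f i' v).card + t v + l v + d.bad D t v
  cons : ∀ u, cs u ≤ ∑ c ∈ d.O u ∩ D, d.load D t u c + d.c.th * (l u + d.bad D t u : ℕ)
  safe : Safe d.adj (d.potB D t l cs)

/-- invariant inside a phase -/
structure PInv (i : ℕ) (D : Finset V) (f t0 l0 : V → ℕ) (cs : V → ℝ) (τ : ℕ) (s : St V) :
    Prop where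
  jsub : ∀ v ∈ s.J, v ∈ d.A i ∧ v ∉ D ∧ d.pos v < τ ∧ ¬ d.pre D f i v
  jind : ∀ u ∈ s.J, ∀ v ∈ s.J, d.pos u < d.pos v → u ∉ d.O v
  fin : ∀ v ∈ d.A i, v ∉ D → d.pos v < τ →
    d.pre D f i v ∨ s.t v = t0 v + 1 ∨ ∃ c, s.pend v = some c
  pendJ : ∀ u c, s.pend u = some c → c ∈ s.J ∧ c ∈ d.O u ∧ u ∈ d.A i
  pendEx : ∀ u ∈ d.A i, ∀ w ∈ s.J, w ∈ d.O u → ∃ c, s.pend u = some c
  harm : ∀ u c p, s.pend u = some c → p ∈ d.par c → p ∈ s.J →
    l0 u + 1 ≤ s.l u ∨ d.c.a d.lo ≤ t0 p ∨ p ∉ d.Lt u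
  lmono : ∀ u, l0 u ≤ s.l u
  tlo : ∀ v, t0 v ≤ s.t v
  thi : ∀ v, s.t v ≤ t0 v + 1
  tfut : ∀ v, τ ≤ d.pos v → s.t v = t0 v
  tD : ∀ v ∈ D, s.t v = t0 v
  tJ : ∀ v ∈ s.J, s.t v = t0 v + 1
  lead : ∀ P a v, s.lead P a = some v → v ∈ P ∧ v ∈ s.J ∧ t0 v < d.c.a (a + 1)
  safe : Safe d.adj (d.pot i D t0 cs τ s)

variable {d}

theorem hz_nonneg (ok : d.Ok) (m i : ℕ) (D : Finset V) (t0 : V → ℕ) (τ : ℕ) (E : Finset V)
    (v : V) : 0 ≤ d.hz m i D t0 τ E v :=
  Finset.sum_nonneg fun _ _ => rho_nonneg ok.par _ _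

theorem hz_mono (ok : d.Ok) (m i : ℕ) (D : Finset V) (t0 : V → ℕ) {τ τ' : ℕ} (h : τ ≤ τ')
    (E : Finset V) (v : V) : d.hz m i D t0 τ' E v ≤ d.hz m i D t0 τ E v :=
  Finset.sum_le_sum_of_subset_of_nonneg (fun q hq => by
    rw [Finset.mem_filter] at hq ⊢
    exact ⟨hq.1, hq.2.1, hq.2.2.1, by omega, hq.2.2.2.2⟩) fun _ _ _ => rho_nonneg ok.par _ _

theorem hz_lt (ok : d.Ok) (m : ℕ) {i : ℕ} {D : Finset V} (t0 : V → ℕ) {τ : ℕ} {E : Finset V}
    {v q : V} (hq : q ∈ d.par v) (hA : q ∈ d.A i) (hD : q ∉ D) (hp : d.pos q = τ) (hE : q ∈ E) :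
    d.c.rho m (t0 q) + d.hz m i D t0 (τ + 1) E v ≤ d.hz m i D t0 τ E v := by
  unfold hz
  rw [← Finset.sum_insert (f := fun q => d.c.rho m (t0 q)) (fun hh => by
    have := (Finset.mem_filter.1 hh).2.2.2.1
    omega)]
  refine Finset.sum_le_sum_of_subset_of_nonneg (fun x hx => ?_) fun _ _ _ => rho_nonneg ok.par _ _
  rcases Finset.mem_insert.1 hx with rfl | hx
  · exact Finset.mem_filter.2 ⟨hq, hA, hD, by omega, hE⟩
  · rw [Finset.mem_filter] at hx ⊢
    exact ⟨hx.1, hx.2.1, hx.2.2.1, by omega, hx.2.2.2.2⟩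

theorem hz_lo (ok : d.Ok) (i : ℕ) (D : Finset V) (t0 : V → ℕ) (E : Finset V) (v : V) :
    d.hz d.lo i D t0 0 E v ≤ d.hz d.c.m i D t0 0 Finset.univ v :=
  le_trans (Finset.sum_le_sum fun _ _ => rho_mono ok.par ok.lom _)
    (Finset.sum_le_sum_of_subset_of_nonneg (fun q hq => by
      rw [Finset.mem_filter] at hq ⊢
      exact ⟨hq.1, hq.2.1, hq.2.2.1, hq.2.2.2.1, Finset.mem_univ _⟩)
      fun _ _ _ => rho_nonneg ok.par _ _)

theorem hf_nonneg (ok : d.Ok) (i : ℕ) (D : Finset V) (t0 : V → ℕ) (τ : ℕ) (J : Finset V)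
    (v : V) : 0 ≤ d.hf i D t0 τ J v := by
  unfold hf
  split_ifs
  exacts [zero_le_one, hz_nonneg ok _ _ _ _ _ _ _]

theorem hf_mono (ok : d.Ok) (i : ℕ) (D : Finset V) (t0 : V → ℕ) (τ : ℕ) (J : Finset V)
    (v : V) : d.hf i D t0 (τ + 1) J v ≤ d.hf i D t0 τ J v := by
  unfold hf
  split_ifs
  exacts [le_rfl, hz_mono ok _ _ _ _ (by omega) _ _]

theorem hf_insert (i : ℕ) (D : Finset V) (t0 : V → ℕ) (τ : ℕ) (J : Finset V) {v w : V}
    (hw : w ∉ d.par v) : d.hf i D t0 τ (insert w J) v = d.hf i D t0 τ J v := by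
  unfold hf
  have : (∃ q ∈ d.par v, q ∈ insert w J) ↔ ∃ q ∈ d.par v, q ∈ J := by
    constructor
    · rintro ⟨q, h1, h2⟩
      rcases Finset.mem_insert.1 h2 with rfl | h2
      · exact absurd h1 hw
      · exact ⟨q, h1, h2⟩
    · rintro ⟨q, h1, h2⟩
      exact ⟨q, h1, Finset.mem_insert_of_mem h2⟩
  simp only [this]

theorem hf_step (ok : d.Ok) {i : ℕ} {D : Finset V} (t0 : V → ℕ) {τ : ℕ} (J : Finset V) (v : V)
    {w : V} (hA : w ∈ d.A i) (hD : w ∉ D) (hp : d.pos w = τ) :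
    d.c.rho d.c.m (t0 w) * d.hf i D t0 (τ + 1) (insert w J) v +
      (1 - d.c.rho d.c.m (t0 w)) * d.hf i D t0 (τ + 1) J v ≤ d.hf i D t0 τ J v := by
  have h0 := rho_nonneg ok.par d.c.m (t0 w)
  by_cases hw : w ∈ d.par v
  · have e1 : d.hf i D t0 (τ + 1) (insert w J) v = 1 := by
      unfold hf; rw [if_pos ⟨w, hw, Finset.mem_insert_self _ _⟩]
    rw [e1]
    unfold hf
    split_ifs
    · linarith
    · have a1 := hz_lt ok d.c.m t0 hw hA hD hp (Finset.mem_univ _)
      have a2 := hz_nonneg ok d.c.m i D t0 (τ + 1) Finset.univ v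
      nlinarith [mul_nonneg h0 a2]
  · rw [hf_insert _ _ _ _ _ hw]
    have := hf_mono ok i D t0 τ J v
    linarith

theorem e2_pos (l : ℕ) (x : ℝ) : 0 < d.e2 l x := by
  unfold e2
  positivity

theorem e2_mono (l : ℕ) {x x' : ℝ} (h : x ≤ x') : d.e2 l x ≤ d.e2 l x' := by
  unfold e2
  gcongr

theorem e2_step (l : ℕ) (ρ x : ℝ) :
    ρ * d.e2 (l + 1) x + (1 - ρ) * d.e2 l x ≤ d.e2 l (ρ + x) := by
  have h1 : ρ * d.e2 (l + 1) x + (1 - ρ) * d.e2 l x = (ρ + 1) * d.e2 l x := by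
    unfold e2; ring
  have h2 : d.e2 l (ρ + x) = Real.exp ρ * d.e2 l x := by
    unfold e2; rw [add_comm ρ x, ← add_assoc, Real.exp_add _ ρ]; ring
  rw [h1, h2]
  exact mul_le_mul_of_nonneg_right (Real.add_one_le_exp ρ) (e2_pos _ _).le

theorem ex_mono (ok : d.Ok) (i : ℕ) (D : Finset V) (t0 : V → ℕ) (τ : ℕ) (pd : Option V) (u : V) :
    d.ex i D t0 (τ + 1) pd u ≤ d.ex i D t0 τ pd u := by
  rcases pd with _ | c
  · exact le_rfl
  · exact hz_mono ok _ _ _ _ (by omega) _ c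

theorem ex_nonneg (ok : d.Ok) (i : ℕ) (D : Finset V) (t0 : V → ℕ) (τ : ℕ) (pd : Option V)
    (u : V) : 0 ≤ d.ex i D t0 τ pd u := by
  rcases pd with _ | c
  · exact le_rfl
  · exact hz_nonneg ok _ _ _ _ _ _ c

theorem win_nonneg (ok : d.Ok) (D : Finset V) (t0 t : V → ℕ) {h : V → ℝ} (hh : ∀ v, 0 ≤ h v)
    (ld : Finset V → ℕ → Option V) (u : V) : 0 ≤ d.win D t0 t h ld u :=
  Finset.sum_nonneg fun _ _ => div_nonneg (phi_nonneg ok.par _ _ _ hh _ _ _ _) (by positivity)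

theorem win_le {D D' : Finset V} {t0 t t0' t' : V → ℕ} {h h' : V → ℝ}
    {ld ld' : Finset V → ℕ → Option V} {u : V}
    (H : ∀ x, d.c.phi D' t0' t' h' ld' (d.Z u x) (d.b x) (d.w x) ≤
      d.c.phi D t0 t h ld (d.Z u x) (d.b x) (d.w x)) :
    d.win D' t0' t' h' ld' u ≤ d.win D t0 t h ld u :=
  Finset.sum_le_sum fun x _ => div_le_div_of_nonneg_right (H x) (by positivity)

theorem win_step {D : Finset V} {t0 t t' : V → ℕ} {h h1 h2 : V → ℝ}
    {ld ld1 : Finset V → ℕ → Option V} (u : V) {ρ : ℝ}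
    (H : ∀ x, ρ * d.c.phi D t0 t' h1 ld1 (d.Z u x) (d.b x) (d.w x) +
      (1 - ρ) * d.c.phi D t0 t' h2 ld (d.Z u x) (d.b x) (d.w x) ≤
        d.c.phi D t0 t h ld (d.Z u x) (d.b x) (d.w x)) :
    ρ * d.win D t0 t' h1 ld1 u + (1 - ρ) * d.win D t0 t' h2 ld u ≤ d.win D t0 t h ld u := by
  unfold win
  rw [Finset.mul_sum, Finset.mul_sum, ← Finset.sum_add_distrib]
  refine Finset.sum_le_sum fun x _ => ?_
  rw [← mul_div_assoc, ← mul_div_assoc, ← add_div]
  exact div_le_div_of_nonneg_right (H x) (by positivity)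

theorem pot_nonneg (ok : d.Ok) (i : ℕ) (D : Finset V) (t0 : V → ℕ) (cs : V → ℝ) (τ : ℕ)
    (s : St V) (u : V) : 0 ≤ d.pot i D t0 cs τ s u :=
  add_nonneg (win_nonneg ok _ _ _ (hf_nonneg ok _ _ _ _ _) _ _) (e2_pos _ _).le

theorem pstep (ok : d.Ok) {i : ℕ} {D : Finset V} {f t0 l0 : V → ℕ} {cs : V → ℝ} {τ : ℕ}
    {s : St V} (hθ : ∀ c ∈ d.A i, d.hz d.c.m i D t0 0 Finset.univ c ≤ d.c.th)
    (h : d.PInv i D f t0 l0 cs τ s) : ∃ s', d.PInv i D f t0 l0 cs (τ + 1) s' := by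
  classical
  by_cases hex : ∃ v ∈ d.A i, v ∉ D ∧ d.pos v = τ ∧ ¬ d.pre D f i v ∧ ∀ w ∈ s.J, w ∉ d.O v
  swap
  · refine ⟨s, fun v hv => ?_, h.jind, fun v hv hD hp => ?_, h.pendJ, h.pendEx,
      h.harm, h.lmono, h.tlo, h.thi, fun v hv => h.tfut v (by omega), h.tD, h.tJ, h.lead,
      safe_mono h.safe fun u => ?_⟩
    · obtain ⟨a, b, c, e⟩ := h.jsub v hv
      exact ⟨a, b, by omega, e⟩
    · by_cases hlt : d.pos v < τ
      · exact h.fin v hv hD hlt
      · by_cases hpre : d.pre D f i v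
        · exact Or.inl hpre
        · have : ¬ ∀ w ∈ s.J, w ∉ d.O v := fun hw => hex ⟨v, hv, hD, by omega, hpre, hw⟩
          simp only [not_forall, not_not] at this
          obtain ⟨w, hw, hw'⟩ := this
          exact Or.inr (Or.inr (h.pendEx v hv w hw hw'))
    · exact add_le_add (win_le fun x => phi_local ok.par _ _ _ _ _ (fun _ _ => rfl)
        (fun _ _ => rfl) fun _ _ v _ => hf_mono ok _ _ _ _ _ v)
        (e2_mono _ (by linarith [ex_mono ok i D t0 τ (s.pend u) u]))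
  obtain ⟨v, hvA, hvD, hvt, hvpre, hvJ⟩ := hex
  have hvJ' : v ∉ s.J := fun hv => by have := (h.jsub v hv).2.2.1; omega
  have htv : s.t v = t0 v := h.tfut v (by omega)
  have hpJ : ∀ q ∈ d.par v, q ∉ s.J := fun q hq hqJ => hvJ q hqJ (ok.parO v hq)
  set a : V → ℕ := fun u =>
    if (∃ c, s.pend u = some c ∧ v ∈ d.par c) ∧ s.t v < d.c.a d.lo ∧ v ∈ d.Lt u then 1 else 0
    with ha
  set pend' : V → Option V := fun u =>
    if s.pend u = none ∧ u ∈ d.A i ∧ v ∈ d.O u then some v else s.pend u with hpend'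
  set t' := Function.update s.t v (s.t v + 1) with ht'
  set s1 : St V := ⟨insert v s.J, pend', d.c.newld s.t v s.lead, t',
    fun u => s.l u + a u⟩ with hs1
  set s2 : St V := ⟨s.J, s.pend, s.lead, t', s.l⟩ with hs2
  have pk : ∀ u c, s.pend u = some c → pend' u = some c := by
    intro u c hc
    simp only [hpend']
    rw [if_neg (fun hh => by rw [hc] at hh; exact absurd hh.1 (by simp)), hc]
  have pinv : ∀ u c, pend' u = some c →
      s.pend u = some c ∨ (c = v ∧ u ∈ d.A i ∧ v ∈ d.O u) := by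
    intro u c hc
    simp only [hpend'] at hc
    split_ifs at hc with hh
    · exact Or.inr ⟨(Option.some.inj hc).symm, hh.2⟩
    · exact Or.inl hc
  have ex2 : ∀ u, d.ex i D t0 (τ + 1) (s.pend u) u - d.ex i D t0 0 (s.pend u) u - cs u ≤
      d.ex i D t0 τ (s.pend u) u - d.ex i D t0 0 (s.pend u) u - cs u := fun u => by
    linarith [ex_mono ok i D t0 τ (s.pend u) u]
  have ex1 : ∀ u, d.ex i D t0 (τ + 1) (pend' u) u - d.ex i D t0 0 (pend' u) u - cs u ≤
      d.ex i D t0 τ (s.pend u) u - d.ex i D t0 0 (s.pend u) u - cs u := by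
    intro u
    simp only [hpend']
    split_ifs with hh
    · rw [hh.1]
      simp only [ex, Option.elim]
      linarith [hz_mono ok d.lo i D t0 (Nat.zero_le (τ + 1)) (d.Lt u) v]
    · exact ex2 u
  have ha0 : ∀ u, v ∉ d.Sx u → a u = 0 := by
    intro u hu
    simp only [ha]
    rw [if_neg fun hh => hu (ok.subL u hh.2.2)]
  have tne : ∀ w, w ≠ v → t' w = s.t w := fun w hw => Function.update_of_ne hw _ _
  have loc : ∀ u, v ∉ d.Sx u → ∀ x j,
      (∀ p ∈ d.Z u x, t' p = s.t p) ∧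
        (∀ P ⊆ d.Z u x, d.c.newld s.t v s.lead P j = s.lead P j) ∧
        ∀ P ⊆ d.Z u x, ∀ w, s.lead P j = some w → v ∉ d.par w := by
    intro u hu x j
    have h1 : v ∉ d.Z u x := fun hv => hu (ok.sub u x hv)
    refine ⟨fun p hp => tne p fun e => h1 (e ▸ hp), fun P hP => ?_, fun P hP w hw hvw => ?_⟩
    · unfold newld
      rw [if_neg (fun hh => h1 (hP hh.2.1))]
    · obtain ⟨b1, b2, -⟩ := h.lead P j w hw
      exact hu (ok.near2 i u x w v (hP b1) (h.jsub w b2).1 hvA hvw)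
  have hr0 := rho_nonneg ok.par d.c.m (s.t v)
  have hr1 := rho_le_one ok.par (s.t v)
  have key := safe_step (adj := d.adj) (fun a b ⟨p, h1, h2⟩ => ⟨p, h2, h1⟩) h.safe
    (y1 := d.pot i D t0 cs (τ + 1) s1) (y2 := d.pot i D t0 cs (τ + 1) s2)
    (Finset.univ.filter fun u => v ∈ d.Sx u)
    (fun a ha b hb _ => ⟨v, (Finset.mem_filter.1 ha).2, (Finset.mem_filter.1 hb).2⟩)
    (pot_nonneg ok _ _ _ _ _ s1) (pot_nonneg ok _ _ _ _ _ s2)
    (fun u hu => by
      have hu' : v ∉ d.Sx u := by simpa using hu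
      refine add_le_add (win_le fun x => ?_) ?_
      · obtain ⟨b1, b2, b3⟩ := loc u hu' x (d.w x)
        refine phi_local ok.par _ _ _ _ _ b1 b2 fun P hP w hw => ?_
        simp only [hs1]
        rw [hf_insert _ _ _ _ _ (b3 P hP w hw)]
        exact hf_mono ok _ _ _ _ _ w
      · simp only [hs1, ha0 u hu', add_zero]
        exact e2_mono _ (ex1 u))
    (fun u hu => by
      have hu' : v ∉ d.Sx u := by simpa using hu
      refine add_le_add (win_le fun x => ?_) ?_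
      · exact phi_local ok.par _ _ _ _ _ (loc u hu' x (d.w x)).1 (fun _ _ => rfl)
          fun P hP w hw => hf_mono ok _ _ _ _ _ w
      · exact e2_mono _ (ex2 u))
    (d.c.rho d.c.m (s.t v)) hr0 hr1
    (fun u _ => by
      have g1 := win_step (d := d) (D := D) (t0 := t0) (t := s.t) (t' := t')
        (h := d.hf i D t0 τ s.J) (h1 := d.hf i D t0 (τ + 1) (insert v s.J))
        (h2 := d.hf i D t0 (τ + 1) s.J) (ld := s.lead) (ld1 := d.c.newld s.t v s.lead) u
        (ρ := d.c.rho d.c.m (s.t v)) (fun x =>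
          Par.phi_step ok.par D t0 s.t s.lead _ _ _ v (ok.wm x) (ok.gb x) h.tlo
            (hf_nonneg ok _ _ _ _ _ _)
            (by
              rw [hf_insert _ _ _ _ _ (ok.irr v)]
              unfold hf
              rw [if_neg (fun ⟨q, h1, h2⟩ => hpJ q h1 h2)]
              exact (hz_mono ok _ _ _ _ (Nat.zero_le _) _ _).trans (hθ v hvA))
            (fun w => by rw [htv]; exact hf_step ok t0 s.J w hvA hvD hvt))
      have g3 : d.c.rho d.c.m (s.t v) * d.e2 (s.l u + a u)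
            (d.ex i D t0 (τ + 1) (pend' u) u - d.ex i D t0 0 (pend' u) u - cs u) +
          (1 - d.c.rho d.c.m (s.t v)) * d.e2 (s.l u)
            (d.ex i D t0 (τ + 1) (s.pend u) u - d.ex i D t0 0 (s.pend u) u - cs u) ≤
          d.e2 (s.l u) (d.ex i D t0 τ (s.pend u) u - d.ex i D t0 0 (s.pend u) u - cs u) := by
        by_cases hc : (∃ c, s.pend u = some c ∧ v ∈ d.par c) ∧ s.t v < d.c.a d.lo ∧ v ∈ d.Lt u
        · have e1 : a u = 1 := by simp only [ha]; rw [if_pos hc]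
          obtain ⟨⟨c, c1, c2⟩, c3, c4⟩ := hc
          rw [e1, pk u c c1, c1]
          refine (e2_step _ _ _).trans (e2_mono _ ?_)
          have b1 := hz_lt ok d.lo t0 c2 hvA hvD hvt c4
          have b2 := rho_normal ok.par (m := d.lo) (m' := d.c.m) (s := s.t v)
            fun i hi => c3.trans_le (ok.amono i hi)
          rw [htv] at b2 ⊢
          simp only [ex, Option.elim]
          linarith
        · have e1 : a u = 0 := by simp only [ha]; rw [if_neg hc]
          rw [e1, add_zero]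
          have b1 := mul_le_mul_of_nonneg_left (e2_mono (d := d) (s.l u) (ex1 u)) hr0
          have b2 := mul_le_mul_of_nonneg_left (e2_mono (d := d) (s.l u) (ex2 u))
            (sub_nonneg.2 hr1)
          linarith
      simp only [pot, hs1, hs2]
      linarith)
  have tv : t' v = t0 v + 1 := by simp only [ht', Function.update_self, htv]
  have tlo' : ∀ w, t0 w ≤ t' w := fun w => by
    by_cases hw : w = v
    · rw [hw, tv]; omega
    · rw [tne w hw]; exact h.tlo w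
  have thi' : ∀ w, t' w ≤ t0 w + 1 := fun w => by
    by_cases hw : w = v
    · rw [hw, tv]
    · rw [tne w hw]; exact h.thi w
  have tfut' : ∀ w, τ + 1 ≤ d.pos w → t' w = t0 w := fun w hw => by
    rw [tne w (fun e => by rw [e] at hw; omega)]; exact h.tfut w (by omega)
  have tD' : ∀ w ∈ D, t' w = t0 w := fun w hw => by
    rw [tne w (fun e => hvD (e ▸ hw))]; exact h.tD w hw
  have tJ' : ∀ w ∈ s.J, t' w = t0 w + 1 := fun w hw => by
    rw [tne w (fun e => hvJ' (e ▸ hw))]; exact h.tJ w hw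
  have fin' : ∀ w ∈ d.A i, w ∉ D → d.pos w < τ + 1 →
      d.pre D f i w ∨ t' w = t0 w + 1 ∨ ∃ c, s.pend w = some c := by
    intro w hw hD hp
    by_cases hwv : w = v
    · exact Or.inr (Or.inl (hwv ▸ tv))
    · have : d.pos w ≠ τ := fun e => hwv (ok.inj w v (by omega))
      rw [tne w hwv]
      exact h.fin w hw hD (by omega)
  rcases key with hsafe | hsafe
  · -- the vertex joins
    refine ⟨s1, fun w hw => ?_, fun u hu w hw hlt => ?_,
      fun w hw hD hp => ?_, fun u c hc => ?_, fun u hu w hw hwO => ?_, fun u c p hc hp hpJ => ?_,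
      fun u => ?_, tlo', thi', tfut', tD', fun w hw => ?_, fun P a w hw => ?_, hsafe⟩
    · rcases Finset.mem_insert.1 hw with rfl | hw
      · exact ⟨hvA, hvD, by omega, hvpre⟩
      · obtain ⟨a, b, c, e⟩ := h.jsub w hw
        exact ⟨a, b, by omega, e⟩
    · rcases Finset.mem_insert.1 hu with hu1 | hu1 <;>
        rcases Finset.mem_insert.1 hw with hw1 | hw1
      · rw [hu1, hw1] at hlt; omega
      · have := (h.jsub w hw1).2.2.1
        rw [hu1] at hlt; omega
      · rw [hw1]; exact hvJ u hu1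
      · exact h.jind u hu1 w hw1 hlt
    · rcases fin' w hw hD hp with h1 | h1 | ⟨c, h1⟩
      · exact Or.inl h1
      · exact Or.inr (Or.inl h1)
      · exact Or.inr (Or.inr ⟨c, pk w c h1⟩)
    · rcases pinv u c hc with h1 | ⟨rfl, h1, h2⟩
      · obtain ⟨a, b, c⟩ := h.pendJ u c h1
        exact ⟨Finset.mem_insert_of_mem a, b, c⟩
      · exact ⟨Finset.mem_insert_self _ _, h2, h1⟩
    · rcases hpu : s.pend u with _ | c
      · rcases Finset.mem_insert.1 hw with rfl | hw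
        · exact ⟨w, by simp only [hs1, hpend']; rw [if_pos ⟨hpu, hu, hwO⟩]⟩
        · obtain ⟨c, hc⟩ := h.pendEx u hu w hw hwO
          exact ⟨c, pk u c hc⟩
      · exact ⟨c, pk u c hpu⟩
    · have hl := h.lmono u
      rcases pinv u c hc with h1 | ⟨rfl, h1, h2⟩
      · rcases Finset.mem_insert.1 hpJ with rfl | hpJ
        · by_cases hy : s.t p < d.c.a d.lo ∧ p ∈ d.Lt u
          · have : a u = 1 := by simp only [ha]; rw [if_pos ⟨⟨c, h1, hp⟩, hy⟩]
            left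
            simp only [hs1]; omega
          · right
            by_cases hL : p ∈ d.Lt u
            · left
              have : ¬ s.t p < d.c.a d.lo := fun hh => hy ⟨hh, hL⟩
              omega
            · exact Or.inr hL
        · rcases h.harm u c p h1 hp hpJ with h3 | h3
          · left
            simp only [hs1]; omega
          · exact Or.inr h3
      · rcases Finset.mem_insert.1 hpJ with rfl | hpJ
        · exact absurd hp (ok.irr _)
        · exact absurd (ok.parO _ hp) (hvJ p hpJ)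
    · have hl := h.lmono u
      simp only [hs1]; omega
    · rcases Finset.mem_insert.1 hw with rfl | hw
      · exact tv
      · exact tJ' w hw
    · simp only [hs1, newld] at hw
      split_ifs at hw with hh
      · obtain rfl := Option.some.inj hw
        exact ⟨hh.2.1, Finset.mem_insert_self _ _, by have := hh.2.2.2; omega⟩
      · obtain ⟨b1, b2, b3⟩ := h.lead P a w hw
        exact ⟨b1, Finset.mem_insert_of_mem b2, b3⟩
  · -- the vertex waits
    refine ⟨s2, fun w hw => ?_, h.jind, fin', h.pendJ, h.pendEx, h.harm, h.lmono, tlo', thi',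
      tfut', tD', tJ', h.lead, hsafe⟩
    obtain ⟨a, b, c, e⟩ := h.jsub w hw
    exact ⟨a, b, by omega, e⟩

/-- what a small potential says -/
theorem small (ok : d.Ok) {D : Finset V} {t l : V → ℕ} {cs : V → ℝ}
    (h : Safe d.adj (d.potB D t l cs)) (v : V) :
    d.e2 (l v) (-cs v) < 1 ∧ ∀ x, d.cnt D t v x < d.n v x := by
  obtain ⟨x, -, hg, hx⟩ := h
  have a1 := (hx v).trans_lt
    (hg.lt_one (fun a b ⟨p, h1, h2⟩ => ⟨p, h2, h1⟩) (Finset.mem_univ v))
  unfold potB at a1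
  have z : ∀ w : V, (0 : ℝ) ≤ (fun _ => 0) w := fun _ => le_rfl
  have p1 := win_nonneg ok D t t z (fun _ _ => none) v
  have p3 := e2_pos (d := d) (l v) (-cs v)
  refine ⟨by linarith, fun x => ?_⟩
  by_contra hc
  have b1 := phi_full ok.par D t z (d.b x) (d.w x) (Finset.filter_subset
    (full D t (d.c.a (d.w x + 1))) (d.Z v x)) fun p hp => (Finset.mem_filter.1 hp).2
  have b2 : ((d.n v x).choose (d.b x) : ℝ) ≤ (d.cnt D t v x).choose (d.b x) := by
    exact_mod_cast Nat.choose_le_choose _ (not_lt.1 hc)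
  have b3 : (0 : ℝ) < (d.n v x).choose (d.b x) := by
    exact_mod_cast Nat.choose_pos (ok.bn v x)
  have b4 := (one_le_div b3).2 (b2.trans b1)
  have b5 := Finset.single_le_sum (f := fun x => d.c.phi D t t (fun _ => 0) (fun _ _ => none)
      (d.Z v x) (d.b x) (d.w x) / (d.n v x).choose (d.b x))
    (fun _ _ => div_nonneg (phi_nonneg ok.par _ _ _ z _ _ _ _) (by positivity))
    (Finset.mem_univ x)
  unfold win at a1
  linarith

theorem load_nonneg (ok : d.Ok) (D : Finset V) (t : V → ℕ) (u c : V) : 0 ≤ d.load D t u c :=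
  Finset.sum_nonneg fun _ _ => Finset.sum_nonneg fun i _ => by
    split_ifs
    exacts [ok.par.r0 i, le_rfl]

theorem load_mono (ok : d.Ok) {D D' : Finset V} {t t' : V → ℕ}
    (h : ∀ s q, full D t s q → full D' t' s q) (u c : V) : d.load D t u c ≤ d.load D' t' u c :=
  Finset.sum_le_sum fun q _ => Finset.sum_le_sum fun i _ => by
    split_ifs with h1 h2
    exacts [le_rfl, absurd (h _ _ h1) h2, ok.par.r0 i, le_rfl]

theorem hz_le_load (ok : d.Ok) (i : ℕ) (D : Finset V) (t : V → ℕ) (u c : V) :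
    d.hz d.lo i D t 0 (d.Lt u) c ≤ d.load D t u c := by
  refine le_trans (Finset.sum_le_sum (g := fun q => ∑ i ∈ range d.lo,
    if full D t (d.c.a i) q then d.c.r i else 0) fun q hq => le_of_eq ?_)
    (Finset.sum_le_sum_of_subset_of_nonneg (fun q hq => ?_) fun _ _ _ =>
      Finset.sum_nonneg fun i _ => ?_)
  · have hD := (Finset.mem_filter.1 hq).2.2.1
    unfold rho full
    simp only [hD, false_implies, and_true]
  · rw [Finset.mem_filter] at hq
    exact Finset.mem_inter.2 ⟨hq.1, hq.2.2.2.2⟩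
  · split_ifs
    exacts [ok.par.r0 i, le_rfl]

theorem phase (ok : d.Ok) {i : ℕ} {D : Finset V} {f t0 l0 : V → ℕ} {cs : V → ℝ}
    (h0 : d.Inv i D f t0 l0 cs) : ∃ D' f' t l cs', d.Inv (i + 1) D' f' t l cs' := by
  classical
  have hθ : ∀ c ∈ d.A i, d.hz d.c.m i D t0 0 Finset.univ c ≤ d.c.th := fun c hc =>
    ok.hth D t0 i c hc (small ok h0.safe c).2
  have run : ∀ τ, ∃ s, d.PInv i D f t0 l0 cs τ s := by
    intro τ
    induction τ with
    | zero =>
      refine ⟨⟨∅, fun _ => none, fun _ _ => none, t0, l0⟩, by simp, by simp,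
        fun v _ _ hp => by omega, by simp, by simp, by simp, fun _ => le_rfl, fun _ => le_rfl,
        by simp, by simp, by simp, by simp, by simp, safe_mono h0.safe fun u => ?_⟩
      simp only [pot, potB, sub_self, zero_sub]
      exact add_le_add (win_le fun x => phi_local ok.par _ _ _ _ _ (fun _ _ => rfl)
        (fun _ _ => rfl) fun _ _ v hv => by simp at hv) le_rfl
    | succ τ ih =>
      obtain ⟨s, h⟩ := ih
      exact pstep ok hθ h
  set N := Finset.univ.sup d.pos + 1 with hN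
  have hNlt : ∀ v, d.pos v < N := fun v =>
    Nat.lt_succ_of_le (Finset.le_sup (f := d.pos) (Finset.mem_univ v))
  obtain ⟨s, h⟩ := run N
  obtain ⟨g, hg⟩ := greedy_choice (C := Prop) (fun v => N - d.pos v)
    (fun v => if v ∈ s.J then d.par v ∩ s.J else ∅)
    (fun v u hu => by
      split_ifs at hu with hv
      · obtain ⟨h1, h2⟩ := Finset.mem_inter.1 hu
        have h3 : ¬ d.pos u < d.pos v := fun hh => h.jind u h2 v hv hh (ok.parO v h1)
        have h4 : d.pos u ≠ d.pos v := fun e => ok.irr v (ok.inj u v e ▸ h1)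
        have := hNlt u
        omega
      · simp at hu)
    (fun v g c => c ↔ v ∈ s.J ∧ ∀ p ∈ d.par v ∩ s.J, ¬ g p)
    (fun v g g' c hgg hq => by
      rw [hq]
      refine and_congr_right fun hv => forall₂_congr fun p hp => ?_
      rw [hgg p (by rw [if_pos hv]; exact hp)])
    (fun v g => ⟨_, Iff.rfl⟩)
  set K := Finset.univ.filter g with hK
  have mK : ∀ v, v ∈ K ↔ g v := fun v => by simp [hK]
  have KJ : ∀ v ∈ K, v ∈ s.J := fun v hv => ((hg v).1 ((mK v).1 hv)).1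
  have K1 : ∀ v ∈ K, ∀ p ∈ d.par v, p ∉ K := fun v hv p hp hpK =>
    ((hg v).1 ((mK v).1 hv)).2 p (Finset.mem_inter.2 ⟨hp, KJ p hpK⟩) ((mK p).1 hpK)
  have K2 : ∀ v ∈ s.J, v ∉ K → ∃ p ∈ d.par v, p ∈ K := by
    intro v hv hvK
    by_contra hc
    exact hvK ((mK v).2 ((hg v).2 ⟨hv, fun p hp hgp =>
      hc ⟨p, (Finset.mem_inter.1 hp).1, (mK p).2 hgp⟩⟩))
  have KD : ∀ v ∈ K, v ∉ D := fun v hv => (h.jsub v (KJ v hv)).2.1
  set f' : V → ℕ := fun v => if v ∈ K then d.col i else f v with hf'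
  have f1 : ∀ v ∈ K, f' v = d.col i := fun v hv => if_pos hv
  have f2 : ∀ v ∈ D, f' v = f v := fun v hv => if_neg fun hk => KD v hk hv
  have mixed : ∀ u ∈ K, ∀ v ∈ D, d.H.Adj v u → f v ≠ d.col i := by
    intro u hu v hv hadj e
    obtain ⟨i', hi', hA, hc⟩ := h0.src v hv
    obtain ⟨a1, -, -, a4⟩ := h.jsub u (KJ u hu)
    exact a4 ⟨v, ok.cross i' i v u hi' (by omega) hA a1 hadj, hv, e⟩
  have both : ∀ u ∈ K, ∀ v ∈ K, d.pos u < d.pos v → ¬ d.H.Adj u v := by
    intro u hu v hv hlt hadj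
    rcases ok.inner i u v (h.jsub u (KJ u hu)).1 (h.jsub v (KJ v hv)).1 hlt hadj with h1 | h1
    · exact h.jind u (KJ u hu) v (KJ v hv) hlt h1
    · exact K1 u hu v h1 hv
  have premono : ∀ i' v, d.pre D f i' v → d.pre (D ∪ K) f' i' v := by
    rintro i' v ⟨w, h1, h2, h3⟩
    exact ⟨w, h1, Finset.mem_union_left _ h2, by rw [f2 w h2, h3]⟩
  have preK : ∀ v, ∀ w ∈ d.O v, w ∈ K → d.pre (D ∪ K) f' i v := fun v w h1 h2 =>
    ⟨w, h1, Finset.mem_union_right _ h2, f1 w h2⟩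
  have lsub : ∀ v, ((d.S1 v).filter fun p => p ∈ D ∧ (d.c.a d.lo + 1 ≤ t0 p ∨ p ∉ d.Lt v)) ⊆
      (d.S1 v).filter fun p => p ∈ D ∪ K ∧ (d.c.a d.lo + 1 ≤ s.t p ∨ p ∉ d.Lt v) :=
    fun v p hp => by
      rw [Finset.mem_filter] at hp ⊢
      exact ⟨hp.1, Finset.mem_union_left _ hp.2.1, hp.2.2.imp_left fun hh => hh.trans (h.tlo p)⟩
  have bmono : ∀ v, d.bad D t0 v ≤ d.bad (D ∪ K) s.t v := fun v => Finset.card_le_card (lsub v)
  have evict : ∀ v c, s.pend v = some c → c ∉ K →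
      l0 v + d.bad D t0 v + 1 ≤ s.l v + d.bad (D ∪ K) s.t v := by
    intro v c h5 hc
    obtain ⟨c1, c2, hA⟩ := h.pendJ v c h5
    obtain ⟨q, hq1, hq2⟩ := K2 c c1 hc
    have h3 := h.lmono v
    have h6 := bmono v
    rcases h.harm v c q h5 hq1 (KJ q hq2) with h7 | h7
    · omega
    · have : d.bad D t0 v < d.bad (D ∪ K) s.t v :=
        Finset.card_lt_card ((Finset.ssubset_iff_of_subset (lsub v)).2
          ⟨q, Finset.mem_filter.2 ⟨ok.near1 i v c q hA (h.jsub c c1).1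
            (h.jsub q (KJ q hq2)).1 c2 hq1, Finset.mem_union_right _ hq2,
            h7.imp_left fun hh => by have := h.tJ q (KJ q hq2); omega⟩,
            fun hh => KD q hq2 (Finset.mem_filter.1 hh).2.1⟩)
      omega
  have fmono : ∀ a q, full D t0 a q → full (D ∪ K) s.t a q := by
    rintro a q ⟨h1, h2⟩
    refine ⟨h1.trans (h.tlo q), fun hq => ?_⟩
    rcases Finset.mem_union.1 hq with hq | hq
    · exact (h2 hq).trans (h.tlo q)
    · have := h.tJ q (KJ q hq)
      omega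
  refine ⟨D ∪ K, f', s.t, s.l, fun u => cs u + d.ex i D t0 0 (s.pend u) u,
    fun u hu v hv hadj => ?_, fun v hv => ?_, fun v hv => ?_, fun u => ?_,
    safe_mono h.safe fun u => ?_⟩
  · rcases Finset.mem_union.1 hu with hu1 | hu1 <;> rcases Finset.mem_union.1 hv with hv1 | hv1
    · rw [f2 u hu1, f2 v hv1]; exact h0.prop u hu1 v hv1 hadj
    · rw [f2 u hu1, f1 v hv1]; exact mixed v hv1 u hu1 hadj
    · rw [f1 u hu1, f2 v hv1]; exact (mixed u hu1 v hv1 hadj.symm).symm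
    · have hne : d.pos u ≠ d.pos v := fun e => hadj.ne (ok.inj u v e)
      rcases lt_or_gt_of_ne hne with hl | hl
      · exact absurd hadj (both u hu1 v hv1 hl)
      · exact absurd hadj.symm (both v hv1 u hu1 hl)
  · rcases Finset.mem_union.1 hv with hv1 | hv1
    · obtain ⟨i', hi', hA, hc⟩ := h0.src v hv1
      exact ⟨i', by omega, hA, by rw [f2 v hv1, hc]⟩
    · exact ⟨i, by omega, (h.jsub v (KJ v hv1)).1, f1 v hv1⟩
  · rw [Finset.mem_union, not_or] at hv
    have h1 := h0.acct v hv.1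
    have h2 := h.tlo v
    have h3 := h.lmono v
    have h4 : ((range i).filter fun i' => v ∈ d.A i' ∧ d.pre D f i' v).card ≤
        ((range i).filter fun i' => v ∈ d.A i' ∧ d.pre (D ∪ K) f' i' v).card :=
      Finset.card_le_card fun x hx => by
        rw [Finset.mem_filter] at hx ⊢
        exact ⟨hx.1, hx.2.1, premono x v hx.2.2⟩
    have h6 := bmono v
    rw [Finset.range_add_one, Finset.filter_insert, Finset.filter_insert]
    have n1 : i ∉ (range i).filter fun i' => v ∈ d.A i' := by simp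
    have n2 : i ∉ (range i).filter fun i' => v ∈ d.A i' ∧ d.pre (D ∪ K) f' i' v := by simp
    by_cases hA : v ∈ d.A i
    · rw [if_pos hA, Finset.card_insert_of_notMem n1]
      by_cases hpre : d.pre (D ∪ K) f' i v
      · rw [if_pos ⟨hA, hpre⟩, Finset.card_insert_of_notMem n2]
        omega
      · rw [if_neg (fun hh => hpre hh.2)]
        rcases h.fin v hA hv.1 (hNlt v) with h5 | h5 | ⟨c, h5⟩
        · exact absurd (premono i v h5) hpre
        · omega
        · have := evict v c h5 fun hc => hpre (preK v c (h.pendJ v c h5).2.1 hc)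
          omega
    · rw [if_neg hA, if_neg (fun hh => hA hh.1)]
      omega
  · have h1 := h0.cons u
    have h2 : ∑ c ∈ d.O u ∩ D, d.load D t0 u c ≤ ∑ c ∈ d.O u ∩ D, d.load (D ∪ K) s.t u c :=
      Finset.sum_le_sum fun c _ => load_mono ok fmono u c
    have h3 : ∑ c ∈ d.O u ∩ D, d.load (D ∪ K) s.t u c ≤
        ∑ c ∈ d.O u ∩ (D ∪ K), d.load (D ∪ K) s.t u c :=
      Finset.sum_le_sum_of_subset_of_nonneg
        (Finset.inter_subset_inter_left Finset.subset_union_left)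
        fun _ _ _ => load_nonneg ok _ _ _ _
    have h4 : d.c.th * (l0 u + d.bad D t0 u : ℕ) ≤ d.c.th * (s.l u + d.bad (D ∪ K) s.t u : ℕ) :=
      mul_le_mul_of_nonneg_left (by exact_mod_cast Nat.add_le_add (h.lmono u) (bmono u)) ok.th0
    rcases hpu : s.pend u with _ | c
    · simp only [ex, Option.elim]
      linarith
    · simp only [ex, Option.elim]
      obtain ⟨c1, c2, -⟩ := h.pendJ u c hpu
      by_cases hc : c ∈ K
      · have h5 : ∑ c' ∈ insert c (d.O u ∩ D), d.load (D ∪ K) s.t u c' ≤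
            ∑ c ∈ d.O u ∩ (D ∪ K), d.load (D ∪ K) s.t u c :=
          Finset.sum_le_sum_of_subset_of_nonneg (Finset.insert_subset
            (Finset.mem_inter.2 ⟨c2, Finset.mem_union_right _ hc⟩)
            (Finset.inter_subset_inter_left Finset.subset_union_left))
            fun _ _ _ => load_nonneg ok _ _ _ _
        rw [Finset.sum_insert fun hh => KD c hc (Finset.mem_inter.1 hh).2] at h5
        have h6 := (hz_le_load ok i D t0 u c).trans (load_mono ok fmono u c)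
        linarith
      · have h5 : ((l0 u + d.bad D t0 u : ℕ) : ℝ) + 1 ≤ (s.l u + d.bad (D ∪ K) s.t u : ℕ) := by
          exact_mod_cast evict u c hpu hc
        have h6 := mul_le_mul_of_nonneg_left h5 ok.th0
        have h7 := (hz_lo ok i D t0 (d.Lt u) c).trans (hθ c (h.jsub c c1).1)
        linarith
  · refine add_le_add (win_le fun x => phi_end ok.par D K t0 s.t _ s.lead _ _ _
      (hf_nonneg ok _ _ _ _ _) h.thi h.tD fun P w hw => ?_)
      (e2_mono _ (by linarith [ex_nonneg ok i D t0 N (s.pend u) u]))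
    obtain ⟨b1, b2, b3⟩ := h.lead P _ w hw
    refine ⟨b1, b3, fun hK => ?_⟩
    obtain ⟨q, q1, q2⟩ := K2 w b2 hK
    unfold hf
    rw [if_pos ⟨q, q1, KJ q q2⟩]

open Classical in
/-- the process colours every vertex -/
theorem colorable (ok : d.Ok) (M T N : ℕ) (hM : ∀ v, (d.O v).card ≤ M) (Δ : ℝ) (hΔ : 1 ≤ Δ)
    (hdeg : ∀ a, ((Finset.univ.filter fun b => d.adj a b).card : ℝ) ≤ Δ)
    (hj : ∀ u, ∑ x, ((d.Z u x).card.choose (d.b x) : ℝ) /
        d.c.gw (d.w x) ^ ((d.c.a (d.w x + 1) - d.c.a (d.w x)) * d.b x) /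
        (d.n u x).choose (d.b x) + Real.exp (d.Y + d.c.th * d.β) / 2 ^ d.j ≤ 1 / (4 * Δ))
    (hN : ∀ i < T, d.col i < N)
    (hinj : ∀ v i i', v ∈ d.A i → v ∈ d.A i' → d.col i = d.col i' → i = i')
    (hcnt : ∀ v, M + d.y + 2 * d.j + d.β ≤ ((range T).filter fun i => v ∈ d.A i).card) :
    d.H.Colorable N := by
  have hsy : ∀ a b, d.adj a b → d.adj b a := fun a b ⟨p, h1, h2⟩ => ⟨p, h2, h1⟩
  have start : d.Inv 0 ∅ (fun _ => 0) (fun _ => 0) (fun _ => 0) (fun _ => 0) := by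
    refine ⟨by simp, by simp, by simp, fun u => ?_, fun _ => 1 / (4 * Δ), fun _ => by positivity,
      good_const hsy _ Δ hΔ (fun a _ => hdeg a), fun u => le_trans (le_of_eq ?_) (hj u)⟩
    · simpa using mul_nonneg ok.th0 (Nat.cast_nonneg _)
    · simp only [potB, win, phi_start, e2, pow_zero, one_mul, neg_zero, add_zero]
  have run : ∀ i, ∃ D f t l cs, d.Inv i D f t l cs := by
    intro i
    induction i with
    | zero => exact ⟨_, _, _, _, _, start⟩
    | succ i ih =>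
      obtain ⟨D, f, t, l, cs, h⟩ := ih
      exact phase ok h
  obtain ⟨D, f, t, l, cs, h⟩ := run T
  have hall : ∀ v, v ∈ D := by
    intro v
    by_contra hv
    have h1 := h.acct v hv
    have h2 : ((range T).filter fun i' => v ∈ d.A i' ∧ d.pre D f i' v).card ≤
        ((d.O v).image f).card := by
      refine Finset.card_le_card_of_injOn d.col (fun x hx => ?_) (fun x hx y hy e => ?_)
      · obtain ⟨-, -, w, h1, -, h3⟩ := Finset.mem_filter.1 (Finset.mem_coe.1 hx)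
        exact Finset.mem_coe.2 (Finset.mem_image.2 ⟨w, h1, h3⟩)
      · exact hinj v x y (Finset.mem_filter.1 (Finset.mem_coe.1 hx)).2.1
          (Finset.mem_filter.1 (Finset.mem_coe.1 hy)).2.1 e
    have h3 := (Finset.card_image_le (s := d.O v) (f := f)).trans (hM v)
    obtain ⟨a1, a2⟩ := small ok h.safe v
    obtain ⟨h4, h6, a3⟩ := ok.hfin D t v a2
    have h5 : l v ≤ 2 * d.j := by
      by_contra hc
      have b1 := h.cons v
      have b2 : ∑ c ∈ d.O v ∩ D, d.load D t v c ≤ ∑ c ∈ d.O v, d.load D t v c :=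
        Finset.sum_le_sum_of_subset_of_nonneg Finset.inter_subset_left
          fun _ _ _ => load_nonneg ok _ _ _ _
      have b3 : (d.bad D t v : ℝ) ≤ d.β := by exact_mod_cast h6
      have b4 := mul_le_mul_of_nonneg_left b3 ok.th0
      have b5 := mul_le_mul_of_nonneg_right ok.th4 (Nat.cast_nonneg (α := ℝ) (l v))
      have b6 : (l v : ℝ) * (-1 / 4) ≤ d.Y + d.c.th * d.β + -cs v := by
        push_cast at b1
        linarith
      have b7 : (3 / 4 : ℝ) ^ l v ≤ Real.exp (d.Y + d.c.th * d.β + -cs v) := by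
        refine le_trans ?_ (Real.exp_le_exp.2 b6)
        rw [Real.exp_nat_mul]
        exact pow_le_pow_left₀ (by norm_num) (by linarith [Real.add_one_le_exp (-1 / 4 : ℝ)]) _
      unfold e2 at a1
      rw [div_lt_one (by positivity)] at a1
      have b8 : (2 : ℝ) ^ d.j ≤ 2 ^ l v * (3 / 4) ^ l v := by
        rw [← mul_pow]
        calc (2 : ℝ) ^ d.j ≤ ((2 * (3 / 4)) ^ 2) ^ d.j :=
              pow_le_pow_left₀ (by norm_num) (by norm_num) _
          _ = (2 * (3 / 4)) ^ (2 * d.j) := by rw [← pow_mul]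
          _ ≤ _ := pow_le_pow_right₀ (by norm_num) (by omega)
      have b9 := mul_le_mul_of_nonneg_left b7 (by positivity : (0 : ℝ) ≤ 2 ^ l v)
      linarith
    have h7 := hcnt v
    have h8 := h4 hv
    omega
  have hlt : ∀ v, f v < N := fun v => by
    obtain ⟨i, hi, -, e⟩ := h.src v (hall v)
    rw [e]; exact hN i hi
  exact ⟨SimpleGraph.Coloring.mk (fun v => ⟨f v, hlt v⟩) fun {u v} huv e =>
    h.prop u (hall u) v (hall v) huv (Fin.mk.inj e)⟩

end Data

end Pool.Agent.P.MP_c25521_co.Multi
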