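import Mathlib
import Pool.Agent.P.MP_c25521_co.MProc

/-!
The family of watched sets.
-/

namespace Pool.Agent.P.MP_c25521_co.Multi

open Finset Pool.Agent.P.MP_d36d9e_co Pool.Agent.P.MP_c25521_co Par

set_option linter.unusedSectionVars false

variable {V : Type} [Fintype V] [DecidableEq V]

/-- numerical parameters -/
structure Num where
  k : ℕ
  σ : ℕ
  I : ℕ
  μ : ℕ
  bm : ℕ
  j : ℕ
  a : ℕ → ℕ
  b : ℕ → ℕ
  s : ℕ → ℕ
  r : ℕ → ℝ
  th : ℝ
  Y : ℝ

namespace Num

variable (z : Num)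

def β : ℕ := z.b z.I + z.σ / 2 ^ z.s z.I + z.σ / (z.μ + 1)

noncomputable def init : ℝ :=
  (z.μ + 1) * ∑ i ∈ range (z.I + 1),
      (2 ^ z.s i / (1 + z.r i / 2) ^ (z.a (i + 1) - z.a i)) ^ z.b i +
    (z.k / (1 + z.r (z.I + 1) / 2) ^ (z.a (z.I + 2) - z.a (z.I + 1))) ^ z.bm +
    1 / (1 + z.r (z.I + 2) / 2) ^ (z.a (z.I + 3) - z.a (z.I + 2)) +
    Real.exp (z.Y + z.th * z.β) / 2 ^ z.j

structure Ok : Prop where
  r0 : ∀ i, 0 ≤ z.r i
  r1 : ∑ i ∈ range (z.I + 3), z.r i ≤ 1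
  amono : ∀ i, z.I + 1 ≤ i → z.a (z.I + 1) ≤ z.a i
  gb1 : ∀ i ≤ z.I, z.th * (1 + z.r i / 2) ^ z.b i ≤ 1 / 2
  gb2 : z.th * (1 + z.r (z.I + 1) / 2) ^ z.bm ≤ 1 / 2
  gb3 : z.th * (1 + z.r (z.I + 2) / 2) ≤ 1 / 2
  th0 : 0 ≤ z.th
  th4 : z.th ≤ 1 / 4
  mu1 : 1 ≤ z.μ
  hth : z.r 0 * z.k + ∑ i ∈ range z.I, z.r (i + 1) * (z.b i + z.k / 2 ^ z.s i) +
    z.r (z.I + 1) * (min z.k (z.b z.I + z.k / 2 ^ z.s z.I) : ℕ) + z.r (z.I + 2) * z.bm ≤ z.th
  hY : z.r 0 * z.σ + ∑ i ∈ range z.I, z.r (i + 1) * (z.μ * z.b i + z.σ / 2 ^ z.s i) ≤ z.Y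

end Num

theorem choose_ratio (n b s : ℕ) :
    (n.choose b : ℝ) / (b + n / 2 ^ s).choose b ≤ (2 ^ s) ^ b := by
  have h0 : (0 : ℝ) < (b + n / 2 ^ s).choose b := by
    exact_mod_cast Nat.choose_pos (Nat.le_add_right _ _)
  have h1 : (n.choose b : ℝ) ≤ (n : ℝ) ^ b / b.factorial := Nat.choose_le_pow_div b n
  have h2 : (((b + n / 2 ^ s + 1 - b : ℕ) : ℝ)) ^ b / b.factorial ≤ (b + n / 2 ^ s).choose b :=
    Nat.pow_le_choose b _
  have h3 : (n : ℝ) ≤ 2 ^ s * ((b + n / 2 ^ s + 1 - b : ℕ) : ℝ) := by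
    have e : b + n / 2 ^ s + 1 - b = n / 2 ^ s + 1 := by
      rw [add_assoc, Nat.add_sub_cancel_left]
    rw [e]
    exact_mod_cast (Nat.lt_mul_div_succ n (by positivity : 0 < 2 ^ s)).le
  rw [div_le_iff₀ h0]
  calc (n.choose b : ℝ) ≤ (2 ^ s * ((b + n / 2 ^ s + 1 - b : ℕ) : ℝ)) ^ b / b.factorial :=
        h1.trans (by gcongr)
    _ = (2 ^ s) ^ b * ((((b + n / 2 ^ s + 1 - b : ℕ) : ℝ)) ^ b / b.factorial) := by
        rw [mul_pow]; ring
    _ ≤ _ := by gcongr

theorem layer (F : Finset V) (g : V → ℕ) (μ : ℕ) :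
    ∑ ν : Fin (μ + 1), (F.filter fun q => ν.1 ≠ 0 ∧ ν.1 ≤ g q).card = ∑ q ∈ F, min (g q) μ := by
  simp only [Finset.card_filter]
  rw [Finset.sum_comm]
  refine Finset.sum_congr rfl fun q _ => ?_
  rw [Fin.sum_univ_eq_sum_range (fun ν => if ν ≠ 0 ∧ ν ≤ g q then 1 else 0) (μ + 1),
    ← Finset.card_filter]
  have : (range (μ + 1)).filter (fun ν => ν ≠ 0 ∧ ν ≤ g q) = Icc 1 (min (g q) μ) := by
    ext x
    simp only [Finset.mem_filter, Finset.mem_range, Finset.mem_Icc]
    omega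
  rw [this]
  simp

open Classical in
theorem colorable_watch (z : Num) (ok : z.Ok) (H : SimpleGraph V) (O par S0 S1 Sx : V → Finset V)
    (pos : V → ℕ) (A : ℕ → Finset V) (col : ℕ → ℕ) (M T N Δ1 Δ2 : ℕ) (Δ : ℝ)
    (inj : ∀ u v, pos u = pos v → u = v) (parO : ∀ v, par v ⊆ O v) (irr : ∀ v, v ∉ par v)
    (cross : ∀ i i' u v, i < i' → col i = col i' → u ∈ A i → v ∈ A i' → H.Adj u v → u ∈ O v)
    (inner : ∀ i u v, u ∈ A i → v ∈ A i → pos u < pos v → H.Adj u v → u ∈ O v ∨ v ∈ par u)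
    (near0 : ∀ i u p, u ∈ A i → p ∈ A i → p ∈ par u → p ∈ S0 u)
    (near1 : ∀ i u c p, u ∈ A i → c ∈ A i → p ∈ A i → c ∈ O u → p ∈ par c → p ∈ S1 u)
    (hS1 : ∀ u, ∀ p ∈ S1 u, ∃ c ∈ O u, p ∈ par c)
    (sub : ∀ u p, p = u ∨ p ∈ S0 u ∨ p ∈ S1 u → p ∈ Sx u)
    (near2 : ∀ i u p q, p = u ∨ p ∈ S0 u ∨ p ∈ S1 u → p ∈ A i → q ∈ A i → q ∈ par p → q ∈ Sx u)
    (s0k : ∀ v, (S0 v).card ≤ z.k) (park : ∀ v, (par v).card ≤ z.k)
    (hM : ∀ v, (O v).card ≤ M) (hσ : M * z.k ≤ z.σ) (hΔ : 1 ≤ Δ)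
    (hd1 : ∀ a, (Sx a).card ≤ Δ1) (hd2 : ∀ p, (Finset.univ.filter fun b => p ∈ Sx b).card ≤ Δ2)
    (hd3 : (Δ1 * Δ2 : ℕ) ≤ Δ)
    (hj : z.init ≤ 1 / (4 * Δ)) (hN : ∀ i < T, col i < N)
    (hinj : ∀ v i i', v ∈ A i → v ∈ A i' → col i = col i' → i = i')
    (hcnt : ∀ v, M + z.a (z.I + 3) + 2 * z.j + z.β ≤ ((range T).filter fun i => v ∈ A i).card) :
    H.Colorable N := by
  set mu : V → V → ℕ := fun u q => ((O u).filter fun c => q ∈ par c).card with hmu
  have musum : ∀ u (F : Finset V) (g : V → ℝ),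
      ∑ c ∈ O u, ∑ q ∈ par c ∩ F, g q = ∑ q ∈ F, mu u q * g q := by
    intro u F g
    rw [Finset.sum_congr rfl (g := fun c => ∑ q ∈ F, if q ∈ par c then g q else 0)
      (fun c _ => by rw [Finset.inter_comm, Finset.sum_ite_mem]), Finset.sum_comm]
    refine Finset.sum_congr rfl fun q _ => ?_
    rw [← Finset.sum_filter, Finset.sum_const, nsmul_eq_mul]
  have mule : ∀ u (F : Finset V), ∑ q ∈ F, mu u q ≤ z.σ := by
    intro u F
    have h1 := musum u F fun _ => 1
    simp only [Finset.sum_const, nsmul_eq_mul, mul_one] at h1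
    have h2 : ∑ q ∈ F, mu u q = ∑ c ∈ O u, (par c ∩ F).card := by exact_mod_cast h1.symm
    rw [h2]
    refine (Finset.sum_le_card_nsmul _ _ z.k fun c _ =>
      (Finset.card_le_card Finset.inter_subset_left).trans (park c)).trans ?_
    rw [smul_eq_mul]
    exact (Nat.mul_le_mul_right _ (hM u)).trans hσ
  have mu1 : ∀ u, ∀ q ∈ S1 u, 1 ≤ mu u q := fun u q hq => by
    obtain ⟨c, c1, c2⟩ := hS1 u q hq
    exact Finset.card_pos.2 ⟨c, Finset.mem_filter.2 ⟨c1, c2⟩⟩
  set Z1 : V → ℕ → Finset V := fun u ν =>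
    if ν = 0 then S0 u else (S1 u).filter fun q => ν ≤ mu u q with hZ1
  let d : Data V ((Fin (z.μ + 1) × Fin (z.I + 1)) ⊕ Bool) :=
    { H := H, O := O, par := par, S1 := S1, Lt := fun u => (S1 u).filter fun q => mu u q ≤ z.μ,
      Sx := Sx, pos := pos, A := A, col := col, c := ⟨z.I + 3, z.a, z.r, z.th⟩, lo := z.I + 1,
      Z := fun u => Sum.elim (fun x => Z1 u x.1) fun e => if e then {u} else S0 u,
      w := Sum.elim (fun x => x.2) fun e => if e then z.I + 2 else z.I + 1,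
      b := Sum.elim (fun x => z.b x.2) fun e => if e then 1 else z.bm,
      n := fun u => Sum.elim (fun x => z.b x.2 + (Z1 u x.1).card / 2 ^ z.s x.2)
        fun e => if e then 1 else z.bm,
      j := z.j, y := z.a (z.I + 3), β := z.β, Y := z.Y }
  have mem : ∀ u x, ∀ p ∈ d.Z u x, p = u ∨ p ∈ S0 u ∨ p ∈ S1 u := by
    rintro u (x | _ | _) p hp
    · simp only [d, Sum.elim_inl, hZ1] at hp
      split_ifs at hp
      exacts [Or.inr (Or.inl hp), Or.inr (Or.inr (Finset.mem_filter.1 hp).1)]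
    · exact Or.inr (Or.inl hp)
    · exact Or.inl (Finset.mem_singleton.1 hp)
  have cnt1 : ∀ D t u, (∀ x, d.cnt D t u x < d.n u x) → ∀ ν ≤ z.μ, ∀ i ≤ z.I,
      ((Z1 u ν).filter (full D t (z.a (i + 1)))).card ≤ z.b i + (Z1 u ν).card / 2 ^ z.s i :=
    fun D t u h ν hν i hi => (h (Sum.inl (⟨ν, by omega⟩, ⟨i, by omega⟩))).le
  have dok : d.Ok := by
    refine ⟨inj, parO, irr, cross, inner, near1,
      fun u p hp => sub u p (Or.inr (Or.inr (Finset.mem_filter.1 hp).1)),
      fun u x p hp => sub u p (mem u x p hp), fun i u x p q hp => near2 i u p q (mem u x p hp),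
      ⟨ok.r0, ok.r1⟩, by simp [d], ok.amono, ?_, ?_, ?_, ok.th0, ok.th4,
      fun D t i c hc h => ?_, fun D t u h => ⟨fun hu => ?_, ?_, ?_⟩⟩
    · rintro (x | _ | _)
      · have := x.2.2
        simp only [d, Sum.elim_inl]; omega
      · simp [d]
      · simp [d]
    · rintro (x | _ | _)
      · exact ok.gb1 _ (Nat.lt_succ_iff.1 x.2.2)
      · exact ok.gb2
      · simpa [d, gw] using ok.gb3
    · rintro u (x | _ | _)
      · exact Nat.le_add_right _ _
      · exact le_rfl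
      · exact le_rfl
    · set F := (par c).filter (fun q => q ∈ A i ∧ q ∉ D ∧ 0 ≤ pos q ∧ q ∈ Finset.univ) with hF
      have e1 : d.hz d.c.m i D t 0 Finset.univ c =
          ∑ x ∈ range (z.I + 3), z.r x * ((F.filter fun q => z.a x ≤ t q).card : ℝ) := by
        simp only [Data.hz, rho, d]
        rw [Finset.sum_comm]
        refine Finset.sum_congr rfl fun x _ => ?_
        rw [← Finset.sum_filter, Finset.sum_const, nsmul_eq_mul, mul_comm]
      have e2 : ∀ x, (F.filter fun q => z.a x ≤ t q) ⊆ (S0 c).filter (full D t (z.a x)) := by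
        intro x q hq
        simp only [hF, Finset.mem_filter] at hq ⊢
        exact ⟨near0 i c q hc hq.1.2.1 hq.1.1, hq.2, fun hD => absurd hD hq.1.2.2.1⟩
      have e3 : ∀ x, (F.filter fun q => z.a x ≤ t q).card ≤ z.k := fun x =>
        (Finset.card_le_card ((e2 x).trans (Finset.filter_subset _ _))).trans (s0k c)
      have e4 : ∀ x ≤ z.I, (F.filter fun q => z.a (x + 1) ≤ t q).card ≤
          z.b x + z.k / 2 ^ z.s x := fun x hx => by
        have h1 := cnt1 D t c h 0 (Nat.zero_le _) x hx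
        simp only [hZ1, if_true] at h1
        exact (Finset.card_le_card (e2 _)).trans
          (h1.trans (Nat.add_le_add_left (Nat.div_le_div_right (s0k c)) _))
      have e5 : (F.filter fun q => z.a (z.I + 2) ≤ t q).card ≤ z.bm :=
        (Finset.card_le_card (e2 _)).trans (h (Sum.inr false)).le
      rw [e1, Finset.sum_range_succ, Finset.sum_range_succ, Finset.sum_range_succ']
      refine le_trans (add_le_add (add_le_add ?_ ?_) ?_) ok.hth
      · rw [add_comm]
        refine add_le_add (mul_le_mul_of_nonneg_left (by exact_mod_cast e3 0) (ok.r0 _))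
          (Finset.sum_le_sum fun x hx => mul_le_mul_of_nonneg_left ?_ (ok.r0 _))
        have h1 : ((F.filter fun q => z.a (x + 1) ≤ t q).card : ℝ) ≤
            z.b x + (z.k / 2 ^ z.s x : ℕ) := by
          exact_mod_cast e4 x (Finset.mem_range.1 hx).le
        have h2 : ((z.k / 2 ^ z.s x : ℕ) : ℝ) ≤ z.k / 2 ^ z.s x := by
          exact_mod_cast Nat.cast_div_le (α := ℝ) (m := z.k) (n := 2 ^ z.s x)
        linarith
      · exact mul_le_mul_of_nonneg_left (by exact_mod_cast le_min (e3 _) (e4 _ le_rfl)) (ok.r0 _)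
      · exact mul_le_mul_of_nonneg_left (by exact_mod_cast e5) (ok.r0 _)
    · by_contra hc
      have h1 : d.cnt D t u (Sum.inr true) < 1 := h (Sum.inr true)
      have h2 : u ∈ ({u} : Finset V).filter (full D t (z.a (z.I + 2 + 1))) :=
        Finset.mem_filter.2 ⟨Finset.mem_singleton_self u, not_lt.1 hc, fun hD => absurd hD hu⟩
      exact absurd (Finset.card_pos.2 ⟨u, h2⟩) (Nat.not_lt.2 (Nat.lt_succ_iff.1 h1))
    · have h1 := cnt1 D t u h 1 ok.mu1 z.I le_rfl
      have h2 : (Z1 u 1).card ≤ z.σ := by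
        refine le_trans ?_ (mule u (Z1 u 1))
        rw [Finset.card_eq_sum_ones]
        exact Finset.sum_le_sum fun q hq => by
          simp only [hZ1, one_ne_zero, if_false] at hq
          exact (Finset.mem_filter.1 hq).2
      have h3 : ((S1 u).filter fun q => z.μ + 1 ≤ mu u q).card ≤ z.σ / (z.μ + 1) := by
        rw [Nat.le_div_iff_mul_le (by omega)]
        refine le_trans ?_ (mule u ((S1 u).filter fun q => z.μ + 1 ≤ mu u q))
        rw [← smul_eq_mul]
        exact Finset.card_nsmul_le_sum _ _ _ fun q hq => (Finset.mem_filter.1 hq).2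
      have h4 : d.bad D t u ≤ ((Z1 u 1).filter (full D t (z.a (z.I + 1))) ∪
          (S1 u).filter fun q => z.μ + 1 ≤ mu u q).card := by
        refine Finset.card_le_card fun p hp => ?_
        obtain ⟨p1, p2, p3⟩ := Finset.mem_filter.1 hp
        simp only [hZ1, one_ne_zero, if_false, Finset.mem_union, Finset.mem_filter]
        rcases p3 with p3 | p3
        · exact Or.inl ⟨⟨p1, mu1 u p p1⟩, le_trans (Nat.le_succ _) p3, fun _ => p3⟩
        · exact Or.inr ⟨p1, not_le.1 fun hh => p3 (Finset.mem_filter.2 ⟨p1, hh⟩)⟩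
      have h5 := Nat.div_le_div_right (c := 2 ^ z.s z.I) h2
      have h6 := h4.trans (Finset.card_union_le _ _)
      show d.bad D t u ≤ z.β
      unfold Num.β
      omega
    · set L := (S1 u).filter fun q => mu u q ≤ z.μ with hL
      have e1 : ∑ c ∈ d.O u, d.load D t u c = ∑ x ∈ range (z.I + 1),
          z.r x * ((∑ q ∈ L.filter (full D t (z.a x)), mu u q : ℕ) : ℝ) := by
        simp only [Data.load, d]
        rw [musum]
        simp only [Finset.mul_sum]
        rw [Finset.sum_comm]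
        refine Finset.sum_congr rfl fun x _ => ?_
        push_cast
        rw [Finset.mul_sum, Finset.sum_filter (full D t (z.a x))]
        refine Finset.sum_congr rfl fun q _ => ?_
        split_ifs <;> ring
      rw [e1, Finset.sum_range_succ', add_comm]
      refine le_trans (add_le_add (mul_le_mul_of_nonneg_left (by exact_mod_cast mule u _)
        (ok.r0 _)) (Finset.sum_le_sum fun x hx => mul_le_mul_of_nonneg_left ?_ (ok.r0 _))) ok.hY
      have hx' := (Finset.mem_range.1 hx).le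
      have f1 : ∑ q ∈ L.filter (full D t (z.a (x + 1))), mu u q =
          ∑ ν : Fin (z.μ + 1), ((L.filter (full D t (z.a (x + 1)))).filter
            fun q => ν.1 ≠ 0 ∧ ν.1 ≤ mu u q).card := by
        rw [layer]
        exact Finset.sum_congr rfl fun q hq =>
          (min_eq_left (Finset.mem_filter.1 (Finset.mem_filter.1 hq).1).2).symm
      have f2 : ∀ ν : Fin (z.μ + 1), ((((L.filter (full D t (z.a (x + 1)))).filter
            fun q => ν.1 ≠ 0 ∧ ν.1 ≤ mu u q).card : ℕ) : ℝ) ≤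
          (if ν.1 ≠ 0 then (z.b x : ℝ) else 0) +
            (((S1 u).filter fun q => ν.1 ≠ 0 ∧ ν.1 ≤ mu u q).card : ℝ) / 2 ^ z.s x := by
        intro ν
        by_cases hν : ν.1 = 0
        · simp [hν]
        · have g1 := cnt1 D t u h ν.1 (Nat.lt_succ_iff.1 ν.2) x hx'
          simp only [hZ1, if_neg hν] at g1
          simp only [hν, ne_eq, not_false_eq_true, true_and, if_true]
          have g2 : ((L.filter (full D t (z.a (x + 1)))).filter fun q => ν.1 ≤ mu u q).card ≤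
              (((S1 u).filter fun q => ν.1 ≤ mu u q).filter (full D t (z.a (x + 1)))).card :=
            Finset.card_le_card fun q hq => by
              simp only [hL, Finset.mem_filter] at hq ⊢
              exact ⟨⟨hq.1.1.1, hq.2⟩, hq.1.2⟩
          have g3 : ((((S1 u).filter fun q => ν.1 ≤ mu u q).card / 2 ^ z.s x : ℕ) : ℝ) ≤
              (((S1 u).filter fun q => ν.1 ≤ mu u q).card : ℝ) / 2 ^ z.s x := by
            exact_mod_cast Nat.cast_div_le (α := ℝ) (n := 2 ^ z.s x)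
          have g4 : ((((L.filter (full D t (z.a (x + 1)))).filter
              fun q => ν.1 ≤ mu u q).card : ℕ) : ℝ) ≤
              z.b x + (((S1 u).filter fun q => ν.1 ≤ mu u q).card / 2 ^ z.s x : ℕ) := by
            exact_mod_cast g2.trans g1
          linarith
      have f3 : ∑ ν : Fin (z.μ + 1), ((S1 u).filter fun q => ν.1 ≠ 0 ∧ ν.1 ≤ mu u q).card ≤
          z.σ := by
        rw [layer]
        exact (Finset.sum_le_sum fun q _ => min_le_left _ _).trans (mule u _)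
      have f4 : ∑ ν : Fin (z.μ + 1), (if ν.1 ≠ 0 then (z.b x : ℝ) else 0) = z.μ * z.b x := by
        rw [Fin.sum_univ_succ]
        simp
      rw [f1]
      push_cast
      refine (Finset.sum_le_sum fun ν _ => f2 ν).trans ?_
      rw [Finset.sum_add_distrib, f4, ← Finset.sum_div]
      have f5 : ∑ ν : Fin (z.μ + 1),
          (((S1 u).filter fun q => ν.1 ≠ 0 ∧ ν.1 ≤ mu u q).card : ℝ) ≤ z.σ := by
        exact_mod_cast f3
      gcongr
  refine Data.colorable dok M T N hM Δ hΔ (fun a => le_trans ?_ hd3)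
    (fun u => le_trans ?_ hj) hN hinj hcnt
  · have hsub : (Finset.univ.filter fun b => d.adj a b) ⊆
        (Sx a).biUnion fun p => Finset.univ.filter fun b => p ∈ Sx b := by
      intro b hb
      obtain ⟨p, p1, p2⟩ := (Finset.mem_filter.1 hb).2
      exact Finset.mem_biUnion.2 ⟨p, p1, Finset.mem_filter.2 ⟨mem_univ _, p2⟩⟩
    have h1 := (Finset.card_le_card hsub).trans (Finset.card_biUnion_le.trans
      (Finset.sum_le_card_nsmul _ _ _ fun p _ => hd2 p))
    rw [smul_eq_mul] at h1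
    exact_mod_cast h1.trans (Nat.mul_le_mul_right _ (hd1 a))
  unfold Num.init
  refine add_le_add ?_ le_rfl
  rw [Fintype.sum_sum_type, Fintype.sum_bool, Fintype.sum_prod_type, add_assoc]
  have g0 : ∀ i, 0 < 1 + z.r i / 2 := fun i => by linarith [ok.r0 i]
  refine add_le_add ?_ ?_
  · refine (Finset.sum_le_card_nsmul _ _ (∑ i ∈ range (z.I + 1),
      (2 ^ z.s i / (1 + z.r i / 2) ^ (z.a (i + 1) - z.a i)) ^ z.b i) fun ν _ => ?_).trans
      (le_of_eq (by simp))
    rw [← Fin.sum_univ_eq_sum_range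
      (fun i => ((2 : ℝ) ^ z.s i / (1 + z.r i / 2) ^ (z.a (i + 1) - z.a i)) ^ z.b i)]
    refine Finset.sum_le_sum fun i _ => ?_
    simp only [d, Sum.elim_inl, gw]
    rw [div_right_comm, div_pow, ← pow_mul (1 + z.r i / 2)]
    have := g0 i
    exact div_le_div_of_nonneg_right (choose_ratio _ _ _) (by positivity)
  · rw [add_comm]
    refine add_le_add ?_ (le_of_eq (by simp [d, gw]))
    simp only [d, Sum.elim_inr, gw, Bool.false_eq_true, if_false, Nat.choose_self, Nat.cast_one,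
      div_one]
    rw [div_pow, ← pow_mul]
    have := g0 (z.I + 1)
    refine div_le_div_of_nonneg_right ?_ (by positivity)
    exact_mod_cast (Nat.choose_le_pow _ _).trans (Nat.pow_le_pow_left (s0k u) _)

end Pool.Agent.P.MP_c25521_co.Multi
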