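import Mathlib
import Pool.Agent.P.MP_c25521_co.MWatch

/-!
Levels and blocks for the colouring process with several speeds.
-/

namespace Pool.Agent.P.MP_c25521_co.Multi

open Finset Pool.Agent.P.MP_c25521_co

variable {V : Type} [Fintype V] [DecidableEq V]

theorem ar1 (x : ℕ) (h : 1 ≤ x) : 4 * x + 4 * x * (5 * x) + 1 ≤ 60 * x ^ 2 := by nlinarith

theorem ar2 (x : ℕ) (h : 1 ≤ x) : 60 * x ^ 2 + 4 * x * (60 * x ^ 2) ≤ 480 * x ^ 3 := by
  have : x ^ 2 ≤ x ^ 3 := Nat.pow_le_pow_right h (by norm_num)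
  nlinarith

theorem ar3 (x : ℕ) (h : 0 < x) : x + 2 * x * x + 1 ≤ 4 * x ^ 2 := by nlinarith

theorem ar4 (x : ℕ) (h : 0 < x) : 4 * x ^ 2 + 4 * x ^ 2 * x ≤ 8 * x ^ 3 := by
  have : x ^ 2 ≤ x ^ 3 := Nat.pow_le_pow_right h (by norm_num)
  nlinarith

theorem colorable_param (D H : SimpleGraph V) (m lam r x : ℕ) (z : Num) (ok : z.Ok)
    (hM : 0 < m + z.k) (hlam : 2 ≤ lam) (hD : Degen D m) (out : V → Finset V)
    (hout : ∀ v, (out v).card ≤ z.k)
    (hH : ∀ u v, H.Adj u v → D.Adj u v ∨ v ∈ out u ∨ u ∈ out v) (Δ : ℕ)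
    (hΔ : 3840 * (m + z.k) ^ 6 * lam ^ (3 * r) ≤ Δ) (hj : z.init ≤ 1 / (4 * (Δ : ℝ)))
    (hσ : (m + z.k + 2 * (m + z.k) / lam) * z.k ≤ z.σ)
    (hx : m + z.k + 2 * (m + z.k) / lam + z.a (z.I + 3) + 2 * z.j + z.β ≤ r * x) :
    H.Colorable ((r + 1) * x) := by
  classical
  obtain ⟨pos, back, -, hp2, hback, hp4, hp5⟩ := exists_order_aux D m hD Finset.univ
  have hb : ∀ v, ∀ u ∈ back v, pos u < pos v := fun v u hu => (hp4 v (mem_univ v) u hu).2
  set k := z.k with hk
  set M := m + k with hMdef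
  set B : V → Finset V := fun v => back v ∪ out v with hB
  have hBc : ∀ v, (B v).card ≤ M := fun v =>
    (Finset.card_union_le _ _).trans (Nat.add_le_add (hback v) (hout v))
  obtain ⟨h, hh1, hh2⟩ := exists_level B B M M lam r hM hM hlam hBc hBc
  set R := r + 1 with hR
  have hex : ∀ v κ, ∃ b, κ < R → κ ≠ h v % R →
      R * b + κ + 1 ≤ h v + R ∧ h v + 1 ≤ R * b + κ := by
    intro v κ
    by_cases hc : κ < R ∧ κ ≠ h v % R
    · obtain ⟨b, hb⟩ := exists_block (h v) κ R hc.1 hc.2
      exact ⟨b, fun _ _ => hb⟩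
    · exact ⟨0, fun h1 h2 => absurd ⟨h1, h2⟩ hc⟩
  choose blk hblk using hex
  set Bn := Finset.univ.sup h + 2 with hBn
  have hBn0 : 0 < Bn := by omega
  have hκ : ∀ g, g % R < R := fun g => Nat.mod_lt _ (by omega)
  have hblt : ∀ v g, g % R ≠ h v % R → blk v (g % R) < Bn := by
    intro v g hg
    have h1 := (hblk v _ (hκ g) hg).1
    have h2 : h v ≤ Finset.univ.sup h := Finset.le_sup (f := h) (mem_univ v)
    by_contra hc
    have h3 : h v + 2 ≤ blk v (g % R) := by omega
    have h4 := Nat.mul_le_mul_left R h3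
    have h5 : h v ≤ R * h v := Nat.le_mul_of_pos_left _ (by omega)
    rw [Nat.mul_add] at h4
    omega
  set O : V → Finset V := fun v => B v ∪ Finset.univ.filter fun w => v ∈ B w ∧ h v + 2 ≤ h w
    with hO
  set par : V → Finset V := fun v => (out v).erase v with hpar
  set S0 : V → Finset V := fun u => (par u).filter fun p => h p + 1 ≤ h u + r with hS0
  set S1 : V → Finset V := fun u => Finset.univ.filter fun p =>
    ∃ c ∈ O u, p ∈ S0 c ∧ h c + 1 ≤ h u + r with hS1
  set Mm : V → Finset V := fun u => insert u (S0 u ∪ S1 u) with hMm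
  set Sx : V → Finset V := fun u => Mm u ∪ (Mm u).biUnion S0 with hSx
  set A : ℕ → Finset V := fun i => Finset.univ.filter fun v =>
    i / Bn % R ≠ h v % R ∧ blk v (i / Bn % R) + i % Bn + 1 = Bn with hA
  have mA : ∀ i v, v ∈ A i ↔ i / Bn % R ≠ h v % R ∧ blk v (i / Bn % R) + i % Bn + 1 = Bn := by
    intro i v; simp [hA]
  have hOc : ∀ v, (O v).card ≤ M + 2 * M / lam := fun v =>
    (Finset.card_union_le _ _).trans
      (Nat.add_le_add (hBc v) ((Nat.le_div_iff_mul_le (by omega)).2 (hh1 v)))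
  have hparc : ∀ v, (par v).card ≤ k := fun v => Finset.card_erase_le.trans (hout v)
  have same : ∀ i u v, u ∈ A i → v ∈ A i → h u + 1 ≤ h v + r := by
    intro i u v hu hv
    obtain ⟨u1, u2⟩ := (mA i u).1 hu
    obtain ⟨v1, v2⟩ := (mA i v).1 hv
    have a1 := (hblk u _ (hκ _) u1).2
    have a2 := (hblk v _ (hκ _) v1).1
    have e : blk u (i / Bn % R) = blk v (i / Bn % R) := by omega
    rw [e] at a1
    omega
  have adjB : ∀ u v, H.Adj u v → u ∈ B v ∨ v ∈ B u := by
    intro u v huv
    simp only [hB, Finset.mem_union]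
    rcases hH u v huv with h1 | h1 | h1
    · rcases hp5 u (mem_univ u) v (mem_univ v) h1 with h2 | h2 <;> tauto
    · tauto
    · tauto
  have mS0 : ∀ i u p, u ∈ A i → p ∈ A i → p ∈ par u → p ∈ S0 u := fun i u p hu hp h1 =>
    Finset.mem_filter.2 ⟨h1, same i p u hp hu⟩
  have mMm : ∀ u p, p = u ∨ p ∈ S0 u ∨ p ∈ S1 u → p ∈ Mm u := fun u p hp => by
    simpa only [hMm, Finset.mem_insert, Finset.mem_union] using hp
  have hS0c : ∀ v, (S0 v).card ≤ k := fun v => (Finset.card_filter_le _ _).trans (hparc v)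
  have hP : 1 ≤ lam ^ r := Nat.one_le_pow _ _ (by omega)
  have hkM : k ≤ M := by omega
  have hΓ0 : ∀ p, (Finset.univ.filter fun b => p ∈ S0 b).card ≤ 4 * M * lam ^ r := fun p =>
    le_trans (Finset.card_le_card fun b hb => by
      obtain ⟨c1, c2⟩ := Finset.mem_filter.1 (Finset.mem_filter.1 hb).2
      exact Finset.mem_filter.2 ⟨mem_univ _,
        Finset.mem_union_right _ (Finset.mem_of_mem_erase c1), c2⟩) (hh2 p)
  have hΓ1 : ∀ p, (Finset.univ.filter fun b => p ∈ S1 b).card ≤
      (4 * M * lam ^ r) * (5 * M * lam ^ r) := by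
    intro p
    have hsub : (Finset.univ.filter fun b => p ∈ S1 b) ⊆
        (Finset.univ.filter fun c => p ∈ S0 c).biUnion fun c =>
          (Finset.univ.filter fun b => c ∈ B b ∧ h c + 1 ≤ h b + r) ∪ B c := by
      intro b hb
      obtain ⟨c, c1, c2, c3⟩ := (Finset.mem_filter.1 (Finset.mem_filter.1 hb).2).2
      refine Finset.mem_biUnion.2 ⟨c, Finset.mem_filter.2 ⟨mem_univ _, c2⟩, ?_⟩
      rcases Finset.mem_union.1 c1 with c5 | c5
      · exact Finset.mem_union_left _ (Finset.mem_filter.2 ⟨mem_univ _, c5, c3⟩)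
      · exact Finset.mem_union_right _ (Finset.mem_filter.1 c5).2.1
    refine (Finset.card_le_card hsub).trans (Finset.card_biUnion_le.trans
      ((Finset.sum_le_card_nsmul _ _ (5 * M * lam ^ r) fun c _ => ?_).trans ?_))
    · have a1 := hh2 c
      have a2 := hBc c
      have a3 : M ≤ M * lam ^ r := Nat.le_mul_of_pos_right _ hP
      refine (Finset.card_union_le _ _).trans ?_
      have e1 : 4 * M * lam ^ r = 4 * (M * lam ^ r) := by ring
      have e2 : 5 * M * lam ^ r = 5 * (M * lam ^ r) := by ring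
      omega
    · rw [smul_eq_mul]; exact Nat.mul_le_mul_right _ (hΓ0 p)
  have hν : 1 ≤ M * lam ^ r := Nat.mul_pos hM hP
  have hΓ2 : ∀ p, (Finset.univ.filter fun b => p ∈ Mm b).card ≤ 60 * (M * lam ^ r) ^ 2 := by
    intro p
    have hsub : (Finset.univ.filter fun b => p ∈ Mm b) ⊆ insert p
        ((Finset.univ.filter fun b => p ∈ S0 b) ∪ Finset.univ.filter fun b => p ∈ S1 b) := by
      intro b hb
      have := (Finset.mem_filter.1 hb).2
      simp only [hMm, Finset.mem_insert, Finset.mem_union] at this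
      simp only [Finset.mem_insert, Finset.mem_union, Finset.mem_filter, Finset.mem_univ, true_and]
      rcases this with h1 | h1 | h1
      exacts [Or.inl h1.symm, Or.inr (Or.inl h1), Or.inr (Or.inr h1)]
    have a1 := (Finset.card_le_card hsub).trans ((Finset.card_insert_le _ _).trans
      (Nat.add_le_add_right ((Finset.card_union_le _ _).trans
        (Nat.add_le_add (hΓ0 p) (hΓ1 p))) 1))
    have e1 : 4 * M * lam ^ r = 4 * (M * lam ^ r) := by ring
    have e2 : 5 * M * lam ^ r = 5 * (M * lam ^ r) := by ring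
    rw [e1, e2] at a1
    exact a1.trans (ar1 _ hν)
  have hΓ : ∀ p, (Finset.univ.filter fun b => p ∈ Sx b).card ≤ 480 * (M * lam ^ r) ^ 3 := by
    intro p
    have hsub : (Finset.univ.filter fun b => p ∈ Sx b) ⊆
        (Finset.univ.filter fun b => p ∈ Mm b) ∪
          (Finset.univ.filter fun c => p ∈ S0 c).biUnion fun c =>
            Finset.univ.filter fun b => c ∈ Mm b := by
      intro b hb
      rcases Finset.mem_union.1 (Finset.mem_filter.1 hb).2 with h1 | h1
      · exact Finset.mem_union_left _ (Finset.mem_filter.2 ⟨mem_univ _, h1⟩)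
      · obtain ⟨c, c1, c2⟩ := Finset.mem_biUnion.1 h1
        exact Finset.mem_union_right _ (Finset.mem_biUnion.2
          ⟨c, Finset.mem_filter.2 ⟨mem_univ _, c2⟩, Finset.mem_filter.2 ⟨mem_univ _, c1⟩⟩)
    have a1 := Finset.sum_le_card_nsmul (Finset.univ.filter fun c => p ∈ S0 c)
      (fun c => (Finset.univ.filter fun b => c ∈ Mm b).card) _ fun c _ => hΓ2 c
    rw [smul_eq_mul] at a1
    have a2 := (Finset.card_le_card hsub).trans ((Finset.card_union_le _ _).trans
      (Nat.add_le_add (hΓ2 p) (Finset.card_biUnion_le.trans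
        (a1.trans (Nat.mul_le_mul_right _ (hΓ0 p))))))
    have e1 : 4 * M * lam ^ r = 4 * (M * lam ^ r) := by ring
    rw [e1] at a2
    exact a2.trans (ar2 _ hν)
  have hdiv : 2 * M / lam ≤ M := by
    exact Nat.div_le_of_le_mul (Nat.mul_le_mul_right _ hlam)
  have hS1c : ∀ a, (S1 a).card ≤ 2 * M * M := by
    intro a
    have hsub : S1 a ⊆ (O a).biUnion S0 := by
      intro p hp
      obtain ⟨c, c1, c2, -⟩ := (Finset.mem_filter.1 hp).2
      exact Finset.mem_biUnion.2 ⟨c, c1, c2⟩
    refine (Finset.card_le_card hsub).trans (Finset.card_biUnion_le.trans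
      ((Finset.sum_le_card_nsmul _ _ M fun c _ => (hS0c c).trans hkM).trans ?_))
    rw [smul_eq_mul]
    exact Nat.mul_le_mul_right _ ((hOc a).trans (by omega))
  have hMc : ∀ a, (Mm a).card ≤ 4 * M ^ 2 := by
    intro a
    have a1 := (Finset.card_insert_le a (S0 a ∪ S1 a)).trans (Nat.add_le_add_right
      ((Finset.card_union_le _ _).trans (Nat.add_le_add ((hS0c a).trans hkM) (hS1c a))) 1)
    exact a1.trans (ar3 _ hM)
  have hSc : ∀ a, (Sx a).card ≤ 8 * M ^ 3 := by
    intro a
    have a1 := Finset.sum_le_card_nsmul (Mm a) (fun c => (S0 c).card) M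
      fun c _ => (hS0c c).trans hkM
    rw [smul_eq_mul] at a1
    have a2 := (Finset.card_union_le (Mm a) ((Mm a).biUnion S0)).trans (Nat.add_le_add (hMc a)
      (Finset.card_biUnion_le.trans (a1.trans (Nat.mul_le_mul_right _ (hMc a)))))
    exact a2.trans (ar4 _ hM)
  have hΔ1 : 1 ≤ Δ := le_trans (Nat.succ_le_of_lt (by positivity)) hΔ
  refine colorable_watch z ok H O par S0 S1 Sx pos A (fun i => i / Bn) (M + 2 * M / lam)
    (R * x * Bn) (R * x) (8 * M ^ 3) (480 * (M * lam ^ r) ^ 3) Δ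
    (fun u v e => hp2 u (mem_univ u) v (mem_univ v) e) (fun v w hw => ?_)
    (fun v => Finset.notMem_erase _ _) (fun i i' u v hi e hu hv huv => ?_)
    (fun i u v hu hv hlt huv => ?_) mS0 (fun i u c p hu hc hp h1 h2 => ?_)
    (fun u p hp => ?_) (fun u p hp => Finset.mem_union_left _ (mMm u p hp))
    (fun i u p q hp h1 h2 h3 => Finset.mem_union_right _
      (Finset.mem_biUnion.2 ⟨p, mMm u p hp, mS0 i p q h1 h2 h3⟩))
    hS0c hparc hOc hσ (by exact_mod_cast hΔ1) hSc hΓ ?_ hj
    (fun i hi => Nat.div_lt_of_lt_mul (by rwa [mul_comm] at hi))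
    (fun v i i' hi hi' e => ?_) (fun v => ?_)
  · exact Finset.mem_union_left _ (Finset.mem_union_right _ (Finset.mem_of_mem_erase hw))
  · rcases adjB u v huv with h1 | h1
    · exact Finset.mem_union_left _ h1
    · refine Finset.mem_union_right _ (Finset.mem_filter.2 ⟨mem_univ _, h1, ?_⟩)
      obtain ⟨u1, u2⟩ := (mA i u).1 hu
      obtain ⟨v1, v2⟩ := (mA i' v).1 hv
      have e' : i / Bn = i' / Bn := e
      rw [e'] at u1 u2
      have a1 := (hblk u _ (hκ _) u1).1
      have a2 := (hblk v _ (hκ _) v1).2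
      have b1 := Nat.div_add_mod i Bn
      have b2 := Nat.div_add_mod i' Bn
      rw [e'] at b1
      have c1 : blk v (i' / Bn % R) + 1 ≤ blk u (i' / Bn % R) := by omega
      have c2 := Nat.mul_le_mul_left R c1
      rw [Nat.mul_succ] at c2
      omega
  · rcases hH u v huv with h1 | h1 | h1
    · rcases hp5 u (mem_univ u) v (mem_univ v) h1 with h2 | h2
      · have := hb u v h2
        exact absurd hlt (by show ¬ pos u < pos v; omega)
      · exact Or.inl (Finset.mem_union_left _ (Finset.mem_union_left _ h2))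
    · exact Or.inr (Finset.mem_erase.2 ⟨huv.ne', h1⟩)
    · exact Or.inl (Finset.mem_union_left _ (Finset.mem_union_right _ h1))
  · exact Finset.mem_filter.2 ⟨mem_univ _, c, h1, mS0 i c p hc hp h2, same i c u hc hu⟩
  · obtain ⟨c, c1, c2, -⟩ := (Finset.mem_filter.1 hp).2
    exact ⟨c, c1, (Finset.mem_filter.1 c2).1⟩
  · have h3 : 8 * M ^ 3 * (480 * (M * lam ^ r) ^ 3) = 3840 * M ^ 6 * lam ^ (3 * r) := by ring
    rw [h3]
    exact_mod_cast hΔ
  · obtain ⟨-, u2⟩ := (mA i v).1 hi
    obtain ⟨-, v2⟩ := (mA i' v).1 hi'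
    have e' : i / Bn = i' / Bn := e
    have b1 := Nat.div_add_mod i Bn
    have b2 := Nat.div_add_mod i' Bn
    rw [e'] at b1 u2
    omega
  · refine hx.trans ((card_skip R x (h v % R) (hκ _)).trans ?_)
    refine Finset.card_le_card_of_injOn (fun g => Bn * g + (Bn - 1 - blk v (g % R))) ?_ ?_
    · intro g hg
      obtain ⟨g1, g2⟩ := Finset.mem_filter.1 (Finset.mem_coe.1 hg)
      have g3 := hblt v g g2
      have g4 : Bn - 1 - blk v (g % R) < Bn := by omega
      have e1 : (Bn * g + (Bn - 1 - blk v (g % R))) / Bn = g := by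
        rw [Nat.mul_add_div hBn0, Nat.div_eq_of_lt g4, add_zero]
      have e2 : (Bn * g + (Bn - 1 - blk v (g % R))) % Bn = Bn - 1 - blk v (g % R) := by
        rw [Nat.mul_add_mod, Nat.mod_eq_of_lt g4]
      refine Finset.mem_coe.2 (Finset.mem_filter.2 ⟨Finset.mem_range.2 ?_, (mA _ v).2 ?_⟩)
      · have := Nat.mul_le_mul_left Bn (show g + 1 ≤ R * x from Finset.mem_range.1 g1)
        rw [Nat.mul_succ, mul_comm Bn (R * x)] at this
        dsimp only
        omega
      · rw [e1, e2]
        exact ⟨g2, by omega⟩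
    · intro g hg g' hg' e
      have g4 : ∀ y, Bn - 1 - y < Bn := fun y => by omega
      have e1 := congrArg (· / Bn) e
      simpa only [Nat.mul_add_div hBn0, Nat.div_eq_of_lt (g4 _), add_zero] using e1

/-- greedy colouring of a degenerate graph -/
theorem colorable_degen (H : SimpleGraph V) (m : ℕ) (h : Degen H m) : H.Colorable (m + 1) := by
  obtain ⟨pos, back, -, -, hback, hp4, hp5⟩ := exists_order_aux H m h Finset.univ
  obtain ⟨φ, hφ⟩ := greedy_choice (C := Fin (m + 1)) pos back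
    (fun v u hu => (hp4 v (mem_univ v) u hu).2) (fun v f c => ∀ u ∈ back v, f u ≠ c)
    (fun v f g c hfg hq u hu => by rw [← hfg u hu]; exact hq u hu)
    (fun v f => by
      have : ((back v).image f).card < (Finset.univ : Finset (Fin (m + 1))).card := by
        have := Finset.card_image_le (s := back v) (f := f)
        have := hback v
        simp only [Finset.card_univ, Fintype.card_fin]; omega
      obtain ⟨c, -, hc⟩ := Finset.exists_mem_notMem_of_card_lt_card this
      exact ⟨c, fun u hu e => hc (Finset.mem_image.2 ⟨u, hu, e⟩)⟩)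
  exact ⟨SimpleGraph.Coloring.mk φ fun {u v} huv => by
    rcases hp5 u (mem_univ u) v (mem_univ v) huv with h1 | h1
    · exact (hφ u v h1).symm
    · exact hφ v u h1⟩

omit [Fintype V] in
/-- an orientation of small out-degree gives degeneracy -/
theorem degen_of_out (H : SimpleGraph V) (M : ℕ) (out : V → Finset V)
    (hout : ∀ v, (out v).card ≤ M) (hH : ∀ u v, H.Adj u v → v ∈ out u ∨ u ∈ out v) :
    Degen H (2 * M) := by
  intro S hS
  have h1 : ∑ v ∈ S, (S.filter fun u => v ∈ out u).card ≤ ∑ _v ∈ S, M := by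
    simp only [Finset.card_filter]
    rw [Finset.sum_comm]
    refine Finset.sum_le_sum fun u _ => ?_
    rw [← Finset.card_filter]
    exact (Finset.card_le_card fun v hv => (Finset.mem_filter.1 hv).2).trans (hout u)
  obtain ⟨v, hv, h2⟩ := Finset.exists_le_of_sum_le hS h1
  refine ⟨v, hv, fun T hT hadj => ?_⟩
  have h3 : T ⊆ out v ∪ S.filter fun u => v ∈ out u := fun w hw => by
    rcases hH v w (hadj w hw) with h4 | h4
    · exact Finset.mem_union_left _ h4
    · exact Finset.mem_union_right _ (Finset.mem_filter.2 ⟨hT hw, h4⟩)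
  have h4 := (Finset.card_le_card h3).trans (Finset.card_union_le _ _)
  have := hout v
  omega

end Pool.Agent.P.MP_c25521_co.Multi
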