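import Mathlib
import Pool.Agent.P.MP_c25521_co.MParam

/-!
Choice of the numerical parameters.
-/

namespace Pool.Agent.P.MP_c25521_co.Multi

open Finset Pool.Agent.P.MP_c25521_co

theorem two_pow_le (x : ℝ) (n N : ℕ) (h0 : 0 ≤ x) (h1 : x ≤ 1) (h : (N : ℝ) ≤ n * x) :
    (2 : ℝ) ^ N ≤ (1 + x) ^ n := by
  have l0 : 0 ≤ Real.log 2 := Real.log_nonneg (by norm_num)
  have c := convexOn_exp.2 (Set.mem_univ (Real.log 2)) (Set.mem_univ 0) h0
    (sub_nonneg.2 h1) (by ring)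
  simp only [smul_eq_mul, mul_zero, add_zero, Real.exp_zero, mul_one,
    Real.exp_log (by norm_num : (0 : ℝ) < 2)] at c
  calc (2 : ℝ) ^ N = Real.exp (N * Real.log 2) := by
        rw [Real.exp_nat_mul, Real.exp_log (by norm_num)]
    _ ≤ Real.exp (n * (x * Real.log 2)) := by
        rw [← mul_assoc]; exact Real.exp_le_exp.2 (mul_le_mul_of_nonneg_right h l0)
    _ = Real.exp (x * Real.log 2) ^ n := Real.exp_nat_mul _ _
    _ ≤ _ := pow_le_pow_left₀ (Real.exp_pos _).le (by linarith) _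

theorem pow_le_two (x : ℝ) (n : ℕ) (h0 : 0 ≤ x) (h : n * x ≤ 1 / 2) :
    1 / 4 * (1 + x) ^ n ≤ 1 / 2 := by
  have h1 : (1 + x) ^ n ≤ Real.exp (n * x) := by
    rw [Real.exp_nat_mul]
    exact pow_le_pow_left₀ (by linarith) (by linarith [Real.add_one_le_exp x]) _
  have h2 : Real.exp (1 / 2) ≤ 2 := by
    rw [← Real.le_log_iff_exp_le (by norm_num)]
    linarith [Real.log_two_gt_d9]
  have h3 := Real.exp_le_exp.2 h
  linarith

theorem ratio_le (c g : ℝ) (u b W : ℕ) (hc0 : 0 ≤ c) (hc : c ≤ 2 ^ u) (hg : 2 ^ (2 * u) ≤ g)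
    (hW : W ≤ u * b) : (c / g) ^ b ≤ 1 / 2 ^ W := by
  have g0 : 0 < g := lt_of_lt_of_le (by positivity) hg
  have h1 : c / g ≤ 1 / 2 ^ u := by
    rw [div_le_div_iff₀ g0 (by positivity), one_mul]
    calc c * 2 ^ u ≤ 2 ^ u * 2 ^ u := by gcongr
      _ = 2 ^ (2 * u) := by ring
      _ ≤ g := hg
  calc (c / g) ^ b ≤ (1 / 2 ^ u) ^ b := by gcongr
    _ = 1 / 2 ^ (u * b) := by rw [div_pow, one_pow, ← pow_mul]
    _ ≤ _ := one_div_le_one_div_of_le (by positivity) (pow_le_pow_right₀ (by norm_num) hW)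

theorem sum_four (n : ℕ) : ∑ i ∈ range n, (4 : ℝ) ^ i ≤ 4 ^ n / 3 := by
  induction n with
  | zero => norm_num
  | succ n ih => rw [Finset.sum_range_succ, pow_succ]; linarith

theorem sum_two (n : ℕ) : ∑ i ∈ range n, (2 : ℝ) ^ i ≤ 2 ^ n := by
  induction n with
  | zero => norm_num
  | succ n ih => rw [Finset.sum_range_succ, pow_succ]; linarith

theorem sum_half (n : ℕ) : ∑ i ∈ range n, (1 : ℝ) / 2 ^ (i + 1) ≤ 1 - 1 / 2 ^ n := by
  induction n with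
  | zero => norm_num
  | succ n ih =>
    rw [Finset.sum_range_succ]
    have : (1 : ℝ) / 2 ^ n = 2 * (1 / 2 ^ (n + 1)) := by rw [pow_succ]; field_simp
    linarith

theorem three_le (i : ℕ) : 3 * i + 1 ≤ 2 * 2 ^ i := by
  induction i with
  | zero => norm_num
  | succ i ih =>
    rcases Nat.eq_zero_or_pos i with rfl | h
    · norm_num
    · rw [pow_succ]; omega

theorem sum_tail (H n : ℕ) (hH : 2 ≤ H) :
    ∑ i ∈ range n, (4 : ℝ) ^ i / 2 ^ (H * 2 ^ i) ≤ 1 := by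
  have h1 : ∀ i, (4 : ℝ) ^ i / 2 ^ (H * 2 ^ i) ≤ 1 / 2 ^ (i + 1) := by
    intro i
    rw [div_le_div_iff₀ (by positivity) (by positivity), one_mul]
    calc (4 : ℝ) ^ i * 2 ^ (i + 1) = 2 ^ (3 * i + 1) := by
          rw [show (4 : ℝ) = 2 ^ 2 by norm_num, ← pow_mul, ← pow_add]; ring_nf
      _ ≤ _ := pow_le_pow_right₀ (by norm_num)
          ((three_le i).trans (Nat.mul_le_mul_right _ hH))
  have h2 := sum_half n
  have h3 : (0 : ℝ) ≤ 1 / 2 ^ n := by positivity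
  exact (Finset.sum_le_sum fun i _ => h1 i).trans (by linarith)

/-- the low windows cost little -/
theorem low_sum (H I W Y c x : ℕ) (hH : 2 ≤ H) (hY : 0 < Y) (h5 : 280 * W * 2 ^ I ≤ Y)
    (h6 : 11 * (H * 2 ^ I) ≤ W) :
    8 * (H : ℝ) * 4 ^ 0 / Y * x + ∑ i ∈ range I, 8 * (H : ℝ) * 4 ^ (i + 1) / Y *
      (c * ((W / (H * 2 ^ i) + 1 : ℕ) : ℝ) + x / 2 ^ (H * 2 ^ i)) ≤ 40 * H * x / Y + c / 8 := by
  have Y0 : (0 : ℝ) < Y := by exact_mod_cast hY
  have H0 : (0 : ℝ) < H := by exact_mod_cast (by omega : 0 < H)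
  have h1 : ∀ i ∈ range I, 8 * (H : ℝ) * 4 ^ (i + 1) / Y *
      (c * ((W / (H * 2 ^ i) + 1 : ℕ) : ℝ) + x / 2 ^ (H * 2 ^ i)) ≤
      32 * c * W / Y * 2 ^ i + 32 * c * H / Y * 4 ^ i +
        32 * H * x / Y * (4 ^ i / 2 ^ (H * 2 ^ i)) := by
    intro i _
    have a1 : ((W / (H * 2 ^ i) + 1 : ℕ) : ℝ) ≤ W / (H * 2 ^ i) + 1 := by
      have := Nat.cast_div_le (α := ℝ) (m := W) (n := H * 2 ^ i)
      push_cast at this ⊢
      linarith
    refine le_trans (mul_le_mul_of_nonneg_left (add_le_add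
      (mul_le_mul_of_nonneg_left a1 (Nat.cast_nonneg c)) le_rfl) (by positivity)) (le_of_eq ?_)
    rw [show (4 : ℝ) ^ (i + 1) = 4 * (2 ^ i * 2 ^ i) by rw [← mul_pow, pow_succ]; norm_num; ring,
      show (4 : ℝ) ^ i = 2 ^ i * 2 ^ i by rw [← mul_pow]; norm_num]
    field_simp
    ring
  have h2 := Finset.sum_le_sum h1
  rw [Finset.sum_add_distrib, Finset.sum_add_distrib, ← Finset.mul_sum, ← Finset.mul_sum,
    ← Finset.mul_sum] at h2
  have b1 := mul_le_mul_of_nonneg_left (sum_two I) (by positivity : (0 : ℝ) ≤ 32 * c * W / Y)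
  have b2 := mul_le_mul_of_nonneg_left (sum_four I) (by positivity : (0 : ℝ) ≤ 32 * c * H / Y)
  have b3 := mul_le_mul_of_nonneg_left (sum_tail H I hH)
    (by positivity : (0 : ℝ) ≤ 32 * H * x / Y)
  have c5 : 280 * (W : ℝ) * 2 ^ I ≤ Y := by exact_mod_cast h5
  have c6 : 11 * ((H : ℝ) * 2 ^ I) ≤ W := by exact_mod_cast h6
  have d1 : (W : ℝ) * 2 ^ I / Y ≤ 1 / 280 := by
    rw [div_le_div_iff₀ Y0 (by norm_num)]; linarith
  have d2 : (H : ℝ) * 4 ^ I / Y ≤ 1 / 3080 := by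
    rw [div_le_div_iff₀ Y0 (by norm_num),
      show (4 : ℝ) ^ I = 2 ^ I * 2 ^ I by rw [← mul_pow]; norm_num]
    have := mul_le_mul_of_nonneg_right c6 (by positivity : (0 : ℝ) ≤ 2 ^ I)
    linarith
  have e1 : 32 * (c : ℝ) * W / Y * 2 ^ I = 32 * c * (W * 2 ^ I / Y) := by ring
  have e2 : 32 * (c : ℝ) * H / Y * (4 ^ I / 3) = 32 / 3 * c * (H * 4 ^ I / Y) := by ring
  have e3 : 8 * (H : ℝ) * 4 ^ 0 / Y * x + 32 * H * x / Y * 1 = 40 * H * x / Y := by ring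
  have f1 := mul_le_mul_of_nonneg_left d1 (by positivity : (0 : ℝ) ≤ 32 * c)
  have f2 := mul_le_mul_of_nonneg_left d2 (by positivity : (0 : ℝ) ≤ 32 / 3 * c)
  have c0 : (0 : ℝ) ≤ c := Nat.cast_nonneg c
  linarith

theorem exists_num (M k Y L r H I W : ℕ) (hk : 1 ≤ k) (hkM : k ≤ M) (hH : 2 ≤ H)
    (h2 : L ≤ H * 2 ^ I) (h3 : 450 * H * k * M ≤ Y ^ 2) (h4 : 10 * Y ≤ M)
    (h5 : 280 * W * 2 ^ I ≤ Y) (h6 : 11 * (H * 2 ^ I) ≤ W) (h7 : M < 2 ^ L) (h8 : W = 4 * r * L)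
    (h9 : 320 * r * L ≤ Y) (h10 : 10000 * k * W ^ 2 ≤ Y ^ 2) (hI : I ≤ L) :
    ∃ z : Num, z.k = k ∧ z.σ = 2 * M * k ∧ z.Ok ∧
      z.init ≤ ((Y + 1) * (I + 1) + 3) / 2 ^ W ∧ z.a (z.I + 3) + 2 * z.j + z.β ≤ 5 * Y := by
  have hI1 : 1 ≤ 2 ^ I := Nat.one_le_two_pow
  have hW : 22 ≤ W := le_trans (Nat.mul_le_mul_left 11 (Nat.mul_le_mul hH hI1)) h6
  have hWY : 280 * W ≤ Y := le_trans (Nat.le_mul_of_pos_right _ hI1) h5
  have hY : 0 < Y := by omega
  have hL : 0 < L := by rcases Nat.eq_zero_or_pos L with rfl | h; simp at h8; omega; exact h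
  have hr : 0 < r := by rcases Nat.eq_zero_or_pos r with rfl | h; simp at h8; omega; exact h
  have Y0 : (0 : ℝ) < Y := by exact_mod_cast hY
  have hLs : 2 ^ L ≤ 2 ^ (H * 2 ^ I) := Nat.pow_le_pow_right (by norm_num) h2
  have hkM2 : 900 * (k * M) ≤ Y * Y := by
    calc 900 * (k * M) = 450 * 2 * k * M := by ring
      _ ≤ 450 * H * k * M := by gcongr
      _ ≤ Y * Y := by rw [← sq]; exact h3
  have hkY : 9000 * k ≤ Y := by
    refine Nat.le_of_mul_le_mul_right ?_ hY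
    calc 9000 * k * Y = 900 * (k * (10 * Y)) := by ring
      _ ≤ 900 * (k * M) := by gcongr
      _ ≤ _ := hkM2
  have hrY : 320 * r ≤ Y := le_trans (Nat.le_mul_of_pos_right _ hL) h9
  have hLY : 320 * L ≤ Y := le_trans (by
    rw [mul_assoc]; exact Nat.mul_le_mul_left _ (Nat.le_mul_of_pos_left _ hr)) h9
  have hb : W / (H * 2 ^ I) + 1 ≤ 5 * r := by
    have a1 : W / (H * 2 ^ I) ≤ W / L := Nat.div_le_div_left h2 hL
    have a2 : W / L = 4 * r := by rw [h8]; exact Nat.mul_div_cancel _ hL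
    omega
  have hβ : 100 * (W / (H * 2 ^ I) + 1 + 2 * M * k / 2 ^ (H * 2 ^ I) + 2 * M * k / (Y + 1))
      ≤ 2 * Y := by
    have a1 : 2 * M * k / 2 ^ (H * 2 ^ I) ≤ 2 * k := by
      apply Nat.div_le_of_le_mul
      calc 2 * M * k = M * (2 * k) := by ring
        _ ≤ _ := Nat.mul_le_mul_right _ (by omega)
    have a2 : 2 * M * k / (Y + 1) * (Y + 1) ≤ 2 * M * k := Nat.div_mul_le_self _ _
    have a3 : 450 * (2 * M * k / (Y + 1)) * Y ≤ Y * Y := by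
      calc _ ≤ 450 * (2 * M * k / (Y + 1) * (Y + 1)) := by
            rw [mul_assoc]; gcongr; omega
        _ ≤ 450 * (2 * M * k) := by gcongr
        _ = 900 * (k * M) := by ring
        _ ≤ _ := hkM2
    have a4 := Nat.le_of_mul_le_mul_right a3 hY
    omega
  set κ := min k (W / (H * 2 ^ I) + 1 + k / 2 ^ (H * 2 ^ I)) with hκ
  have hκ1 : 1 ≤ κ := le_min hk (le_trans (Nat.le_add_left 1 _) (Nat.le_add_right _ _))
  have hκk : κ ≤ k := min_le_left _ _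
  have hκr : κ ≤ 5 * r := by
    have a1 : k / 2 ^ (H * 2 ^ I) = 0 := Nat.div_eq_of_lt (by omega)
    have a2 : κ ≤ W / (H * 2 ^ I) + 1 + k / 2 ^ (H * 2 ^ I) := min_le_right _ _
    omega
  set u := Y / (64 * κ) with hu
  have huL : L ≤ u := by
    rw [hu, Nat.le_div_iff_mul_le (by omega)]
    calc L * (64 * κ) ≤ L * (64 * (5 * r)) := by gcongr
      _ = 320 * r * L := by ring
      _ ≤ Y := h9
  have hu1 : u * (64 * κ) ≤ Y := Nat.div_mul_le_self _ _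
  have hu2 : Y ≤ u * (128 * κ) := by
    have a1 : Y < 64 * κ * (u + 1) := Nat.lt_mul_div_succ Y (by omega)
    calc Y ≤ 64 * κ * (u + 1) := a1.le
      _ ≤ 64 * κ * (u + u) := by gcongr; omega
      _ = _ := by ring
  have κ0 : (1 : ℝ) ≤ κ := by exact_mod_cast hκ1
  have u0 : (0 : ℝ) < u := by exact_mod_cast (by omega : 0 < u)
  have bm1 : ((W / u + 1 : ℕ) : ℝ) ≤ 128 * κ * W / Y + 1 := by
    have a1 := Nat.cast_div_le (α := ℝ) (m := W) (n := u)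
    have a2 : (W : ℝ) / u ≤ 128 * κ * W / Y := by
      rw [div_le_div_iff₀ u0 Y0]
      have a3 : (Y : ℝ) ≤ u * (128 * κ) := by exact_mod_cast hu2
      have := mul_le_mul_of_nonneg_left a3 (Nat.cast_nonneg (α := ℝ) W)
      linarith
    push_cast
    linarith
  have wy : (W : ℝ) / Y ≤ 1 / 280 := by
    rw [div_le_div_iff₀ Y0 (by norm_num)]
    have : 280 * (W : ℝ) ≤ Y := by exact_mod_cast hWY
    linarith
  have wy0 : (0 : ℝ) ≤ (W : ℝ) / Y := by positivity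
  have c5 : 280 * (W : ℝ) * 2 ^ I ≤ Y := by exact_mod_cast h5
  have c6 : 11 * ((H : ℝ) * 2 ^ I) ≤ W := by exact_mod_cast h6
  have d1 : (W : ℝ) * 2 ^ I / Y ≤ 1 / 280 := by
    rw [div_le_div_iff₀ Y0 (by norm_num)]; linarith
  have d2 : (H : ℝ) * 4 ^ I / Y ≤ 1 / 3080 := by
    rw [div_le_div_iff₀ Y0 (by norm_num),
      show (4 : ℝ) ^ I = 2 ^ I * 2 ^ I by rw [← mul_pow]; norm_num]
    have := mul_le_mul_of_nonneg_right c6 (by positivity : (0 : ℝ) ≤ 2 ^ I)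
    linarith
  set len : ℕ → ℕ := fun i => if i ≤ I then Y / 2 ^ (i + 1) + 1 else Y with hlen
  set ρ : ℕ → ℝ := fun i => if i ≤ I then 8 * (H : ℝ) * 4 ^ i / Y else
    if i = I + 1 then 1 / (16 * κ) else 2 * W / Y with hρ
  have ρ1 : ∀ i ≤ I, ρ i = 8 * (H : ℝ) * 4 ^ i / Y := fun i hi => if_pos hi
  have ρ2 : ρ (I + 1) = 1 / (16 * κ) := by simp [hρ]
  have ρ3 : ρ (I + 2) = 2 * W / Y := by simp [hρ]
  have ρ4 : ∀ i ≤ I, ρ i ≤ 8 / 3080 := fun i hi => by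
    rw [ρ1 i hi]
    have a1 : (H : ℝ) * 4 ^ i / Y ≤ H * 4 ^ I / Y := by gcongr; norm_num
    have e : 8 * (H : ℝ) * 4 ^ i / Y = 8 * (H * 4 ^ i / Y) := by ring
    linarith
  have ρ5 : (1 : ℝ) / (16 * κ) ≤ 1 / 16 := one_div_le_one_div_of_le (by norm_num) (by linarith)
  have ρ0 : ∀ i, 0 ≤ ρ i := fun i => by simp only [hρ]; split_ifs <;> positivity
  have da : ∀ i, ∑ x ∈ range (i + 1), len x - ∑ x ∈ range i, len x = len i := fun i => by
    rw [Finset.sum_range_succ, Nat.add_sub_cancel_left]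
  have lo := fun c x => low_sum H I W Y c x hH hY h5 h6
  have c3 : 450 * (H : ℝ) * k * M ≤ Y ^ 2 := by exact_mod_cast h3
  refine ⟨⟨k, 2 * M * k, I, Y, W / u + 1, W + Y / 2 + 1, fun i => ∑ x ∈ range i, len x,
    fun i => W / (H * 2 ^ i) + 1, fun i => H * 2 ^ i, ρ, 1 / 4, 31 / 100 * Y⟩, rfl, rfl,
    ⟨ρ0, ?_, fun i hi => Finset.sum_le_sum_of_subset (Finset.range_mono hi), fun i hi => ?_, ?_,
      ?_, by norm_num, le_rfl, hY, ?_, ?_⟩, ?_, ?_⟩
  · show ∑ i ∈ range (I + 3), ρ i ≤ 1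
    rw [Finset.sum_range_succ, Finset.sum_range_succ, ρ2, ρ3,
      Finset.sum_congr rfl (g := fun i => 8 * (H : ℝ) / Y * 4 ^ i) fun i hi => by
        rw [ρ1 i (Nat.lt_succ_iff.1 (Finset.mem_range.1 hi))]; ring, ← Finset.mul_sum]
    have a1 := mul_le_mul_of_nonneg_left (sum_four (I + 1))
      (by positivity : (0 : ℝ) ≤ 8 * H / Y)
    have e1 : 8 * (H : ℝ) / Y * (4 ^ (I + 1) / 3) = 32 / 3 * (H * 4 ^ I / Y) := by ring
    have e2 : 2 * (W : ℝ) / Y = 2 * (W / Y) := by ring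
    linarith
  · refine pow_le_two _ _ (by linarith [ρ0 i]) ?_
    have hi' : i ≤ I := hi
    show ((W / (H * 2 ^ i) + 1 : ℕ) : ℝ) * (ρ i / 2) ≤ 1 / 2
    have a1 : ((W / (H * 2 ^ i) : ℕ) : ℝ) * (H * 2 ^ i) ≤ W := by
      exact_mod_cast Nat.div_mul_le_self W (H * 2 ^ i)
    have a2 : (2 : ℝ) ^ i ≤ 2 ^ I := pow_le_pow_right₀ (by norm_num) hi'
    have a3 : ((W / (H * 2 ^ i) : ℕ) : ℝ) * ρ i ≤ 8 * (W * 2 ^ I / Y) := by
      rw [ρ1 i hi', show (4 : ℝ) ^ i = 2 ^ i * 2 ^ i by rw [← mul_pow]; norm_num]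
      calc _ = 8 * ((((W / (H * 2 ^ i) : ℕ) : ℝ) * (H * 2 ^ i)) * 2 ^ i / Y) := by ring
        _ ≤ _ := by gcongr
    have a4 := ρ4 i hi'
    push_cast
    linarith
  · refine pow_le_two _ _ (by linarith [ρ0 (I + 1)]) ?_
    show ((W / u + 1 : ℕ) : ℝ) * (ρ (I + 1) / 2) ≤ 1 / 2
    rw [ρ2]
    have a1 := mul_le_mul_of_nonneg_right bm1 (by positivity : (0 : ℝ) ≤ 1 / (16 * κ) / 2)
    have e : (128 * (κ : ℝ) * W / Y + 1) * (1 / (16 * κ) / 2) =
        4 * (W / Y) + 1 / (16 * κ) / 2 := by field_simp; ring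
    linarith
  · show (1 : ℝ) / 4 * (1 + ρ (I + 2) / 2) ≤ 1 / 2
    have e2 : 2 * (W : ℝ) / Y = 2 * (W / Y) := by ring
    rw [ρ3]; linarith
  · show ρ 0 * k + ∑ i ∈ range I, ρ (i + 1) * (((W / (H * 2 ^ i) + 1 : ℕ) : ℝ) +
      k / 2 ^ (H * 2 ^ i)) + ρ (I + 1) * (κ : ℝ) + ρ (I + 2) * ((W / u + 1 : ℕ) : ℝ) ≤ 1 / 4
    have a1 := lo 1 k
    simp only [Nat.cast_one, one_mul] at a1
    rw [ρ1 0 (Nat.zero_le _), ρ2, ρ3, Finset.sum_congr rfl fun i hi => by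
      rw [ρ1 (i + 1) (Finset.mem_range.1 hi)]]
    have a2 : 40 * (H : ℝ) * k / Y ≤ 4 / 450 := by
      rw [div_le_div_iff₀ Y0 (by norm_num)]
      have b1 : 10 * (Y : ℝ) ≤ M := by exact_mod_cast h4
      have b2 := mul_le_mul_of_nonneg_left b1 (by positivity : (0 : ℝ) ≤ 450 * H * k)
      have b3 : 4500 * (H : ℝ) * k * Y ≤ Y * Y := by rw [← sq]; linarith
      have b4 := le_of_mul_le_mul_right b3 Y0
      linarith
    have a3 : 1 / (16 * (κ : ℝ)) * κ = 1 / 16 := by field_simp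
    have a4 := mul_le_mul_of_nonneg_left bm1 (by positivity : (0 : ℝ) ≤ 2 * W / Y)
    have a5 : (κ : ℝ) * W ^ 2 / Y ^ 2 ≤ 1 / 10000 := by
      rw [div_le_div_iff₀ (by positivity) (by norm_num)]
      have b1 : 10000 * (κ : ℝ) * W ^ 2 ≤ Y ^ 2 := by
        exact_mod_cast le_trans (Nat.mul_le_mul_right _ (Nat.mul_le_mul_left _ hκk)) h10
      linarith
    have e : 2 * (W : ℝ) / Y * (128 * κ * W / Y + 1) =
        256 * (κ * W ^ 2 / Y ^ 2) + 2 * (W / Y) := by ring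
    linarith
  · show ρ 0 * ((2 * M * k : ℕ) : ℝ) + ∑ i ∈ range I, ρ (i + 1) *
      (Y * ((W / (H * 2 ^ i) + 1 : ℕ) : ℝ) + ((2 * M * k : ℕ) : ℝ) / 2 ^ (H * 2 ^ i)) ≤
      31 / 100 * Y
    have a1 := lo Y (2 * M * k)
    rw [ρ1 0 (Nat.zero_le _), Finset.sum_congr rfl fun i hi => by
      rw [ρ1 (i + 1) (Finset.mem_range.1 hi)]]
    have a2 : 40 * (H : ℝ) * ((2 * M * k : ℕ) : ℝ) / Y ≤ 80 / 450 * Y := by
      rw [div_le_iff₀ Y0]
      push_cast
      linarith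
    linarith
  · simp only [Num.init, Num.β, da]
    have t1 : ∀ i ∈ range (I + 1), ((2 : ℝ) ^ (H * 2 ^ i) / (1 + ρ i / 2) ^ len i) ^
        (W / (H * 2 ^ i) + 1) ≤ 1 / 2 ^ W := by
      intro i hi
      have hi' : i ≤ I := Nat.lt_succ_iff.1 (Finset.mem_range.1 hi)
      refine ratio_le _ _ (H * 2 ^ i) _ _ (by positivity) le_rfl
        (two_pow_le _ _ _ (by linarith [ρ0 i]) (by linarith [ρ4 i hi']) ?_)
        (Nat.lt_mul_div_succ W (by positivity)).le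
      have a1 : (Y : ℝ) ≤ 2 ^ (i + 1) * (len i : ℕ) := by
        simp only [hlen, if_pos hi']
        exact_mod_cast (Nat.lt_mul_div_succ Y (by positivity : 0 < 2 ^ (i + 1))).le
      rw [ρ1 i hi', show (4 : ℝ) ^ i = 2 ^ i * 2 ^ i by rw [← mul_pow]; norm_num]
      push_cast
      calc 2 * ((H : ℝ) * 2 ^ i) = 2 * (H * 2 ^ i) / Y * Y := by field_simp
        _ ≤ 2 * (H * 2 ^ i) / Y * (2 ^ (i + 1) * (len i : ℕ)) := by gcongr
        _ = _ := by ring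
    have t1' := Finset.sum_le_card_nsmul _ _ _ t1
    have l1 : len (I + 1) = Y := if_neg (by omega)
    have l2 : len (I + 2) = Y := if_neg (by omega)
    have t2 : ((k : ℝ) / (1 + ρ (I + 1) / 2) ^ len (I + 1)) ^ (W / u + 1) ≤ 1 / 2 ^ W := by
      refine ratio_le _ _ u _ _ (by positivity) ?_
        (two_pow_le _ _ _ (by linarith [ρ0 (I + 1)]) (by rw [ρ2]; linarith) ?_)
        (Nat.lt_mul_div_succ W (by omega)).le
      · have : k ≤ 2 ^ u := le_trans (by omega) (Nat.pow_le_pow_right (by norm_num) huL)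
        exact_mod_cast this
      · have a1 : (u : ℝ) * (64 * κ) ≤ Y := by exact_mod_cast hu1
        rw [ρ2, l1]
        push_cast
        calc 2 * (u : ℝ) = u * (64 * κ) * (1 / (16 * κ) / 2) := by field_simp; ring
          _ ≤ _ := by gcongr
    have t3 : (1 : ℝ) / (1 + ρ (I + 2) / 2) ^ len (I + 2) ≤ 1 / 2 ^ W := by
      have e2 : 2 * (W : ℝ) / Y / 2 = W / Y := by ring
      refine one_div_le_one_div_of_le (by positivity) ?_
      rw [ρ3, l2, e2]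
      exact two_pow_le _ _ _ wy0 (by linarith) (le_of_eq (by field_simp))
    have t4 : Real.exp (31 / 100 * (Y : ℝ) + 1 / 4 * ((W / (H * 2 ^ I) + 1 +
        2 * M * k / 2 ^ (H * 2 ^ I) + 2 * M * k / (Y + 1) : ℕ) : ℝ)) / 2 ^ (W + Y / 2 + 1) ≤
        1 / 2 ^ W := by
      have a1 : 100 * ((W / (H * 2 ^ I) + 1 + 2 * M * k / 2 ^ (H * 2 ^ I) +
          2 * M * k / (Y + 1) : ℕ) : ℝ) ≤ 2 * Y := by exact_mod_cast hβ
      have a2 : (Y : ℝ) ≤ 2 * ((Y / 2 + 1 : ℕ) : ℝ) := by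
        exact_mod_cast (by omega : Y ≤ 2 * (Y / 2 + 1))
      have a3 : (2 : ℝ) ^ (Y / 2 + 1) = Real.exp (((Y / 2 + 1 : ℕ) : ℝ) * Real.log 2) := by
        rw [Real.exp_nat_mul, Real.exp_log (by norm_num)]
      rw [div_le_div_iff₀ (by positivity) (by positivity), one_mul, add_assoc W, pow_add, a3,
        mul_comm]
      refine mul_le_mul_of_nonneg_left (Real.exp_le_exp.2 ?_) (by positivity)
      have a4 := mul_le_mul_of_nonneg_left Real.log_two_gt_d9.le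
        (Nat.cast_nonneg (α := ℝ) (Y / 2 + 1))
      linarith
    simp only [Finset.card_range, nsmul_eq_mul] at t1'
    have t5 := mul_le_mul_of_nonneg_left t1' (by positivity : (0 : ℝ) ≤ Y + 1)
    have e : (((Y : ℝ) + 1) * (I + 1) + 3) / 2 ^ W =
        (Y + 1) * (((I + 1 : ℕ) : ℝ) * (1 / 2 ^ W)) + 3 * (1 / 2 ^ W) := by
      push_cast; ring
    rw [e]
    linarith
  · simp only [Num.β]
    have a1 : ∑ x ∈ range (I + 1), len x ≤ Y + (I + 1) := by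
      have b1 : ∀ x ∈ range (I + 1), (len x : ℝ) ≤ Y * (1 / 2 ^ (x + 1)) + 1 := fun x hx => by
        simp only [hlen, if_pos (Nat.lt_succ_iff.1 (Finset.mem_range.1 hx))]
        have := Nat.cast_div_le (α := ℝ) (m := Y) (n := 2 ^ (x + 1))
        rw [mul_one_div]
        push_cast at this ⊢
        linarith
      have b2 := Finset.sum_le_sum b1
      rw [Finset.sum_add_distrib, ← Finset.mul_sum] at b2
      have b3 := mul_le_mul_of_nonneg_left (sum_half (I + 1)) Y0.le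
      have b4 : (0 : ℝ) ≤ Y * (1 / 2 ^ (I + 1)) := by positivity
      have b5 : ((∑ x ∈ range (I + 1), len x : ℕ) : ℝ) ≤ ((Y + (I + 1) : ℕ) : ℝ) := by
        simp only [Finset.sum_const, Finset.card_range, nsmul_eq_mul, mul_one] at b2
        push_cast at b2 ⊢
        linarith
      exact_mod_cast b5
    have l1 : len (I + 1) = Y := if_neg (by omega)
    have l2 : len (I + 2) = Y := if_neg (by omega)
    rw [Finset.sum_range_succ, Finset.sum_range_succ, l1, l2]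
    omega

end Pool.Agent.P.MP_c25521_co.Multi
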