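import Mathlib
import Pool.Agent.P.MP_c25521_co.MNum

/-!
The final count.
-/

namespace Pool.Agent.P.MP_c25521_co.Multi

open Finset Pool.Agent.P.MP_c25521_co

variable {V : Type} [Fintype V] [DecidableEq V]

theorem exists_param (M k Y : ℕ) (hk : 1 ≤ k) (hkM : k ≤ M) (h4 : 10 * Y ≤ M)
    (hY : 900 * k * M + 2500 * (Nat.sqrt k + 1) * (Nat.log 2 M + 1) * M ≤ Y ^ 2) :
    ∃ (z : Num) (Δ : ℕ), z.k = k ∧ z.σ = 2 * M * k ∧ z.Ok ∧
      3840 * M ^ 6 * (M / Y + 1) ^ (3 * (M / Y + 1)) ≤ Δ ∧ z.init ≤ 1 / (4 * (Δ : ℝ)) ∧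
      z.a (z.I + 3) + 2 * z.j + z.β ≤ 5 * Y ∧ 30 ≤ Y ∧ 320 * (M / Y + 1) ≤ Y := by
  set s := Nat.sqrt k + 1 with hs
  set L := Nat.log 2 M + 1 with hL
  set r := M / Y + 1 with hr
  have hM1 : 1 ≤ M := hk.trans hkM
  have hY30 : 30 ≤ Y := by
    by_contra hc
    have a1 : Y ^ 2 ≤ 29 ^ 2 := Nat.pow_le_pow_left (by omega) 2
    have a2 : 900 * 1 * 1 ≤ 900 * k * M := by gcongr
    omega
  have hY0 : 0 < Y := by omega
  have h7 : M < 2 ^ L := Nat.lt_pow_succ_log_self (by norm_num) M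
  have hL5 : 5 ≤ L := by
    by_contra hc
    have : 2 ^ L ≤ 2 ^ 4 := Nat.pow_le_pow_right (by norm_num) (by omega)
    omega
  have hr11 : 11 ≤ r := by
    have : 10 ≤ M / Y := (Nat.le_div_iff_mul_le hY0).2 h4
    omega
  have hrY : 10 * (r * Y) ≤ 11 * M := by
    have := Nat.div_mul_le_self M Y
    rw [hr, add_mul, one_mul]; omega
  have hs1 : 1 ≤ s := by omega
  have hks : k ≤ s * s := (Nat.lt_succ_sqrt k).le
  have hsL : 2500 * (s * L * M) ≤ Y * Y := by
    rw [← sq]
    calc 2500 * (s * L * M) = 2500 * s * L * M := by ring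
      _ ≤ _ := le_trans (Nat.le_add_left _ _) hY
  set q := min L s with hq
  have hqL : q ≤ L := min_le_left _ _
  have hqs : q ≤ s := min_le_right _ _
  have hq1 : 1 ≤ q := le_min (by omega) hs1
  set I := Nat.log 2 q + 1 with hI
  have hI1 : q < 2 ^ I := Nat.lt_pow_succ_log_self (by norm_num) q
  have hI2 : 2 ^ I ≤ 2 * q := by
    have := Nat.pow_log_le_self 2 (show q ≠ 0 by omega)
    rw [hI, pow_succ]; omega
  have hIL : I ≤ L := by
    have := Nat.log_lt_self 2 (show q ≠ 0 by omega)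
    omega
  set H := L / q + 1 with hH
  have hH2 : 2 ≤ H := by
    have : 1 ≤ L / q := (Nat.le_div_iff_mul_le (by omega)).2 (by omega)
    omega
  have hHq : L ≤ q * H := (Nat.lt_mul_div_succ L (by omega)).le
  have hHq2 : H * q ≤ 2 * L := by
    have := Nat.div_mul_le_self L q
    rw [hH, add_mul, one_mul]; omega
  have hHk : H * k ≤ 2 * k + s * L := by
    have a1 : L / q * k ≤ k + s * L := by
      rcases le_total L s with h | h
      · rw [hq, min_eq_left h, Nat.div_self (by omega)]; omega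
      · rw [hq, min_eq_right h]
        calc L / s * k ≤ L / s * (s * s) := by gcongr
          _ = s * (L / s * s) := by ring
          _ ≤ s * L := Nat.mul_le_mul_left _ (Nat.div_mul_le_self L s)
          _ ≤ _ := Nat.le_add_left _ _
    rw [hH, add_mul, one_mul]; omega
  have h9 : 320 * r * L ≤ Y := by
    refine Nat.le_of_mul_le_mul_right ?_ hY0
    calc 320 * r * L * Y = 32 * L * (10 * (r * Y)) := by ring
      _ ≤ 32 * L * (11 * M) := by gcongr
      _ = 352 * (1 * L * M) := by ring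
      _ ≤ 2500 * (s * L * M) := by gcongr; norm_num
      _ ≤ _ := hsL
  obtain ⟨z, z1, z2, z3, z4, z5⟩ := exists_num M k Y L r H I (4 * r * L) hk hkM hH2
    (hHq.trans (by rw [mul_comm]; exact Nat.mul_le_mul_left _ hI1.le))
    (by
      calc 450 * H * k * M = 450 * (H * k) * M := by ring
        _ ≤ 450 * (2 * k + s * L) * M := by gcongr
        _ = 900 * k * M + 450 * s * L * M := by ring
        _ ≤ 900 * k * M + 2500 * s * L * M := by gcongr; norm_num
        _ ≤ _ := hY) h4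
    (by
      refine Nat.le_of_mul_le_mul_right ?_ hY0
      calc 280 * (4 * r * L) * 2 ^ I * Y ≤ 280 * (4 * r * L) * (2 * s) * Y := by
            gcongr; omega
        _ = 224 * (s * L) * (10 * (r * Y)) := by ring
        _ ≤ 224 * (s * L) * (11 * M) := by gcongr
        _ = 2464 * (s * L * M) := by ring
        _ ≤ 2500 * (s * L * M) := by gcongr; norm_num
        _ ≤ _ := hsL)
    (by
      calc 11 * (H * 2 ^ I) ≤ 11 * (H * (2 * q)) := by gcongr
        _ = 22 * (H * q) := by ring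
        _ ≤ 22 * (2 * L) := by gcongr
        _ = 4 * 11 * L := by ring
        _ ≤ _ := by gcongr) h7 rfl h9
    (by
      refine Nat.le_of_mul_le_mul_right ?_ (Nat.pow_pos hY0 (n := 2))
      calc 10000 * k * (4 * r * L) ^ 2 * Y ^ 2 = 1600 * k * L ^ 2 * (10 * (r * Y)) ^ 2 := by ring
        _ ≤ 1600 * (s * s) * L ^ 2 * (11 * M) ^ 2 := by gcongr
        _ = 440 ^ 2 * (s * L * M) ^ 2 := by ring
        _ ≤ 2500 ^ 2 * (s * L * M) ^ 2 := by gcongr; norm_num
        _ = (2500 * (s * L * M)) ^ 2 := by ring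
        _ ≤ (Y * Y) ^ 2 := by gcongr
        _ = _ := by ring) hIL
  have hrY2 : 320 * r ≤ Y := le_trans (Nat.le_mul_of_pos_right _ (by omega)) h9
  have hzI : 0 < (2 : ℝ) ^ (4 * r * L) := by positivity
  refine ⟨z, 2 ^ (12 + 6 * L + 3 * r * L), z1, z2, z3, ?_, z4.trans ?_, z5, hY30, hrY2⟩
  · calc 3840 * M ^ 6 * r ^ (3 * r) ≤ 2 ^ 12 * (2 ^ L) ^ 6 * (2 ^ L) ^ (3 * r) := by
          gcongr
          · norm_num
          · omega
      _ = _ := by rw [← pow_mul, ← pow_mul, ← pow_add, ← pow_add]; ring_nf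
  · rw [div_le_div_iff₀ hzI (by positivity), one_mul]
    have a1 : L + 1 ≤ 2 ^ L := Nat.lt_two_pow_self
    have a2 : ((Y + 1) * (I + 1) + 3) * (4 * 2 ^ (12 + 6 * L + 3 * r * L)) ≤ 2 ^ (4 * r * L) := by
      calc _ ≤ ((Y + 4) * (I + 1)) * (4 * 2 ^ (12 + 6 * L + 3 * r * L)) := by
            gcongr; nlinarith
        _ ≤ (2 ^ L * 2 ^ L) * (2 ^ 2 * 2 ^ (12 + 6 * L + 3 * r * L)) := by
            gcongr <;> omega
        _ = 2 ^ (14 + 8 * L + 3 * r * L) := by
            rw [← pow_add, ← pow_add, ← pow_add]; ring_nf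
        _ ≤ _ := by
            refine Nat.pow_le_pow_right (by norm_num) ?_
            have : 11 * L ≤ r * L := Nat.mul_le_mul_right _ hr11
            have e1 : 4 * r * L = 3 * r * L + r * L := by ring
            omega
    exact_mod_cast a2

theorem colorable_Y (D H : SimpleGraph V) (m k Y : ℕ) (hk : 1 ≤ k) (hD : Degen D m)
    (out : V → Finset V) (hout : ∀ v, (out v).card ≤ k)
    (hH : ∀ u v, H.Adj u v → D.Adj u v ∨ v ∈ out u ∨ u ∈ out v)
    (hY : 900 * k * (m + k) +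
      2500 * (Nat.sqrt k + 1) * (Nat.log 2 (m + k) + 1) * (m + k) ≤ Y ^ 2) :
    H.Colorable (m + k + 1 + 10 * Y) := by
  rcases le_total (10 * Y) (m + k) with h4 | h4
  · obtain ⟨z, Δ, z1, z2, z3, z4, z5, z6, hY30, z7⟩ :=
      exists_param (m + k) k Y hk (by omega) h4 hY
    subst z1
    set M := m + z.k with hM
    set r := M / Y + 1 with hr
    have hMr : M < Y * r := Nat.lt_mul_div_succ M (by omega)
    have hr2 : 2 ≤ r := by
      have : 10 ≤ M / Y := (Nat.le_div_iff_mul_le (by omega)).2 h4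
      omega
    have hd : 2 * M / r ≤ 2 * Y := by
      apply Nat.div_le_of_le_mul
      have : r * (2 * Y) = 2 * (Y * r) := by ring
      omega
    refine (colorable_param D H m r r ((M + 7 * Y) / r + 1) z z3 (by omega) hr2 hD out hout hH
      Δ z4 z5 (by rw [z2, ← hM]; exact Nat.mul_le_mul_right _ (by omega)) ?_).mono ?_
    · have := Nat.lt_mul_div_succ (M + 7 * Y) (show 0 < r by omega)
      rw [← hM]
      omega
    · have a1 : r * ((M + 7 * Y) / r) ≤ M + 7 * Y := Nat.mul_div_le _ _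
      have a2 : (M + 7 * Y) / r ≤ 2 * Y := by
        apply Nat.div_le_of_le_mul
        have : r * (2 * Y) = 2 * (Y * r) := by ring
        omega
      have a3 : (r + 1) * ((M + 7 * Y) / r + 1) =
          r * ((M + 7 * Y) / r) + r + (M + 7 * Y) / r + 1 := by ring
      omega
  · obtain ⟨o, ho1, ho2⟩ := exists_out D m hD Finset.univ
    refine (colorable_degen H _ (degen_of_out H (m + k) (fun v => o v ∪ out v)
      (fun v => (Finset.card_union_le _ _).trans (Nat.add_le_add (ho1 v) (hout v)))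
      fun u v huv => ?_)).mono (by omega)
    simp only [Finset.mem_union]
    rcases hH u v huv with h1 | h1 | h1
    · rcases ho2 u (mem_univ u) v (mem_univ v) h1 with h2 | h2 <;> tauto
    · tauto
    · tauto

theorem count_final (M k P : ℕ) (hk : 1 ≤ k) (hM : 2 ≤ M) (hP : k * M ≤ 2 * P) :
    900 * k * M + 2500 * (Nat.sqrt k + 1) * (Nat.log 2 M + 1) * M ≤
      ⌊150 * Real.sqrt (P + Real.sqrt (P * M) * Real.log M)⌋₊ ^ 2 := by
  have M0 : (2 : ℝ) ≤ M := by exact_mod_cast hM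
  have P1 : (1 : ℝ) ≤ P := by
    have : 1 * 2 ≤ k * M := Nat.mul_le_mul hk hM
    exact_mod_cast (by omega : 1 ≤ P)
  have l0 : 0 ≤ Real.log M := Real.log_nonneg (by linarith)
  have s0 := Real.sqrt_nonneg (P * M)
  set X : ℝ := P + Real.sqrt (P * M) * Real.log M with hX
  have X1 : 1 ≤ X := by rw [hX]; nlinarith [mul_nonneg s0 l0]
  have x1 : 1 ≤ Real.sqrt X := Real.one_le_sqrt.2 X1
  have y1 : 149 * Real.sqrt X ≤ ⌊150 * Real.sqrt X⌋₊ := by
    linarith [Nat.lt_floor_add_one (150 * Real.sqrt X)]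
  have y2 : 22201 * X ≤ (⌊150 * Real.sqrt X⌋₊ : ℝ) ^ 2 := by
    calc 22201 * X = (149 * Real.sqrt X) ^ 2 := by
          rw [mul_pow, Real.sq_sqrt (by linarith)]; norm_num
      _ ≤ _ := by gcongr
  have a1 : ((Nat.sqrt k + 1 : ℕ) : ℝ) ≤ 2 * Real.sqrt k := by
    have b1 : (Nat.sqrt k : ℝ) ≤ Real.sqrt k := Real.nat_sqrt_le_real_sqrt
    have b2 : 1 ≤ Real.sqrt k := Real.one_le_sqrt.2 (by exact_mod_cast hk)
    push_cast; linarith
  have a2 : ((Nat.log 2 M + 1 : ℕ) : ℝ) ≤ 29 / 10 * Real.log M := by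
    have b1 : (2 : ℝ) ^ Nat.log 2 M ≤ M := by
      exact_mod_cast Nat.pow_log_le_self 2 (show M ≠ 0 by omega)
    have b2 := Real.log_le_log (by positivity) b1
    rw [Real.log_pow] at b2
    have b3 : (1 : ℝ) ≤ Nat.log 2 M := by
      exact_mod_cast Nat.log_pos (by norm_num) hM
    have b4 := mul_le_mul_of_nonneg_left Real.log_two_gt_d9.le
      (Nat.cast_nonneg (α := ℝ) (Nat.log 2 M))
    push_cast; linarith
  have hP' : (k : ℝ) * M ≤ 2 * P := by exact_mod_cast hP
  have a3 : Real.sqrt k * M ≤ 3 / 2 * Real.sqrt (P * M) := by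
    refine abs_le_of_sq_le_sq' ?_ (by positivity) |>.2
    rw [mul_pow, mul_pow, Real.sq_sqrt (by positivity), Real.sq_sqrt (by positivity)]
    nlinarith
  have a4 : ((Nat.sqrt k + 1 : ℕ) : ℝ) * ((Nat.log 2 M + 1 : ℕ) : ℝ) * M ≤
      87 / 10 * (Real.sqrt (P * M) * Real.log M) := by
    calc _ ≤ (2 * Real.sqrt k) * (29 / 10 * Real.log M) * M := by gcongr
      _ = 29 / 5 * Real.log M * (Real.sqrt k * M) := by ring
      _ ≤ 29 / 5 * Real.log M * (3 / 2 * Real.sqrt (P * M)) := by gcongr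
      _ = _ := by ring
  have a5 : ((900 * k * M + 2500 * (Nat.sqrt k + 1) * (Nat.log 2 M + 1) * M : ℕ) : ℝ) ≤
      22201 * X := by
    rw [hX]
    push_cast at a4 ⊢
    nlinarith [mul_nonneg s0 l0]
  exact_mod_cast a5.trans y2

end Pool.Agent.P.MP_c25521_co.Multi
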